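import Pool.Agent.LR.Defs

/-!
# Calculus for the Dirichlet integral on the plane

`C1c φ`: `φ` is `C¹` with compact support.  Bilinear form, Cauchy-Schwarz, parallelogram law,
translations, Poincaré inequality, multiplication by a cutoff.
-/

set_option autoImplicit false

noncomputable section

open scoped BigOperators Topology
open MeasureTheory Filter Set

namespace Pool.Agent.LR

/-- `C¹` with compact support. -/
structure C1c (φ : P → ℝ) : Prop where
  c1 : ContDiff ℝ 1 φ
  cs : HasCompactSupport φ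

/-- partial derivatives -/
def dx (φ : P → ℝ) (z : P) : ℝ := fderiv ℝ φ z (1, 0)
def dy (φ : P → ℝ) (z : P) : ℝ := fderiv ℝ φ z (0, 1)

lemma gsq_eq (φ : P → ℝ) (z : P) : gsq φ z = dx φ z ^ 2 + dy φ z ^ 2 := rfl

namespace C1c

variable {φ χ : P → ℝ}

lemma diff (h : C1c φ) : Differentiable ℝ φ := h.c1.differentiable (by simp)

lemma cont (h : C1c φ) : Continuous φ := h.c1.continuous

lemma cont_dx (h : C1c φ) : Continuous (dx φ) :=
  (h.c1.continuous_fderiv (by simp)).clm_apply continuous_const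

lemma cont_dy (h : C1c φ) : Continuous (dy φ) :=
  (h.c1.continuous_fderiv (by simp)).clm_apply continuous_const

lemma cs_dx (h : C1c φ) : HasCompactSupport (dx φ) := by
  have := h.cs.fderiv (𝕜 := ℝ)
  exact this.comp_left (g := fun L : P →L[ℝ] ℝ => L (1, 0)) (by simp)

lemma cs_dy (h : C1c φ) : HasCompactSupport (dy φ) := by
  have := h.cs.fderiv (𝕜 := ℝ)
  exact this.comp_left (g := fun L : P →L[ℝ] ℝ => L (0, 1)) (by simp)

lemma integrable (h : C1c φ) : Integrable φ := h.cont.integrable_of_hasCompactSupport h.cs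

lemma add (h : C1c φ) (g : C1c χ) : C1c (φ + χ) := ⟨h.c1.add g.c1, h.cs.add g.cs⟩

lemma neg (h : C1c φ) : C1c (-φ) := ⟨h.c1.neg, by
  have := h.cs.comp_left (g := fun x : ℝ => -x) (by simp)
  exact this⟩

lemma sub (h : C1c φ) (g : C1c χ) : C1c (φ - χ) := by
  rw [sub_eq_add_neg]; exact h.add g.neg

lemma smul (h : C1c φ) (s : ℝ) : C1c (s • φ) := ⟨h.c1.const_smul s, by
  have := h.cs.comp_left (g := fun x : ℝ => s * x) (by simp)
  exact this⟩

lemma zero : C1c (0 : P → ℝ) := ⟨contDiff_const, by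
  simp [HasCompactSupport, tsupport]⟩

lemma mul (h : C1c φ) (g : ContDiff ℝ 1 χ) : C1c (χ * φ) := ⟨g.mul h.c1, h.cs.mul_left⟩

lemma dx_add (h : C1c φ) (g : C1c χ) (z : P) : dx (φ + χ) z = dx φ z + dx χ z := by
  unfold dx; rw [fderiv_add (h.diff z) (g.diff z)]; rfl

lemma dy_add (h : C1c φ) (g : C1c χ) (z : P) : dy (φ + χ) z = dy φ z + dy χ z := by
  unfold dy; rw [fderiv_add (h.diff z) (g.diff z)]; rfl

lemma dx_smul (h : C1c φ) (s : ℝ) (z : P) : dx (s • φ) z = s * dx φ z := by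
  unfold dx; rw [fderiv_const_smul (h.diff z)]; rfl

lemma dy_smul (h : C1c φ) (s : ℝ) (z : P) : dy (s • φ) z = s * dy φ z := by
  unfold dy; rw [fderiv_const_smul (h.diff z)]; rfl

end C1c

/-- integral of a continuous compactly supported function -/
lemma int_cc {g : P → ℝ} (hg : Continuous g) (hc : HasCompactSupport g) : Integrable g :=
  hg.integrable_of_hasCompactSupport hc

/-- the bilinear Dirichlet form -/
def DB (φ χ : P → ℝ) : ℝ := ∫ z, (dx φ z * dx χ z + dy φ z * dy χ z)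

lemma DB_integrable {φ χ : P → ℝ} (h : C1c φ) (g : C1c χ) :
    Integrable (fun z => dx φ z * dx χ z + dy φ z * dy χ z) := by
  refine Integrable.add ?_ ?_
  · exact int_cc (h.cont_dx.mul g.cont_dx) (h.cs_dx.mul_right)
  · exact int_cc (h.cont_dy.mul g.cont_dy) (h.cs_dy.mul_right)

lemma DB_self {φ : P → ℝ} : DB φ φ = Dir φ := by
  unfold DB Dir
  refine integral_congr_ae (Eventually.of_forall fun z => ?_)
  simp only [gsq_eq]; ring

lemma DB_comm (φ χ : P → ℝ) : DB φ χ = DB χ φ := by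
  unfold DB
  refine integral_congr_ae (Eventually.of_forall fun z => ?_)
  simp only; ring

lemma DB_add_left {φ χ ψ : P → ℝ} (h : C1c φ) (g : C1c χ) (k : C1c ψ) :
    DB (φ + χ) ψ = DB φ ψ + DB χ ψ := by
  unfold DB
  rw [← integral_add (DB_integrable h k) (DB_integrable g k)]
  refine integral_congr_ae (Eventually.of_forall fun z => ?_)
  simp only [h.dx_add g, h.dy_add g]; ring

lemma DB_smul_left {φ ψ : P → ℝ} (h : C1c φ) (s : ℝ) : DB (s • φ) ψ = s * DB φ ψ := by
  unfold DB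
  rw [← integral_const_mul]
  refine integral_congr_ae (Eventually.of_forall fun z => ?_)
  simp only [h.dx_smul, h.dy_smul]; ring

lemma DB_add_right {φ χ ψ : P → ℝ} (h : C1c φ) (g : C1c χ) (k : C1c ψ) :
    DB ψ (φ + χ) = DB ψ φ + DB ψ χ := by
  rw [DB_comm, DB_add_left h g k, DB_comm φ, DB_comm χ]

lemma DB_smul_right {φ ψ : P → ℝ} (h : C1c φ) (s : ℝ) : DB ψ (s • φ) = s * DB ψ φ := by
  rw [DB_comm, DB_smul_left h, DB_comm]

lemma Dir_nonneg (φ : P → ℝ) : 0 ≤ Dir φ := integral_nonneg fun z => by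
  show 0 ≤ gsq φ z
  rw [gsq_eq]; positivity

lemma Dir_add {φ χ : P → ℝ} (h : C1c φ) (g : C1c χ) :
    Dir (φ + χ) = Dir φ + 2 * DB φ χ + Dir χ := by
  rw [← DB_self, DB_add_left h g (h.add g), DB_add_right h g h, DB_add_right h g g, DB_self, DB_self,
    DB_comm χ φ]; ring

lemma Dir_smul {φ : P → ℝ} (h : C1c φ) (s : ℝ) : Dir (s • φ) = s ^ 2 * Dir φ := by
  rw [← DB_self, DB_smul_left h, DB_smul_right h, DB_self]; ring

lemma sub_eq_add_smul (φ χ : P → ℝ) : φ - χ = φ + (-1 : ℝ) • χ := by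
  ext z; simp; ring

lemma Dir_sub {φ χ : P → ℝ} (h : C1c φ) (g : C1c χ) :
    Dir (φ - χ) = Dir φ - 2 * DB φ χ + Dir χ := by
  rw [sub_eq_add_smul, Dir_add h (g.smul _), Dir_smul g, DB_smul_right g]; ring

lemma Dir_parallelogram {φ χ : P → ℝ} (h : C1c φ) (g : C1c χ) :
    Dir (φ + χ) + Dir (φ - χ) = 2 * Dir φ + 2 * Dir χ := by
  rw [Dir_add h g, Dir_sub h g]; ring

lemma DB_cs {φ χ : P → ℝ} (h : C1c φ) (g : C1c χ) : DB φ χ ^ 2 ≤ Dir φ * Dir χ := by
  have key : ∀ s : ℝ, 0 ≤ Dir χ * (s * s) + (2 * DB φ χ) * s + Dir φ := by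
    intro s
    have := Dir_nonneg (φ + s • χ)
    rw [Dir_add h (g.smul s), Dir_smul g, DB_smul_right g] at this
    nlinarith
  have := discrim_le_zero key
  unfold discrim at this
  nlinarith

lemma sqrt_Dir_add {φ χ : P → ℝ} (h : C1c φ) (g : C1c χ) :
    √(Dir (φ + χ)) ≤ √(Dir φ) + √(Dir χ) := by
  have h1 : DB φ χ ≤ √(Dir φ) * √(Dir χ) := by
    rw [← Real.sqrt_mul (Dir_nonneg φ)]
    exact Real.le_sqrt_of_sq_le (DB_cs h g)
  rw [Real.sqrt_le_left (by positivity)]
  have h2 := Real.sq_sqrt (Dir_nonneg φ)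
  have h3 := Real.sq_sqrt (Dir_nonneg χ)
  rw [Dir_add h g]
  nlinarith

lemma Dir_neg {φ : P → ℝ} (h : C1c φ) : Dir (-φ) = Dir φ := by
  have : -φ = (-1 : ℝ) • φ := by ext z; simp
  rw [this, Dir_smul h]; ring

lemma sqrt_Dir_sub {φ χ : P → ℝ} (h : C1c φ) (g : C1c χ) :
    √(Dir (φ - χ)) ≤ √(Dir φ) + √(Dir χ) := by
  rw [sub_eq_add_neg]
  exact (sqrt_Dir_add h g.neg).trans (by rw [Dir_neg g])

/-! ### Translations -/

/-- translate -/
def trl (y : P) (φ : P → ℝ) : P → ℝ := fun z => φ (z - y)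

lemma C1c.trl {φ : P → ℝ} (h : C1c φ) (y : P) : C1c (trl y φ) :=
  ⟨h.c1.comp (contDiff_id.sub contDiff_const), h.cs.comp_homeomorph (Homeomorph.subRight y)⟩

lemma dx_trl (φ : P → ℝ) (y z : P) : dx (trl y φ) z = dx φ (z - y) := by
  unfold dx trl
  rw [fderiv_comp_sub]

lemma dy_trl (φ : P → ℝ) (y z : P) : dy (trl y φ) z = dy φ (z - y) := by
  unfold dy trl
  rw [fderiv_comp_sub]

lemma Dir_trl (φ : P → ℝ) (y : P) : Dir (trl y φ) = Dir φ := by
  unfold Dir
  have : ∀ z, gsq (trl y φ) z = gsq φ (z - y) := by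
    intro z; rw [gsq_eq, gsq_eq, dx_trl, dy_trl]
  simp only [this]
  exact integral_sub_right_eq_self (μ := volume) (fun z => gsq φ z) y

/-! ### Poincaré -/

lemma int_mul_dx {φ χ : P → ℝ} (h : C1c φ) (g : C1c χ) :
    ∫ z, φ z * dx χ z = - ∫ z, dx φ z * χ z := by
  unfold dx
  exact integral_mul_fderiv_eq_neg_fderiv_mul_of_integrable
    (int_cc (h.cont_dx.mul g.cont) h.cs_dx.mul_right)
    (int_cc (h.cont.mul g.cont_dx) h.cs.mul_right)
    (int_cc (h.cont.mul g.cont) h.cs.mul_right) (fun x _ => h.diff x) (fun x _ => g.diff x)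

lemma int_mul_dy {φ χ : P → ℝ} (h : C1c φ) (g : C1c χ) :
    ∫ z, φ z * dy χ z = - ∫ z, dy φ z * χ z := by
  unfold dy
  exact integral_mul_fderiv_eq_neg_fderiv_mul_of_integrable
    (int_cc (h.cont_dy.mul g.cont) h.cs_dy.mul_right)
    (int_cc (h.cont.mul g.cont_dy) h.cs.mul_right)
    (int_cc (h.cont.mul g.cont) h.cs.mul_right) (fun x _ => h.diff x) (fun x _ => g.diff x)

/-- L² Cauchy-Schwarz for continuous compactly supported functions -/
lemma cs_L2 {f g : P → ℝ} (hf : Continuous f) (hfc : HasCompactSupport f) (hg : Continuous g)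
    (hgc : HasCompactSupport g) :
    (∫ z, f z * g z) ^ 2 ≤ (∫ z, f z ^ 2) * ∫ z, g z ^ 2 := by
  have i1 : Integrable (fun z => f z * f z) := int_cc (hf.mul hf) hfc.mul_right
  have i2 : Integrable (fun z => g z * g z) := int_cc (hg.mul hg) hgc.mul_right
  have i3 : Integrable (fun z => f z * g z) := int_cc (hf.mul hg) hfc.mul_right
  have key : ∀ s : ℝ, 0 ≤ (∫ z, g z ^ 2) * (s * s) + (2 * ∫ z, f z * g z) * s + ∫ z, f z ^ 2 := by
    intro s
    have h0 : 0 ≤ ∫ z, (f z + s * g z) ^ 2 := integral_nonneg fun z => sq_nonneg _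
    have h1 : ∫ z, (f z + s * g z) ^ 2 =
        (∫ z, g z ^ 2) * (s * s) + (2 * ∫ z, f z * g z) * s + ∫ z, f z ^ 2 := by
      have : ∀ z, (f z + s * g z) ^ 2 = (s * s) * (g z * g z) + (2 * s) * (f z * g z) + f z * f z := by
        intro z; ring
      simp only [this]
      have j1 : Integrable (fun z => (s * s) * (g z * g z)) := i2.const_mul _
      have j2 : Integrable (fun z => (2 * s) * (f z * g z)) := i3.const_mul _
      have j3 : Integrable (fun z => (s * s) * (g z * g z) + (2 * s) * (f z * g z)) := j1.add j2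
      rw [integral_add j3 i1, integral_add j1 j2, integral_const_mul, integral_const_mul]
      simp only [pow_two]
      ring
    rw [h1] at h0; exact h0
  have := discrim_le_zero key
  unfold discrim at this
  nlinarith

lemma dir_ge_dx {φ : P → ℝ} (h : C1c φ) : ∫ z, dx φ z ^ 2 ≤ Dir φ := by
  unfold Dir
  refine integral_mono_of_nonneg (Eventually.of_forall fun z => sq_nonneg _) ?_
    (Eventually.of_forall fun z => ?_)
  · have := DB_integrable h h
    refine this.congr (Eventually.of_forall fun z => ?_)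
    simp only [gsq_eq]; ring
  · simp only [gsq_eq]
    have := sq_nonneg (dy φ z)
    linarith

lemma poincare {φ : P → ℝ} (h : C1c φ) {R : ℝ} (hR : ∀ z, φ z ≠ 0 → |z.1| ≤ R) :
    ∫ z, φ z ^ 2 ≤ 4 * R ^ 2 * Dir φ := by
  -- ∫ φ² = - 2 ∫ x φ ∂₁φ
  have hsq : C1c (φ * φ) := h.mul h.c1
  have h1 : ∫ z, (z.1 * φ z) * dx φ z = - ∫ z, dx (fun z => z.1 * φ z) z * φ z := by
    have h2 : C1c (fun z : P => z.1 * φ z) := by
      have := h.mul (χ := fun z : P => z.1) contDiff_fst
      exact this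
    exact int_mul_dx h2 h
  have h2 : ∀ z, dx (fun z : P => z.1 * φ z) z = φ z + z.1 * dx φ z := by
    intro z
    unfold dx
    have e : (fun z : P => z.1 * φ z) = (fun z : P => z.1) * φ := rfl
    rw [e, fderiv_mul (by fun_prop) (h.diff z)]
    have e2 : fderiv ℝ (fun z : P => z.1) z = ContinuousLinearMap.fst ℝ ℝ ℝ := fderiv_fst
    simp [e2]
    ring
  have i1 : Integrable (fun z : P => (z.1 * φ z) * dx φ z) :=
    int_cc ((continuous_fst.mul h.cont).mul h.cont_dx) (h.cs.mul_left.mul_right)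
  have i2 : Integrable (fun z : P => φ z ^ 2) := by
    have := int_cc (h.cont.mul h.cont) (h.cs.mul_right (f' := φ))
    refine this.congr (Eventually.of_forall fun z => ?_)
    simp [pow_two]
  have h3 : ∫ z, φ z ^ 2 = -2 * ∫ z, (z.1 * φ z) * dx φ z := by
    have h4 : ∫ z, dx (fun z : P => z.1 * φ z) z * φ z = (∫ z, φ z ^ 2) + ∫ z, (z.1 * φ z) * dx φ z := by
      rw [← integral_add i2 i1]
      refine integral_congr_ae (Eventually.of_forall fun z => ?_)
      simp only [h2]; ring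
    rw [h4] at h1
    linarith
  have h5 : (∫ z, (z.1 * φ z) * dx φ z) ^ 2 ≤ (∫ z, (z.1 * φ z) ^ 2) * ∫ z, dx φ z ^ 2 :=
    cs_L2 (continuous_fst.mul h.cont) h.cs.mul_left h.cont_dx h.cs_dx
  have h6 : ∫ z, (z.1 * φ z) ^ 2 ≤ R ^ 2 * ∫ z, φ z ^ 2 := by
    rw [← integral_const_mul]
    refine integral_mono_of_nonneg (Eventually.of_forall fun z => sq_nonneg _) (i2.const_mul _)
      (Eventually.of_forall fun z => ?_)
    simp only
    by_cases hz : φ z = 0
    · simp [hz]
    · rw [mul_pow]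
      have := hR z hz
      have h7 : z.1 ^ 2 ≤ R ^ 2 := sq_le_sq' (by linarith [neg_abs_le z.1]) ((le_abs_self _).trans this)
      exact mul_le_mul_of_nonneg_right h7 (sq_nonneg _)
  set A := ∫ z, φ z ^ 2
  have hA : 0 ≤ A := integral_nonneg fun z => sq_nonneg _
  have hD := dir_ge_dx h
  have hD0 := Dir_nonneg φ
  have hdx0 : 0 ≤ ∫ z, dx φ z ^ 2 := integral_nonneg fun z => sq_nonneg _
  have h8 : A ^ 2 ≤ 4 * (R ^ 2 * A) * Dir φ := by
    have : A ^ 2 = 4 * (∫ z, (z.1 * φ z) * dx φ z) ^ 2 := by rw [h3]; ring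
    rw [this]
    calc 4 * (∫ z, (z.1 * φ z) * dx φ z) ^ 2 ≤ 4 * ((∫ z, (z.1 * φ z) ^ 2) * ∫ z, dx φ z ^ 2) := by
          linarith
      _ ≤ 4 * ((R ^ 2 * A) * Dir φ) := by
          have := mul_le_mul h6 hD hdx0 (by positivity)
          linarith
      _ = _ := by ring
  rcases hA.eq_or_lt with h9 | h9
  · rw [← h9]; positivity
  · have : A * A ≤ (4 * R ^ 2 * Dir φ) * A := by nlinarith
    exact le_of_mul_le_mul_right this h9

/-- Multiplication by a cutoff; bounds are needed only on a set containing the support. -/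
lemma Dir_mul_le {χ φ : P → ℝ} (h : C1c φ) (g : ContDiff ℝ 1 χ) {K : Set P} {A B : ℝ}
    (hK : ∀ z, z ∉ K → φ z = 0 ∧ dx φ z = 0 ∧ dy φ z = 0)
    (hA : ∀ z ∈ K, |χ z| ≤ A) (hx : ∀ z ∈ K, |dx χ z| ≤ B) (hy : ∀ z ∈ K, |dy χ z| ≤ B) :
    Dir (χ * φ) ≤ 2 * A ^ 2 * Dir φ + 4 * B ^ 2 * ∫ z, φ z ^ 2 := by
  have hgd : Differentiable ℝ χ := g.differentiable (by simp)
  have e1 : ∀ z, dx (χ * φ) z = χ z * dx φ z + dx χ z * φ z := by
    intro z; unfold dx; rw [fderiv_mul (hgd z) (h.diff z)]; simp; ring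
  have e2 : ∀ z, dy (χ * φ) z = χ z * dy φ z + dy χ z * φ z := by
    intro z; unfold dy; rw [fderiv_mul (hgd z) (h.diff z)]; simp; ring
  have i1 : Integrable (fun z => 2 * A ^ 2 * gsq φ z) := by
    have := (DB_integrable h h).const_mul (2 * A ^ 2)
    refine this.congr (Eventually.of_forall fun z => ?_)
    simp only [gsq_eq]; ring
  have i2 : Integrable (fun z => 4 * B ^ 2 * φ z ^ 2) := by
    have := (int_cc (h.cont.mul h.cont) (h.cs.mul_right (f' := φ))).const_mul (4 * B ^ 2)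
    refine this.congr (Eventually.of_forall fun z => ?_)
    simp [pow_two]
  unfold Dir
  rw [← integral_const_mul, ← integral_const_mul, ← integral_add i1 i2]
  refine integral_mono_of_nonneg (Eventually.of_forall fun z => ?_) (i1.add i2)
    (Eventually.of_forall fun z => ?_)
  · show 0 ≤ gsq (χ * φ) z
    rw [gsq_eq]; positivity
  · show gsq (χ * φ) z ≤ 2 * A ^ 2 * gsq φ z + 4 * B ^ 2 * φ z ^ 2
    rw [gsq_eq, gsq_eq, e1, e2]
    by_cases hz : z ∈ K
    · have a1 : χ z ^ 2 ≤ A ^ 2 := by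
        have := hA z hz
        exact sq_le_sq' (by linarith [neg_abs_le (χ z)]) ((le_abs_self _).trans this)
      have a2 : dx χ z ^ 2 ≤ B ^ 2 := by
        have := hx z hz
        exact sq_le_sq' (by linarith [neg_abs_le (dx χ z)]) ((le_abs_self _).trans this)
      have a3 : dy χ z ^ 2 ≤ B ^ 2 := by
        have := hy z hz
        exact sq_le_sq' (by linarith [neg_abs_le (dy χ z)]) ((le_abs_self _).trans this)
      have b1 := mul_le_mul_of_nonneg_right a1 (sq_nonneg (dx φ z))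
      have b2 := mul_le_mul_of_nonneg_right a1 (sq_nonneg (dy φ z))
      have b3 := mul_le_mul_of_nonneg_right a2 (sq_nonneg (φ z))
      have b4 := mul_le_mul_of_nonneg_right a3 (sq_nonneg (φ z))
      nlinarith [sq_nonneg (χ z * dx φ z - dx χ z * φ z), sq_nonneg (χ z * dy φ z - dy χ z * φ z)]
    · obtain ⟨h1, h2, h3⟩ := hK z hz
      rw [h1, h2, h3]; simp

/-- Continuity of translations in the Dirichlet norm. -/
lemma tendsto_Dir_trl {m : P → ℝ} (h : C1c m) (y : P) :
    Tendsto (fun t : ℝ => Dir (trl (t • y) m - m)) (𝓝 0) (𝓝 0) := by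
  obtain ⟨R, hR⟩ := (Metric.isBounded_iff_subset_closedBall (0 : P)).1 h.cs.isBounded
  set s := Metric.closedBall (0 : P) (R + ‖y‖) with hs
  have hsc : IsCompact s := isCompact_closedBall _ _
  let F : ℝ → P → ℝ := fun t z => (dx m (z - t • y) - dx m z) ^ 2 + (dy m (z - t • y) - dy m z) ^ 2
  have hF : Continuous (Function.uncurry F) := by
    have := h.cont_dx
    have := h.cont_dy
    simp only [F, Function.uncurry_def]
    fun_prop
  have hc : Continuous (fun t => ∫ z in s, F t z) := continuous_parametric_integral_of_continuous hF hsc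
  have h0 : ∫ z in s, F 0 z = 0 := by simp [F]
  have h1 : Tendsto (fun t => ∫ z in s, F t z) (𝓝 0) (𝓝 0) := by
    have := hc.tendsto 0
    rwa [h0] at this
  refine h1.congr' ?_
  filter_upwards [Metric.closedBall_mem_nhds (0 : ℝ) one_pos] with t ht
  have ht1 : ‖t‖ ≤ 1 := by simpa using ht
  rw [setIntegral_eq_integral_of_forall_compl_eq_zero]
  · unfold Dir
    refine integral_congr_ae (Eventually.of_forall fun z => ?_)
    simp only [F, gsq_eq]
    have e1 : dx (trl (t • y) m - m) z = dx m (z - t • y) - dx m z := by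
      rw [sub_eq_add_smul, (h.trl _).dx_add (h.smul _), dx_trl, h.dx_smul]; ring
    have e2 : dy (trl (t • y) m - m) z = dy m (z - t • y) - dy m z := by
      rw [sub_eq_add_smul, (h.trl _).dy_add (h.smul _), dy_trl, h.dy_smul]; ring
    rw [e1, e2]
  · intro z hz
    have hz' : R + ‖y‖ < ‖z‖ := by simpa [hs] using hz
    have k1 : ∀ w : P, R < ‖w‖ → dx m w = 0 ∧ dy m w = 0 := by
      intro w hw
      have : w ∉ tsupport m := fun hm => by
        have := hR hm
        simp at this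
        linarith
      have h2 : fderiv ℝ m w = 0 := by
        by_contra h3
        exact this (support_fderiv_subset ℝ h3)
      exact ⟨by unfold dx; rw [h2]; rfl, by unfold dy; rw [h2]; rfl⟩
    have k2 : R < ‖z‖ := by have := norm_nonneg y; linarith
    have k3 : R < ‖z - t • y‖ := by
      have h4 := norm_sub_norm_le z (t • y)
      have h5 : ‖t • y‖ ≤ ‖y‖ := by
        rw [norm_smul]
        exact mul_le_of_le_one_left (norm_nonneg _) ht1
      linarith
    simp [F, k1 _ k2, k1 _ k3]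

end Pool.Agent.LR
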