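import Pool.Agent.LR.B1.Rest

/-! # LR-B8-Mass: perturbation by on-site masses (1.6 (f)) -/

set_option autoImplicit false
set_option linter.unusedSectionVars false

noncomputable section

open scoped BigOperators Topology
open MeasureTheory Filter Set

namespace Pool.Agent.LR.B8



variable {W : Type*} [DecidableEq W] {M : BF W} {O S : Finset W}

private theorem mass_apply (k : W → ℝ) (φ χ : W → ℝ) :
    massF S k φ χ = ∑ x ∈ S, k x * φ x * χ x := by
  unfold massF
  rw [LinearMap.sum_apply, LinearMap.sum_apply]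
  exact Finset.sum_congr rfl fun x _ => by simp [rk, ev]

theorem isForm_mass (k : W → ℝ) (hk : ∀ x ∈ S, 0 ≤ k x) : IsForm (massF S k) := by
  refine ⟨fun f g => ?_, fun f => ?_⟩
  · rw [mass_apply, mass_apply]
    exact Finset.sum_congr rfl fun x _ => by ring
  · rw [mass_apply]
    exact Finset.sum_nonneg fun x hx => by
      rw [mul_assoc]; exact mul_nonneg (hk x hx) (mul_self_nonneg _)

theorem Ex_finset_sum (hM : IsForm M) (hp : PDef M O) (h : W → ℝ) {κ : Type*} (t : Finset κ)
    {F : κ → (O → ℤ) → ℝ} (hF : ∀ k ∈ t, Tame (F k)) :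
    Ex M O h (fun ψ => ∑ k ∈ t, F k ψ) = ∑ k ∈ t, Ex M O h (F k) := by
  classical
  induction t using Finset.induction_on with
  | empty =>
    simp only [Finset.sum_empty]
    exact Ex_const hM hp h 0
  | insert a s ha ih =>
    simp only [Finset.sum_insert ha]
    rw [Ex_add hM hp h (hF a (Finset.mem_insert_self a s))
      (Tame.sum s fun k hk => hF k (Finset.mem_insert_of_mem hk)),
      ih fun k hk => hF k (Finset.mem_insert_of_mem hk)]

theorem tame_sq_shift (h : W → ℝ) (x : W) :
    Tame (O := O) (fun ψ => (emb O ψ x - h x) ^ 2) := by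
  have h1 : Tame (O := O) (fun ψ => (ev x : (W → ℝ) →ₗ[ℝ] ℝ) (emb O ψ)) := tame_lin _
  exact Tame.pow (Tame.sub h1 (tame_const (h x))) 2

theorem En_add_mass_le (hM : IsForm M) (hp : PDef M O) (hO : O ⊆ S) (k : W → ℝ)
    (hk : ∀ x ∈ S, 0 ≤ k x) (h : W → ℝ) (hh : Supp O h) :
    En (M + massF S k) O h ≤
      En M O h + (1 / 2) * ∑ x ∈ O, k x * Ex M O h (fun ψ => (emb O ψ x - h x) ^ 2) := by
  have h1 := En_pert hM hp (isForm_mass k hk) h
  have h2 : (fun ψ : O → ℤ => massF S k (emb O ψ - h) (emb O ψ - h)) =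
      fun ψ => ∑ x ∈ O, k x * (emb O ψ x - h x) ^ 2 := by
    funext ψ
    rw [mass_apply]
    have hs : Supp O (emb O ψ - h) := (supp_emb ψ).sub hh
    rw [← Finset.sum_subset hO]
    · exact Finset.sum_congr rfl fun x _ => by simp only [Pi.sub_apply]; ring
    · intro x _ hx
      rw [hs x hx]; ring
  rw [h2, Ex_finset_sum hM hp h O fun x _ => Tame.smul (tame_sq_shift h x) (k x)] at h1
  simp only [Ex_mul_left] at h1
  exact h1

end Pool.Agent.LR.B8
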