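import Pool.Agent.LR.Forms
import Pool.Agent.LR.FKDefs
import Pool.Agent.LR.B8.Mass

/-! # LR-B8-Chain: the Dirichlet model is compared with the pinned model on a smaller lattice -/

set_option autoImplicit false

noncomputable section

open scoped BigOperators Topology
open MeasureTheory Filter Set

namespace Pool.Agent.LR.B8



/-- `En` depends only on the values of the form on the functions supported in `O`. -/
theorem En_congr {W : Type*} [DecidableEq W] {M M' : BF W} {O : Finset W}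
    (h : ∀ f, Supp O f → M f f = M' f f) {u : W → ℝ} (hu : Supp O u) :
    En M O u = En M' O u := by
  have h1 : ∀ v : W → ℝ, Supp O v → Th M O v = Th M' O v := by
    intro v hv
    unfold Th
    refine tsum_congr fun ψ => ?_
    unfold wt
    rw [h _ ((supp_emb ψ).sub hv)]
  unfold En
  rw [h1 u hu, h1 0 supp_zero]

theorem isForm_pinF (z₀ : P) (ρ : ℝ) {M : ℝ} (hM : 0 ≤ M) (δ : ℝ) (n : ℕ) :
    IsForm (pinF z₀ ρ M δ n) :=
  IsForm.sum _ fun _ _ => isForm_rk (mul_nonneg hM (sq_nonneg δ)) _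

theorem isForm_MP {α β : ℝ} (hβ : 0 ≤ β) (z₀ : P) (ρ : ℝ) {M : ℝ} (hM : 0 ≤ M) (δ : ℝ) (n : ℕ) :
    IsForm (MP α β z₀ ρ M δ n) :=
  (isForm_QF hβ _).add (isForm_pinF z₀ ρ hM δ n)

/-- the chain of inequalities -/
theorem En_dir_le {α β : ℝ} (hα : 4 < α) (hβ : 0 < β) (z₀ : P) {ρ M δ : ℝ} (hM : 0 ≤ M) (n : ℕ)
    {Λ O : Finset V} (hOS : O ⊆ SS z₀ ρ n) (hOΛ : O ⊆ Λ)
    (hp : PDef (MP α β z₀ ρ M δ n) (SS z₀ ρ n)) {h : V → ℝ} (hh : Supp O h) :
    En (QD α β Λ) Λ h ≤ En (MP α β z₀ ρ M δ n) O h +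
      (1 / 2) * ∑ x ∈ O, kil α β (SS z₀ ρ n) x *
        Ex (MP α β z₀ ρ M δ n) O h (fun ψ => (emb O ψ x - h x) ^ 2) := by
  set S := SS z₀ ρ n with hS
  have hα2 : 2 < α := by linarith
  have hfM : IsForm (MP α β z₀ ρ M δ n) := isForm_MP hβ.le z₀ ρ hM δ n
  have hpO : PDef (MP α β z₀ ρ M δ n) O := hp.mono hOS
  have s1 : En (QD α β Λ) Λ h ≤ En (QD α β Λ) O h :=
    En_sub_lattice (isForm_QD hβ.le Λ) (pdef_QD hα2 hβ Λ) hOΛ h
  have s2 : En (QD α β Λ) O h = En (QD α β S) O h :=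
    En_congr (fun f hf => by
      rw [← QD_eq_of_subset hα2 hβ.le hOΛ hf, ← QD_eq_of_subset hα2 hβ.le hOS hf]) hh
  have s3 : En (QD α β S) O h ≤ En (QD α β S + pinF z₀ ρ M δ n) O h :=
    En_add_form (isForm_QD hβ.le S) ((pdef_QD hα2 hβ S).mono hOS) (isForm_pinF z₀ ρ hM δ n) h
  have s4 : QD α β S + pinF z₀ ρ M δ n = MP α β z₀ ρ M δ n + massF S (kil α β S) := by
    show Qfr (JJ α β) S + massF S (kil α β S) + pinF z₀ ρ M δ n =
      (Qfr (JJ α β) S + pinF z₀ ρ M δ n) + massF S (kil α β S)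
    abel
  rw [s4] at s3
  have s5 := En_add_mass_le hfM hpO hOS (kil α β S) (fun x _ => kil_nonneg hβ.le S x) h hh
  calc En (QD α β Λ) Λ h ≤ En (QD α β Λ) O h := s1
    _ = En (QD α β S) O h := s2
    _ ≤ _ := s3
    _ ≤ _ := s5

end Pool.Agent.LR.B8
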