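import Pool.Agent.LR.FKDefs
import Pool.Agent.LR.Forms

/-! # LR-B8-Decay: far couplings and killing rates -/

set_option autoImplicit false

noncomputable section

open scoped BigOperators Topology
open MeasureTheory Filter Set

namespace Pool.Agent.LR.B8

/-- `L_S h (x) = ∑_{y ∈ S} J_xy (h_x - h_y)`. -/
def LS (α β : ℝ) (S : Finset V) (h : V → ℝ) : V → ℝ := fun x => ∑ y ∈ S, JJ α β x y * (h x - h y)

theorem lenP_tri (a b : P) : lenP (a + b) ≤ lenP a + lenP b := by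
  have h : ∀ z : P, lenP z = ‖(⟨z.1, z.2⟩ : ℂ)‖ := by
    intro z
    rw [Complex.norm_def, Complex.normSq_mk, lenP]
    congr 1; ring
  rw [h, h, h]
  exact norm_add_le (⟨a.1, a.2⟩ : ℂ) ⟨b.1, b.2⟩

theorem lenP_nn (a : P) : 0 ≤ lenP a := Real.sqrt_nonneg _

theorem lenP_symm (a : P) : lenP (-a) = lenP a := by simp [lenP]

theorem abs_fst_le_lenP (a : P) : |a.1| ≤ lenP a := by
  unfold lenP
  exact Real.abs_le_sqrt (by nlinarith [sq_nonneg a.2])

theorem abs_snd_le_lenP (a : P) : |a.2| ≤ lenP a := by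
  unfold lenP
  exact Real.abs_le_sqrt (by nlinarith [sq_nonneg a.1])

theorem len_eq_sc {n : ℕ} (hn : 0 < n) (x y : V) : len (x - y) = n * lenP (sc n x - sc n y) := by
  have hn' : (0 : ℝ) < n := Nat.cast_pos.2 hn
  unfold lenP len sc
  conv_rhs => rw [← Real.sqrt_sq hn'.le, ← Real.sqrt_mul (sq_nonneg _)]
  congr 1
  simp only [Prod.fst_sub, Prod.snd_sub, Int.cast_sub, Real.sqrt_sq hn'.le]
  field_simp

/-- a bound for the sum over far sites -/
theorem sum_far_le {α β : ℝ} (hα : 4 < α) (hβ : 0 < β) {a : ℝ} (ha : 0 < a) :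
    ∃ C > 0, ∀ n : ℕ, 0 < n → ∀ x : V,
      ∑' y : V, (if a * n < len (x - y) then JJ α β x y else 0) ≤
        C * (n : ℝ) ^ (-(2 + (α - 4) / 2)) := by
  obtain ⟨C, hC, h⟩ := tail_Jc (α := α) (s := 2 + (α - 4) / 2) (by linarith) (by linarith) hβ.le
  refine ⟨C * a ^ (-(2 + (α - 4) / 2)), mul_pos hC (Real.rpow_pos_of_pos ha _), fun n hn x => ?_⟩
  have hn' : (0 : ℝ) < n := Nat.cast_pos.2 hn
  have h1 := h (a * n) (by positivity)
  rw [Real.mul_rpow ha.le hn'.le, ← mul_assoc] at h1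
  refine le_trans (le_of_eq ?_) h1
  rw [← (Equiv.subLeft x).tsum_eq (fun v : V => if a * n < len v then Jc α β v else 0)]
  rfl

/-- killing rate of `S_n` at the sites of the disc of radius `5ρ` -/
theorem kil_le {α β : ℝ} (hα : 4 < α) (hβ : 0 < β) (z₀ : P) {ρ : ℝ} (hρ : 0 < ρ) :
    ∃ C > 0, ∀ n : ℕ, 0 < n → ∀ x ∈ SS z₀ ρ n, lenP (sc n x - z₀) < 5 * ρ →
      0 ≤ kil α β (SS z₀ ρ n) x ∧ kil α β (SS z₀ ρ n) x ≤ C * (n : ℝ) ^ (-(2 + (α - 4) / 2)) := by
  obtain ⟨C, hC, h⟩ := sum_far_le hα hβ (a := 8 * ρ) (by linarith)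
  refine ⟨C, hC, fun n hn x _ hx => ⟨kil_nonneg hβ.le _ x, le_trans ?_ (h n hn x)⟩⟩
  have hn' : (0 : ℝ) < n := Nat.cast_pos.2 hn
  have hα2 : 2 < α := by linarith
  unfold kil
  have hfar : ∀ y : V, y ∉ SS z₀ ρ n → 8 * ρ * n < len (x - y) := by
    intro y hy
    have hx1 := lt_of_le_of_lt (abs_fst_le_lenP (sc n x - z₀)) hx
    have hx2 := lt_of_le_of_lt (abs_snd_le_lenP (sc n x - z₀)) hx
    have e1 : (sc n x - z₀).1 = (x.1 : ℝ) / n - z₀.1 := rfl
    have e2 : (sc n x - z₀).2 = (x.2 : ℝ) / n - z₀.2 := rfl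
    rw [e1] at hx1
    rw [e2] at hx2
    have hx1' : |(x.1 : ℝ) - n * z₀.1| < 5 * ρ * n := by
      have : (x.1 : ℝ) - n * z₀.1 = n * ((x.1 : ℝ) / n - z₀.1) := by field_simp
      rw [this, abs_mul, abs_of_pos hn']
      nlinarith
    have hx2' : |(x.2 : ℝ) - n * z₀.2| < 5 * ρ * n := by
      have : (x.2 : ℝ) - n * z₀.2 = n * ((x.2 : ℝ) / n - z₀.2) := by field_simp
      rw [this, abs_mul, abs_of_pos hn']
      nlinarith
    rw [abs_lt] at hx1' hx2'
    have hy' : ¬ ((⌈n * (z₀.1 - 13 * ρ)⌉ ≤ y.1 ∧ y.1 ≤ ⌊n * (z₀.1 + 13 * ρ)⌋) ∧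
        (⌈n * (z₀.2 - 13 * ρ)⌉ ≤ y.2 ∧ y.2 ≤ ⌊n * (z₀.2 + 13 * ρ)⌋)) := by
      intro hc
      apply hy
      unfold SS bx
      rw [Finset.mem_product, Finset.mem_Icc, Finset.mem_Icc]
      exact hc
    by_contra hlen
    have hlen' : len (x - y) ≤ 8 * ρ * n := not_lt.1 hlen
    have h1 := (abs_fst_le_len (x - y)).trans hlen'
    have h2 := (abs_snd_le_len (x - y)).trans hlen'
    simp only [Prod.fst_sub, Prod.snd_sub, Int.cast_sub] at h1 h2
    rw [abs_le] at h1 h2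
    apply hy'
    refine ⟨⟨Int.ceil_le.2 ?_, Int.le_floor.2 ?_⟩, ⟨Int.ceil_le.2 ?_, Int.le_floor.2 ?_⟩⟩ <;>
      nlinarith
  refine Summable.tsum_le_tsum (fun y => ?_) (summable_kil hα2 hβ.le _ x) ?_
  · by_cases hy : y ∈ SS z₀ ρ n
    · rw [if_pos hy]
      split_ifs
      · exact JJ_nonneg hβ.le x y
      · exact le_rfl
    · rw [if_neg hy, if_pos (hfar y hy)]
  · refine (summable_JJ hα2 β x).of_nonneg_of_le (fun y => ?_) fun y => ?_
    · split_ifs
      · exact JJ_nonneg hβ.le x y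
      · exact le_rfl
    · split_ifs
      · exact le_rfl
      · exact JJ_nonneg hβ.le x y

/-- charge of `H_n` away from the support of `H` -/
theorem far_le {α β : ℝ} (hα : 4 < α) (hβ : 0 < β) (z₀ : P) {ρ : ℝ} (hρ : 0 < ρ) (H : P → ℝ)
    (hH : Continuous H) (hc : HasCompactSupport H) (hs : ∀ z ∈ tsupport H, lenP (z - z₀) < ρ) :
    ∃ C > 0, ∀ n : ℕ, 0 < n → ∀ x ∈ SS z₀ ρ n, 2 * ρ < lenP (sc n x - z₀) →
      |LS α β (SS z₀ ρ n) (smp H n) x| ≤ C * (n : ℝ) ^ (-(2 + (α - 4) / 2)) := by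
  obtain ⟨C, hC, h⟩ := sum_far_le hα hβ (a := ρ) hρ
  obtain ⟨B, hB⟩ := hc.exists_bound_of_continuous hH
  have hα2 : 2 < α := by linarith
  refine ⟨(|B| + 1) * C, by positivity, fun n hn x _ hx => ?_⟩
  have hn' : (0 : ℝ) < n := Nat.cast_pos.2 hn
  have hz : ∀ z : P, H z ≠ 0 → lenP (z - z₀) < ρ := fun z hz => hs z (subset_tsupport _ hz)
  have hHx : smp H n x = 0 := by
    by_contra hne
    have := hz _ hne
    linarith
  have hsumm : Summable fun y : V => (if ρ * n < len (x - y) then JJ α β x y else 0) := by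
    refine (summable_JJ hα2 β x).of_nonneg_of_le (fun y => ?_) fun y => ?_
    · split_ifs
      · exact JJ_nonneg hβ.le x y
      · exact le_rfl
    · split_ifs
      · exact le_rfl
      · exact JJ_nonneg hβ.le x y
  have h0 : ∀ y : V, 0 ≤ (if ρ * n < len (x - y) then JJ α β x y else 0) := fun y => by
    split_ifs
    · exact JJ_nonneg hβ.le x y
    · exact le_rfl
  calc |LS α β (SS z₀ ρ n) (smp H n) x|
      ≤ ∑ y ∈ SS z₀ ρ n, |JJ α β x y * (smp H n x - smp H n y)| := Finset.abs_sum_le_sum_abs _ _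
    _ ≤ ∑ y ∈ SS z₀ ρ n, (|B| + 1) * (if ρ * n < len (x - y) then JJ α β x y else 0) := by
        refine Finset.sum_le_sum fun y _ => ?_
        rw [hHx, zero_sub, abs_mul, abs_neg, abs_of_nonneg (JJ_nonneg hβ.le x y)]
        by_cases hy : smp H n y = 0
        · rw [hy, abs_zero, mul_zero]
          exact mul_nonneg (by positivity) (h0 y)
        · have h1 := hz _ hy
          have h2 : lenP (sc n x - z₀) ≤ lenP (sc n x - sc n y) + lenP (sc n y - z₀) := by
            have := lenP_tri (sc n x - sc n y) (sc n y - z₀)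
            rwa [sub_add_sub_cancel] at this
          have h3 : ρ * n < len (x - y) := by
            rw [len_eq_sc hn]
            have : ρ < lenP (sc n x - sc n y) := by linarith
            nlinarith
          rw [if_pos h3, mul_comm]
          apply mul_le_mul_of_nonneg_right _ (JJ_nonneg hβ.le x y)
          have h4 : |smp H n y| ≤ B := by
            have := hB (sc n y)
            rwa [Real.norm_eq_abs] at this
          have := le_abs_self B
          linarith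
    _ = (|B| + 1) * ∑ y ∈ SS z₀ ρ n, (if ρ * n < len (x - y) then JJ α β x y else 0) := by
        rw [Finset.mul_sum]
    _ ≤ (|B| + 1) * ∑' y : V, (if ρ * n < len (x - y) then JJ α β x y else 0) :=
        mul_le_mul_of_nonneg_left (hsumm.sum_le_tsum _ fun y _ => h0 y) (by positivity)
    _ ≤ (|B| + 1) * (C * (n : ℝ) ^ (-(2 + (α - 4) / 2))) :=
        mul_le_mul_of_nonneg_left (h n hn x) (by positivity)
    _ = _ := by ring

/-- number of sites -/
theorem card_SS_le (z₀ : P) {ρ : ℝ} (hρ : 0 < ρ) :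
    ∃ C > 0, ∀ n : ℕ, 0 < n → ((SS z₀ ρ n).card : ℝ) ≤ C * (n : ℝ) ^ 2 := by
  refine ⟨(26 * ρ + 1) ^ 2, by positivity, fun n hn => ?_⟩
  have hn' : (1 : ℝ) ≤ n := by exact_mod_cast hn
  have key : ∀ c : ℝ, ((Finset.Icc ⌈n * (c - 13 * ρ)⌉ ⌊n * (c + 13 * ρ)⌋).card : ℝ) ≤
      (26 * ρ + 1) * n := by
    intro c
    rw [Int.card_Icc]
    have h1 : ((⌊n * (c + 13 * ρ)⌋ + 1 - ⌈n * (c - 13 * ρ)⌉ : ℤ) : ℝ) ≤ (26 * ρ + 1) * n := by
      push_cast
      have a1 := Int.floor_le (n * (c + 13 * ρ))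
      have a2 := Int.le_ceil (n * (c - 13 * ρ))
      nlinarith
    rcases le_total 0 (⌊n * (c + 13 * ρ)⌋ + 1 - ⌈n * (c - 13 * ρ)⌉) with h | h
    · have : (((⌊n * (c + 13 * ρ)⌋ + 1 - ⌈n * (c - 13 * ρ)⌉).toNat : ℤ) : ℝ) ≤
          (26 * ρ + 1) * n := by
        rw [Int.toNat_of_nonneg h]; exact h1
      exact_mod_cast this
    · rw [Int.toNat_of_nonpos h]
      simp only [Nat.cast_zero]
      positivity
  unfold SS bx
  rw [Finset.card_product]
  push_cast
  calc _ ≤ ((26 * ρ + 1) * n) * ((26 * ρ + 1) * n) :=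
        mul_le_mul (key z₀.1) (key z₀.2) (by positivity) (by positivity)
    _ = _ := by ring

/-- `M'(h, φ) = ⟨L_S h, φ⟩` when `h` vanishes on the pinned cells -/
theorem MP_smp_eq {α β : ℝ} (z₀ : P) {ρ M δ : ℝ} (hρ : 0 < ρ) (hδ : 0 < δ) (H : P → ℝ)
    (hs : ∀ z, H z ≠ 0 → lenP (z - z₀) < ρ) (n : ℕ) (φ : V → ℝ) :
    MP α β z₀ ρ M δ n (smp H n) φ = pr (SS z₀ ρ n) (LS α β (SS z₀ ρ n) (smp H n)) φ := by
  set S := SS z₀ ρ n with hS
  have havg : ∀ i ∈ pin z₀ ρ δ, avg (blk z₀ ρ δ n i) (smp H n) = 0 := by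
    intro i hi
    rw [avg_apply]
    have : ∑ x ∈ blk z₀ ρ δ n i, smp H n x = 0 := by
      refine Finset.sum_eq_zero fun x hx => ?_
      by_contra hne
      have h1 := hs _ hne
      have hcel : cel z₀ δ n x = i := (Finset.mem_filter.1 hx).2
      have hmem : sc n x ∈ cellP z₀ δ i := by
        rw [← hcel]
        unfold cellP rct cel
        have f1 := Int.floor_le (((sc n x).1 - z₀.1) / δ)
        have f2 := Int.lt_floor_add_one (((sc n x).1 - z₀.1) / δ)
        have f3 := Int.floor_le (((sc n x).2 - z₀.2) / δ)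
        have f4 := Int.lt_floor_add_one (((sc n x).2 - z₀.2) / δ)
        rw [le_div_iff₀ hδ] at f1 f3
        rw [div_lt_iff₀ hδ] at f2 f4
        refine Set.mem_prod.2 ⟨⟨?_, ?_⟩, ⟨?_, ?_⟩⟩ <;> simp only <;> linarith
      have hsub : cellP z₀ δ i ⊆ shell z₀ ρ 1 ∨ cellP z₀ δ i ⊆ shell z₀ ρ 3 ∨
          cellP z₀ δ i ⊆ shell z₀ ρ 5 := by
        classical
        unfold pin at hi
        exact (Finset.mem_filter.1 hi).2
      have hρ1 : ρ ≤ lenP (sc n x - z₀) := by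
        rcases hsub with h | h | h
        · have := (h hmem).1
          simpa using this
        · have := (h hmem).1
          push_cast at this
          nlinarith
        · have := (h hmem).1
          push_cast at this
          nlinarith
      linarith
    rw [this, mul_zero]
  have hpin : (∑ i ∈ pin z₀ ρ δ, rk (M * δ ^ 2) (avg (blk z₀ ρ δ n i))) (smp H n) φ = 0 := by
    rw [LinearMap.sum_apply, LinearMap.sum_apply]
    refine Finset.sum_eq_zero fun i hi => ?_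
    rw [rk_apply, havg i hi]
    ring
  have h1 : MP α β z₀ ρ M δ n (smp H n) φ = Qfr (JJ α β) S (smp H n) φ := by
    show (Qfr (JJ α β) S + ∑ i ∈ pin z₀ ρ δ, rk (M * δ ^ 2) (avg (blk z₀ ρ δ n i)))
      (smp H n) φ = _
    rw [LinearMap.add_apply, LinearMap.add_apply, hpin, add_zero]
  rw [h1, Qfr_apply]
  unfold pr LS
  set h := smp H n
  have e1 : ∑ x ∈ S, ∑ y ∈ S, JJ α β x y / 2 * (h x - h y) * (φ x - φ y) =
      ∑ x ∈ S, ∑ y ∈ S, JJ α β x y / 2 * (h x - h y) * φ x -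
        ∑ x ∈ S, ∑ y ∈ S, JJ α β x y / 2 * (h x - h y) * φ y := by
    rw [← Finset.sum_sub_distrib]
    refine Finset.sum_congr rfl fun x _ => ?_
    rw [← Finset.sum_sub_distrib]
    exact Finset.sum_congr rfl fun y _ => by ring
  have e2 : ∑ x ∈ S, ∑ y ∈ S, JJ α β x y / 2 * (h x - h y) * φ y =
      ∑ x ∈ S, ∑ y ∈ S, -(JJ α β x y / 2 * (h x - h y) * φ x) := by
    rw [Finset.sum_comm]
    refine Finset.sum_congr rfl fun x _ => Finset.sum_congr rfl fun y _ => ?_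
    rw [JJ_symm α β y x]
    ring
  rw [e1, e2, ← Finset.sum_sub_distrib]
  refine Finset.sum_congr rfl fun x _ => ?_
  rw [← Finset.sum_sub_distrib, Finset.sum_mul]
  exact Finset.sum_congr rfl fun y _ => by ring

end Pool.Agent.LR.B8
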