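import Pool.Agent.LR.Defs

/-!
# The model of the problem file, the continuum field, and the statements of the theorems

Everything needed to read the final theorem (besides `V`, `P`, `len`, `sc`, `Lam`, `Test`, `lapl`,
`Dir`, `vD`, `Stable` of `Pool.Agent.LR.Defs`).
-/

set_option autoImplicit false

noncomputable section

open scoped BigOperators Topology
open MeasureTheory Filter Set ProbabilityTheory

namespace Pool.Agent.LR

/-- The long-range energy `∑_{x ≠ y} |x - y|^{-α} (φ_x - φ_y)²` (ordered pairs) of a real field. -/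
def HE (α : ℝ) (φ : V → ℝ) : ℝ :=
  ∑' p : V × V, len (p.1 - p.2) ^ (-α) * (φ p.1 - φ p.2) ^ 2

/-- Integer fields on `ℤ²` which vanish off the finite set `Λ`. -/
def Field (Λ : Finset V) : Type := {ψ : V → ℤ // ∀ x, x ∉ Λ → ψ x = 0}

/-- The energy of an integer field. -/
def HH (α : ℝ) (ψ : V → ℤ) : ℝ := HE α (fun x => (ψ x : ℝ))

/-- The measure `P_β ∝ exp(-β H)` on the integer fields vanishing off `Λ`. -/
def gibbs (α β : ℝ) (Λ : Finset V) : Measure (V → ℤ) :=
  (∑' ψ : Field Λ, ENNReal.ofReal (Real.exp (-(β * HH α ψ.1))))⁻¹ •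
    Measure.sum (fun ψ : Field Λ =>
      ENNReal.ofReal (Real.exp (-(β * HH α ψ.1))) • Measure.dirac ψ.1)

/-- The observable `n^{-2} ∑_{x ∈ Λ_n} f(x/n) φ_x`, `Λ_n = (nD) ∩ ℤ²`. -/
def ob (D : Set P) (f : P → ℝ) (n : ℕ) (φ : V → ℝ) : ℝ :=
  ((n : ℝ) ^ 2)⁻¹ * ∑ x ∈ Lam D n, f (sc n x) * φ x

/-- The vector of the observables of `f_1, …, f_k`, for an integer field. -/
def obs {k : ℕ} (D : Set P) (f : Fin k → P → ℝ) (n : ℕ) (ψ : V → ℤ) : EuclideanSpace ℝ (Fin k) :=
  WithLp.toLp 2 (fun j => ob D (f j) n (fun x => (ψ x : ℝ)))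

/-- The covariance `⟨f, G_D g⟩` of `Φ_D(f)` and `Φ_D(g)`, by polarisation of `v_D`. -/
def covD (D : Set P) (f g : P → ℝ) : ℝ := (vD D (f + g) - vD D (f - g)) / 4

/-- The covariance matrix of `(Φ_D(f_j))_j`. -/
def covM {k : ℕ} (D : Set P) (f : Fin k → P → ℝ) : Matrix (Fin k) (Fin k) ℝ :=
  Matrix.of (fun i j => covD D (f i) (f j))

/-- The invariance principle of the problem file on the domain `D`, with the constant `σ`: joint
convergence in law of the observables of finitely many test functions to `σ Φ_D`. -/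
def InvPrinciple (α β σ : ℝ) (D : Set P) : Prop :=
  ∀ (k : ℕ) (f : Fin k → P → ℝ), (∀ j, Test D (f j)) →
    (covM D f).PosSemidef ∧
    ∀ g : BoundedContinuousFunction (EuclideanSpace ℝ (Fin k)) ℝ,
      Tendsto (fun n : ℕ => ∫ ψ, g (obs D f n ψ) ∂(gibbs α β (Lam D n))) atTop
        (𝓝 (∫ x, g x ∂(multivariateGaussian 0 (σ ^ 2 • covM D f))))

/-- Extension by zero of a real field on `Λ`. -/
def zext (Λ : Finset V) (φ : Λ → ℝ) : V → ℝ := fun x => if h : x ∈ Λ then φ ⟨x, h⟩ else 0

/-- The real-valued (Gaussian) field with the same energy converges on `D`, after the same scaling,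
to the multiple `c^{-1/2} Φ_D`, `c = β ∑_v |v|^{2-α}`: convergence of the Laplace transforms of the
(Gaussian) observables. -/
def RealConv (α β : ℝ) (D : Set P) : Prop :=
  ∀ f, Test D f →
    Tendsto (fun n : ℕ =>
        (∫ φ : (Lam D n) → ℝ, Real.exp (ob D f n (zext _ φ) - β * HE α (zext _ φ))) /
          ∫ φ : (Lam D n) → ℝ, Real.exp (-(β * HE α (zext _ φ)))) atTop
      (𝓝 (Real.exp (vD D f / (2 * (β * ∑' v : V, len v ^ (2 - α))))))

/-- The segment property: near every boundary point, the closure of `D` can be shifted into `D`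
in a fixed direction. Lipschitz domains, domains with continuous boundary and convex domains
have it. -/
def SegmentProperty (D : Set P) : Prop :=
  ∀ z ∈ frontier D, ∃ U : Set P, IsOpen U ∧ z ∈ U ∧ ∃ y : P,
    ∀ w ∈ closure D ∩ U, ∀ t : ℝ, 0 < t → t < 1 → w + t • y ∈ D

/-- A classical solution of `-Δu = f` in `D`, `u = 0` off `D` (in particular on the boundary). -/
structure ClassSol (D : Set P) (f u : P → ℝ) : Prop where
  cont : Continuous u
  zero : ∀ z, z ∉ D → u z = 0
  smooth : ContDiffOn ℝ ((⊤ : ℕ∞) : WithTop ℕ∞) u D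
  eqn : ∀ z ∈ D, - lapl u z = f z

/-- The main theorem: at high temperature the integer-valued field has the invariance principle,
with one constant `σ = σ(α, β) > 0`, on every bounded open set on which the real-valued field
converges. -/
def MainStatement : Prop :=
  ∀ α : ℝ, 4 < α → ∃ β₀ > 0, ∀ β : ℝ, 0 < β → β < β₀ →
    (∀ Λ : Finset V, IsProbabilityMeasure (gibbs α β Λ)) ∧
    ∃ σ > 0, ∀ D : Set P, IsOpen D → Bornology.IsBounded D → RealConv α β D →
      InvPrinciple α β σ D

/-- Complement on domains: the segment property implies stability, stability implies convergence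
of the real-valued field, `v_D(f) > 0` for `f ≠ 0`, and `v_D(f) = ∫ f u` for the classical solution
`u` of `-Δu = f`. -/
def DomainStatement : Prop :=
  ∀ D : Set P, IsOpen D → Bornology.IsBounded D →
    (SegmentProperty D → Stable D) ∧
    (Stable D → ∀ α β : ℝ, 4 < α → 0 < β → RealConv α β D) ∧
    (∀ f : P → ℝ, Test D f → f ≠ 0 → 0 < vD D f) ∧
    ∀ f u : P → ℝ, Test D f → ClassSol D f u → vD D f = ∫ z, f z * u z

/-- Complement: some condition on the domain is needed (a square with an irrational slit). -/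
def SlitStatement : Prop :=
  ∃ D : Set P, IsOpen D ∧ Bornology.IsBounded D ∧ IsConnected D ∧
    ∀ α : ℝ, 4 < α → ∃ β₀ > 0, ∀ β : ℝ, 0 < β → β < β₀ → ∀ σ > 0, ¬ InvPrinciple α β σ D

end Pool.Agent.LR
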