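import Pool.Agent.LR.B8.Calc
import Pool.Agent.LR.B8.Model

/-!
# Section 9: bounded open sets with the segment property are stable
-/

set_option autoImplicit false

noncomputable section

open scoped BigOperators Topology Manifold
open MeasureTheory Filter Set

namespace Pool.Agent.LR

lemma Test.c1c {U : Set P} {φ : P → ℝ} (h : Test U φ) : C1c φ :=
  ⟨h.smooth.of_le (by exact_mod_cast le_top), h.comp⟩

lemma Test.mono {U U' : Set P} {φ : P → ℝ} (h : Test U φ) (hU : U ⊆ U') : Test U' φ :=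
  ⟨h.smooth, h.comp, h.supp.trans hU⟩

lemma tsupport_add_subset (φ χ : P → ℝ) : tsupport (φ + χ) ⊆ tsupport φ ∪ tsupport χ := by
  refine closure_minimal (fun z hz => ?_) ((isClosed_tsupport _).union (isClosed_tsupport _))
  by_contra hne
  simp only [Set.mem_union, not_or] at hne
  apply hz
  simp [image_eq_zero_of_notMem_tsupport hne.1, image_eq_zero_of_notMem_tsupport hne.2]

lemma Test.add {U : Set P} {φ χ : P → ℝ} (h : Test U φ) (g : Test U χ) : Test U (φ + χ) :=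
  ⟨h.smooth.add g.smooth, h.comp.add g.comp,
    (tsupport_add_subset φ χ).trans (Set.union_subset h.supp g.supp)⟩

lemma Test.zero (U : Set P) : Test U 0 := ⟨contDiff_const, by simp [HasCompactSupport, tsupport],
  by simp [tsupport]⟩

lemma Test.smul {U : Set P} {φ : P → ℝ} (h : Test U φ) (s : ℝ) : Test U (s • φ) :=
  ⟨h.smooth.const_smul s, (h.c1c.smul s).cs, (closure_mono (by
    intro z hz; simp only [Function.mem_support, Pi.smul_apply, smul_eq_mul] at hz ⊢
    exact right_ne_zero_of_mul hz)).trans h.supp⟩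

lemma Test.neg {U : Set P} {φ : P → ℝ} (h : Test U φ) : Test U (-φ) := by
  have := h.smul (-1); simpa using this

lemma Test.sub {U : Set P} {φ χ : P → ℝ} (h : Test U φ) (g : Test U χ) : Test U (φ - χ) := by
  rw [sub_eq_add_neg]; exact h.add g.neg

lemma Test.sum {U : Set P} {ι : Type*} (s : Finset ι) {φ : ι → P → ℝ} (h : ∀ i ∈ s, Test U (φ i)) :
    Test U (∑ i ∈ s, φ i) := by
  classical
  induction s using Finset.induction_on with
  | empty => simpa using Test.zero U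
  | insert a s ha ih =>
    rw [Finset.sum_insert ha]
    exact (h a (by simp)).add (ih fun i hi => h i (by simp [hi]))

/-- The functional `2∫fφ - ∫|∇φ|²`. -/
def JF (f φ : P → ℝ) : ℝ := 2 * (∫ z, f z * φ z) - Dir φ

lemma int_tst {f φ : P → ℝ} (hf : C1c f) (h : C1c φ) : Integrable (fun z => f z * φ z) :=
  int_cc (hf.cont.mul h.cont) hf.cs.mul_right

/-- linear part bound -/
lemma lin_le {f φ : P → ℝ} (hf : C1c f) (h : C1c φ) {R : ℝ} (hR0 : 0 ≤ R)
    (hR : ∀ z, φ z ≠ 0 → |z.1| ≤ R) :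
    |∫ z, f z * φ z| ≤ √(∫ z, f z ^ 2) * (2 * R * √(Dir φ)) := by
  have h1 := cs_L2 hf.cont hf.cs h.cont h.cs
  have h2 := poincare h hR
  have h0 : 0 ≤ ∫ z, f z ^ 2 := integral_nonneg fun z => sq_nonneg _
  rw [← Real.sqrt_sq_eq_abs]
  have h3 : √((∫ z, f z * φ z) ^ 2) ≤ √((∫ z, f z ^ 2) * (4 * R ^ 2 * Dir φ)) :=
    Real.sqrt_le_sqrt (h1.trans (mul_le_mul_of_nonneg_left h2 h0))
  refine h3.trans (le_of_eq ?_)
  rw [Real.sqrt_mul h0]
  congr 1
  have : 4 * R ^ 2 * Dir φ = (2 * R) ^ 2 * Dir φ := by ring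
  rw [this, Real.sqrt_mul (by positivity), Real.sqrt_sq (by positivity)]

lemma JF_le {f φ : P → ℝ} (hf : C1c f) (h : C1c φ) {R : ℝ} (hR0 : 0 ≤ R)
    (hR : ∀ z, φ z ≠ 0 → |z.1| ≤ R) :
    JF f φ ≤ (2 * R * √(∫ z, f z ^ 2)) ^ 2 := by
  have h1 := lin_le hf h hR0 hR
  have h2 := (le_abs_self _).trans h1
  have h3 := Real.sq_sqrt (Dir_nonneg φ)
  unfold JF
  nlinarith [sq_nonneg (2 * R * √(∫ z, f z ^ 2) - √(Dir φ))]

lemma bdd_radius {U : Set P} (hU : Bornology.IsBounded U) : ∃ R : ℝ, 0 ≤ R ∧ ∀ z ∈ U, |z.1| ≤ R := by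
  obtain ⟨R, hR⟩ := (Metric.isBounded_iff_subset_closedBall (0 : P)).1 hU
  refine ⟨max R 0, le_max_right _ _, fun z hz => ?_⟩
  have := hR hz
  rw [mem_closedBall_zero_iff] at this
  exact (norm_fst_le z).trans (this.trans (le_max_left _ _))

lemma Test.radius {U : Set P} {φ : P → ℝ} (h : Test U φ) {R : ℝ} (hR : ∀ z ∈ U, |z.1| ≤ R) :
    ∀ z, φ z ≠ 0 → |z.1| ≤ R := fun z hz => hR z (h.supp (subset_tsupport _ hz))

lemma vD_bddAbove {U : Set P} (hU : Bornology.IsBounded U) {f : P → ℝ} (hf : C1c f) :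
    BddAbove {r : ℝ | ∃ φ, Test U φ ∧ r = 2 * (∫ z, f z * φ z) - Dir φ} := by
  obtain ⟨R, hR0, hR⟩ := bdd_radius hU
  refine ⟨(2 * R * √(∫ z, f z ^ 2)) ^ 2, ?_⟩
  rintro r ⟨φ, hφ, rfl⟩
  exact JF_le hf hφ.c1c hR0 (hφ.radius hR)

lemma JF_le_vD {U : Set P} (hU : Bornology.IsBounded U) {f φ : P → ℝ} (hf : C1c f) (h : Test U φ) :
    JF f φ ≤ vD U f := le_csSup (vD_bddAbove hU hf) ⟨φ, h, rfl⟩

lemma vD_nonneg {U : Set P} (hU : Bornology.IsBounded U) {f : P → ℝ} (hf : C1c f) : 0 ≤ vD U f := by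
  have h0 := JF_le_vD hU hf (Test.zero U)
  have h1 : JF f 0 = 0 := by
    have : Dir (0 : P → ℝ) = 0 := by
      have := Dir_smul (φ := (0 : P → ℝ)) C1c.zero 0
      simpa using this
    simp [JF, this]
  linarith

lemma exists_near {U : Set P} {f : P → ℝ} {r : ℝ} (h : r < vD U f) :
    ∃ φ, Test U φ ∧ r < JF f φ := by
  have hne : {r : ℝ | ∃ φ, Test U φ ∧ r = 2 * (∫ z, f z * φ z) - Dir φ}.Nonempty :=
    ⟨_, 0, Test.zero U, rfl⟩
  obtain ⟨_, ⟨φ, hφ, rfl⟩, hr⟩ := exists_lt_of_lt_csSup hne h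
  exact ⟨φ, hφ, hr⟩

lemma JF_parallelogram {f φ χ : P → ℝ} (hf : C1c f) (h : C1c φ) (g : C1c χ) :
    Dir (φ - χ) = 4 * JF f ((1 / 2 : ℝ) • (φ + χ)) - 2 * (JF f φ + JF f χ) := by
  have h1 : Dir ((1 / 2 : ℝ) • (φ + χ)) = (1 / 4) * Dir (φ + χ) := by
    rw [Dir_smul (h.add g)]; ring
  have h2 : ∫ z, f z * ((1 / 2 : ℝ) • (φ + χ)) z = 1 / 2 * ((∫ z, f z * φ z) + ∫ z, f z * χ z) := by
    rw [← integral_add (int_tst hf h) (int_tst hf g), ← integral_const_mul]
    refine integral_congr_ae (Eventually.of_forall fun z => ?_)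
    simp; ring
  have h3 := Dir_parallelogram h g
  unfold JF
  rw [h1, h2]
  linarith

/-- Compactness: the shifted neighbourhood stays inside `D`. -/
lemma shift_inside {D : Set P} (hD : IsOpen D) (hb : Bornology.IsBounded D) {T : Set P}
    (hT : IsClosed T) {y : P} (h : ∀ w ∈ closure D ∩ T, w + y ∈ D) :
    ∃ δ > 0, ∀ w ∈ Metric.cthickening δ D ∩ T, w + y ∈ D := by
  set C : Set P := (Metric.cthickening 1 D ∩ T) \ {w | w + y ∈ D} with hC
  have hO : IsOpen {w : P | w + y ∈ D} := hD.preimage (by fun_prop)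
  have hCc : IsClosed C := (Metric.isClosed_cthickening.inter hT).sdiff hO
  have hcl : IsCompact (closure D) := hb.isCompact_closure
  have hsub : closure D ⊆ Cᶜ := by
    intro w hw hwC
    exact hwC.2 (h w ⟨hw, hwC.1.2⟩)
  obtain ⟨δ, hδ, hδC⟩ := hcl.exists_cthickening_subset_open hCc.isOpen_compl hsub
  refine ⟨min δ 1, lt_min hδ one_pos, fun w hw => ?_⟩
  by_contra hn
  have h1 : w ∈ C := ⟨⟨Metric.cthickening_mono (min_le_right _ _) _ hw.1, hw.2⟩, hn⟩
  have h2 : w ∈ Metric.cthickening δ (closure D) :=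
    Metric.cthickening_subset_of_subset δ subset_closure
      (Metric.cthickening_mono (min_le_left _ _) _ hw.1)
  exact hδC h2 h1

lemma Test.trl_mem {U D : Set P} {ψ : P → ℝ} (h : Test U ψ) {y : P}
    (hs : ∀ w ∈ tsupport ψ, w + y ∈ D) : Test D (trl y ψ) := by
  refine ⟨h.smooth.comp (contDiff_id.sub contDiff_const), h.comp.comp_homeomorph (Homeomorph.subRight y), ?_⟩
  intro z hz
  have h1 : tsupport (trl y ψ) ⊆ (fun w => w - y) ⁻¹' tsupport ψ := by
    refine closure_minimal (fun w hw => subset_tsupport _ hw) ?_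
    exact (isClosed_tsupport ψ).preimage (by fun_prop)
  have := hs _ (h1 hz)
  simpa using this

/-- **Section 9.** Abstract version: finitely many open sets covering the closure of `D`, each with
a direction in which the closure of `D` is shifted into `D`. -/
theorem stable_of_cover {D : Set P} (hD : IsOpen D) (hb : Bornology.IsBounded D)
    {ι : Type} [Fintype ι] (U : ι → Set P) (hU : ∀ i, IsOpen (U i)) (hcov : closure D ⊆ ⋃ i, U i)
    (y : ι → P) (hy : ∀ i, ∀ w ∈ closure D ∩ U i, ∀ t : ℝ, 0 < t → t < 1 → w + t • y i ∈ D) :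
    Stable D := by
  classical
  -- the partition of unity
  have hcl : IsCompact (closure D) := hb.isCompact_closure
  obtain ⟨δ₁', hδ₁', hδU⟩ := hcl.exists_cthickening_subset_open (isOpen_iUnion hU) hcov
  set δ₁ := min δ₁' 1 with hδ₁d
  have hδ₁ : 0 < δ₁ := lt_min hδ₁' one_pos
  set K := Metric.cthickening δ₁ D with hKd
  have hKU : K ⊆ ⋃ i, U i := by
    refine (Set.Subset.trans ?_ hδU)
    exact (Metric.cthickening_subset_of_subset δ₁ subset_closure).trans
      (Metric.cthickening_mono (min_le_left _ _) _)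
  have hKc : IsClosed K := Metric.isClosed_cthickening
  have hKb : Bornology.IsBounded K := hb.cthickening
  have hKcomp : IsCompact K := Metric.isCompact_of_isClosed_isBounded hKc hKb
  obtain ⟨ρ, hρ⟩ := SmoothPartitionOfUnity.exists_isSubordinate 𝓘(ℝ, P) hKc U hU hKU
  have hρs : ∀ i, ContDiff ℝ ((⊤ : ℕ∞) : WithTop ℕ∞) (ρ i) := fun i => (ρ i).contMDiff.contDiff
  have hρ1 : ∀ z ∈ K, ∑ i, ρ i z = 1 := by
    intro z hz
    rw [← finsum_eq_sum_of_fintype]
    exact ρ.sum_eq_one hz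
  obtain ⟨R, hR0, hR⟩ := bdd_radius hKb
  intro f hf ε hε
  have hfc := hf.c1c
  -- uniform constant for the cutoffs
  obtain ⟨C, hC0, hC⟩ : ∃ C : ℝ, 0 ≤ C ∧ ∀ i, ∀ φ, Test K φ → Dir (ρ i * φ) ≤ C * Dir φ := by
    have h1 : ∀ i, ∃ B : ℝ, 0 ≤ B ∧ ∀ z ∈ K, |ρ i z| ≤ B ∧ |dx (ρ i) z| ≤ B ∧ |dy (ρ i) z| ≤ B := by
      intro i
      have c0 : Continuous (ρ i) := (hρs i).continuous
      have c' : Continuous (fderiv ℝ (ρ i)) := (hρs i).continuous_fderiv (by simp)
      have c1 : Continuous (dx (ρ i)) := c'.clm_apply continuous_const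
      have c2 : Continuous (dy (ρ i)) := c'.clm_apply continuous_const
      obtain ⟨B0, hB0⟩ := hKcomp.exists_bound_of_continuousOn c0.continuousOn
      obtain ⟨B1, hB1⟩ := hKcomp.exists_bound_of_continuousOn c1.continuousOn
      obtain ⟨B2, hB2⟩ := hKcomp.exists_bound_of_continuousOn c2.continuousOn
      refine ⟨max 0 (max B0 (max B1 B2)), le_max_left _ _, fun z hz => ⟨?_, ?_, ?_⟩⟩
      · exact (hB0 z hz).trans ((le_max_left _ _).trans (le_max_right _ _))
      · exact (hB1 z hz).trans (((le_max_left _ _).trans (le_max_right _ _)).trans (le_max_right _ _))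
      · exact (hB2 z hz).trans (((le_max_right _ _).trans (le_max_right _ _)).trans (le_max_right _ _))
    choose B hB0 hB using h1
    have h2 : ∀ i, ∀ φ, Test K φ → Dir (ρ i * φ) ≤ (2 * B i ^ 2 + 16 * B i ^ 2 * R ^ 2) * Dir φ := by
      intro i φ hφ
      have h3 := Dir_mul_le hφ.c1c ((hρs i).of_le (by exact_mod_cast le_top)) (K := K)
        (fun z hz => by
          have hz1 : z ∉ tsupport φ := fun h => hz (hφ.supp h)
          have hz2 : fderiv ℝ φ z = 0 := by
            by_contra h4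
            exact hz1 (support_fderiv_subset ℝ h4)
          exact ⟨image_eq_zero_of_notMem_tsupport hz1, by unfold dx; rw [hz2]; rfl,
            by unfold dy; rw [hz2]; rfl⟩)
        (fun z hz => (hB i z hz).1) (fun z hz => (hB i z hz).2.1) (fun z hz => (hB i z hz).2.2)
      have h4 := poincare hφ.c1c (hφ.radius hR)
      have h5 := mul_le_mul_of_nonneg_left h4 (show 0 ≤ 4 * B i ^ 2 by positivity)
      calc Dir (ρ i * φ) ≤ 2 * B i ^ 2 * Dir φ + 4 * B i ^ 2 * ∫ z, φ z ^ 2 := h3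
        _ ≤ 2 * B i ^ 2 * Dir φ + 4 * B i ^ 2 * (4 * R ^ 2 * Dir φ) := by linarith
        _ = _ := by ring
    refine ⟨∑ i, (2 * B i ^ 2 + 16 * B i ^ 2 * R ^ 2), Finset.sum_nonneg fun i _ => by positivity,
      fun i φ hφ => (h2 i φ hφ).trans (mul_le_mul_of_nonneg_right ?_ (Dir_nonneg φ))⟩
    exact Finset.single_le_sum (f := fun i => 2 * B i ^ 2 + 16 * B i ^ 2 * R ^ 2)
      (fun j _ => by positivity) (Finset.mem_univ i)
  -- thickenings
  have hthK : ∀ δ, δ ≤ δ₁ → Metric.thickening δ D ⊆ K := fun δ hδ =>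
    (Metric.thickening_subset_cthickening _ _).trans (Metric.cthickening_mono hδ _)
  have hbth : ∀ δ, Bornology.IsBounded (Metric.thickening δ D) := fun δ => hb.thickening
  -- the infimum of the values
  set Vs : Set ℝ := (fun δ => vD (Metric.thickening δ D) f) '' Set.Ioi 0 with hVs
  have hVbdd : BddBelow Vs := ⟨0, by
    rintro _ ⟨δ, _, rfl⟩
    exact vD_nonneg (hbth δ) hfc⟩
  have hVne : Vs.Nonempty := ⟨_, 1, by simp, rfl⟩
  set Vst := sInf Vs with hVst
  have hVle : ∀ δ > 0, Vst ≤ vD (Metric.thickening δ D) f := fun δ hδ =>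
    csInf_le hVbdd ⟨δ, hδ, rfl⟩
  have hV0 : 0 ≤ Vst := by
    refine le_csInf hVne ?_
    rintro _ ⟨δ, _, rfl⟩
    exact vD_nonneg (hbth δ) hfc
  -- main claim
  suffices hmain : Vst ≤ vD D f by
    obtain ⟨_, ⟨δ, hδ, rfl⟩, hlt⟩ := exists_lt_of_csInf_lt hVne (show Vst < Vst + ε by linarith)
    refine ⟨δ, hδ, fun φ hφ => ?_⟩
    have h1 := JF_le_vD (hbth δ) hfc hφ
    have h2 : JF f φ = 2 * (∫ z, f z * φ z) - Dir φ := rfl
    simp only at hlt
    linarith
  -- constants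
  set G := √(∫ z, f z ^ 2) with hG
  have hG0 : 0 ≤ G := Real.sqrt_nonneg _
  set N : ℝ := (Fintype.card ι : ℝ) with hN
  have hN0 : 0 ≤ N := Nat.cast_nonneg _
  let e : ℝ → ℝ := fun η => N * (2 * √(C * (8 * η)) + √η)
  let Er : ℝ → ℝ := fun η => η + 4 * R * G * e η + 2 * e η * (4 * R * G + √η) + (e η) ^ 2
  have hEc : Continuous Er := by
    simp only [Er, e]
    fun_prop
  have hE0 : Er 0 = 0 := by simp [Er, e]
  refine le_of_forall_pos_le_add fun ε' hε' => ?_
  obtain ⟨η, hη, hEη⟩ : ∃ η > 0, Er η < ε' := by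
    have : ∀ᶠ η in 𝓝[>] (0 : ℝ), Er η < ε' := by
      have h1 : Tendsto Er (𝓝 0) (𝓝 0) := by
        have := hEc.tendsto 0
        rwa [hE0] at this
      exact (h1.eventually (gt_mem_nhds hε')).filter_mono nhdsWithin_le_nhds
    obtain ⟨η, h1, h2⟩ := (this.and self_mem_nhdsWithin).exists
    exact ⟨η, h2, h1⟩
  -- δ₀ and m
  obtain ⟨_, ⟨δ₀', hδ₀', rfl⟩, hlt⟩ := exists_lt_of_csInf_lt hVne (show Vst < Vst + η by linarith)
  set δ₀ := min δ₀' δ₁ with hδ₀d
  have hδ₀ : 0 < δ₀ := lt_min hδ₀' hδ₁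
  have hVδ₀ : vD (Metric.thickening δ₀ D) f ≤ Vst + η := by
    refine le_trans ?_ hlt.le
    refine csSup_le ⟨_, 0, Test.zero _, rfl⟩ ?_
    rintro _ ⟨φ, hφ, rfl⟩
    exact JF_le_vD (hbth _) hfc (hφ.mono (Metric.thickening_mono (min_le_left _ _) _))
  obtain ⟨m, hm, hJm⟩ := exists_near (show Vst - η < vD (Metric.thickening δ₀ D) f by
    have := hVle δ₀ hδ₀; linarith)
  -- the shifts
  have hmK : Test K m := hm.mono (hthK _ (min_le_right _ _))
  have hshift : ∀ i, ∃ t : ℝ, 0 < t ∧ t < 1 ∧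
      Dir (trl (t • y i) (ρ i * m) - ρ i * m) < η := by
    intro i
    have h1 := tendsto_Dir_trl (hmK.c1c.mul ((hρs i).of_le (by exact_mod_cast le_top))) (y i)
    have h2 : ∀ᶠ t in 𝓝[>] (0 : ℝ), Dir (trl (t • y i) (ρ i * m) - ρ i * m) < η :=
      (h1.eventually (gt_mem_nhds hη)).filter_mono nhdsWithin_le_nhds
    have h3 : ∀ᶠ t in 𝓝[>] (0 : ℝ), t < 1 :=
      (gt_mem_nhds (show (0 : ℝ) < 1 by norm_num)).filter_mono nhdsWithin_le_nhds
    obtain ⟨t, h4, h5, h6⟩ := (h2.and (h3.and self_mem_nhdsWithin)).exists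
    exact ⟨t, h6, h5, h4⟩
  choose t ht0 ht1 htη using hshift
  have hδi : ∀ i, ∃ δ > 0, ∀ w ∈ Metric.cthickening δ D ∩ tsupport (ρ i), w + t i • y i ∈ D := by
    intro i
    refine shift_inside hD hb (isClosed_tsupport _) fun w hw => ?_
    exact hy i w ⟨hw.1, hρ i hw.2⟩ (t i) (ht0 i) (ht1 i)
  choose δi hδi0 hδi using hδi
  obtain ⟨δ, hδ0, hδδ₀, hδδi⟩ : ∃ δ > 0, δ ≤ δ₀ ∧ ∀ i, δ ≤ δi i := by
    rcases isEmpty_or_nonempty ι with hι | hι
    · exact ⟨δ₀, hδ₀, le_rfl, fun i => isEmptyElim i⟩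
    · refine ⟨min δ₀ (Finset.univ.inf' Finset.univ_nonempty δi), lt_min hδ₀ ?_, min_le_left _ _,
        fun i => (min_le_right _ _).trans (Finset.inf'_le _ (Finset.mem_univ i))⟩
      rw [Finset.lt_inf'_iff]
      exact fun i _ => hδi0 i
  obtain ⟨φ, hφ, hJφ⟩ := exists_near (show Vst - η < vD (Metric.thickening δ D) f by
    have := hVle δ hδ0; linarith)
  have hφ0 : Test (Metric.thickening δ₀ D) φ := hφ.mono (Metric.thickening_mono hδδ₀ _)
  have hφK : Test K φ := hφ0.mono (hthK _ (min_le_right _ _))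
  -- φ is close to m
  have hclose : Dir (φ - m) ≤ 8 * η := by
    have h1 := JF_parallelogram hfc hφ.c1c hm.c1c
    have h2 : JF f ((1 / 2 : ℝ) • (φ + m)) ≤ Vst + η :=
      (JF_le_vD (hbth _) hfc ((hφ0.add hm).smul _)).trans hVδ₀
    linarith
  -- the shifted function
  have hρφ : ∀ i, Test K (ρ i * φ) := fun i => ⟨(hρs i).mul hφK.smooth, hφK.comp.mul_left,
    (tsupport_mul_subset_right).trans hφK.supp⟩
  set φ' : P → ℝ := ∑ i, trl (t i • y i) (ρ i * φ) with hφ'
  have hφ'D : Test D φ' := by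
    refine Test.sum _ fun i _ => (hρφ i).trl_mem fun w hw => hδi i w ⟨?_, ?_⟩
    · have h1 : w ∈ tsupport φ := tsupport_mul_subset_right hw
      exact Metric.cthickening_mono (hδδi i) _ (Metric.thickening_subset_cthickening _ _ (hφ.supp h1))
    · exact tsupport_mul_subset_left hw
  have hsum : φ = ∑ i, ρ i * φ := by
    ext z
    simp only [Finset.sum_apply, Pi.mul_apply]
    rw [← Finset.sum_mul]
    by_cases hz : z ∈ K
    · rw [hρ1 z hz, one_mul]
    · have : φ z = 0 := image_eq_zero_of_notMem_tsupport fun h => hz (hφK.supp h)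
      rw [this, mul_zero]
  have hc1 : ∀ i, C1c (ρ i * φ) := fun i => (hρφ i).c1c
  have hcm : ∀ i, C1c (ρ i * m) := fun i => hmK.c1c.mul ((hρs i).of_le (by exact_mod_cast le_top))
  have hcd : ∀ i, C1c (ρ i * (φ - m)) := fun i =>
    (hφK.sub hmK).c1c.mul ((hρs i).of_le (by exact_mod_cast le_top))
  have hterm : ∀ i, √(Dir (trl (t i • y i) (ρ i * φ) - ρ i * φ)) ≤ 2 * √(C * (8 * η)) + √η := by
    intro i
    have e1 : trl (t i • y i) (ρ i * φ) - ρ i * φ =
        (trl (t i • y i) (ρ i * (φ - m)) - ρ i * (φ - m)) + (trl (t i • y i) (ρ i * m) - ρ i * m) := by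
      ext z; simp [trl]; ring
    have e2 : Dir (ρ i * (φ - m)) ≤ C * (8 * η) :=
      (hC i _ (hφK.sub hmK)).trans (mul_le_mul_of_nonneg_left hclose hC0)
    rw [e1]
    refine (sqrt_Dir_add (((hcd i).trl _).sub (hcd i)) (((hcm i).trl _).sub (hcm i))).trans ?_
    refine add_le_add ?_ (Real.sqrt_le_sqrt (htη i).le)
    refine (sqrt_Dir_sub ((hcd i).trl _) (hcd i)).trans ?_
    rw [Dir_trl]
    have := Real.sqrt_le_sqrt e2
    linarith
  have hdiff : φ' - φ = ∑ i, (trl (t i • y i) (ρ i * φ) - ρ i * φ) := by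
    rw [Finset.sum_sub_distrib, ← hsum]
  have hsq : ∀ s : Finset ι, √(Dir (∑ i ∈ s, (trl (t i • y i) (ρ i * φ) - ρ i * φ))) ≤
      s.card * (2 * √(C * (8 * η)) + √η) ∧
      C1c (∑ i ∈ s, (trl (t i • y i) (ρ i * φ) - ρ i * φ)) := by
    intro s
    induction s using Finset.induction_on with
    | empty =>
      have h0 : Dir (0 : P → ℝ) = 0 := by
        have := Dir_smul (φ := (0 : P → ℝ)) C1c.zero 0
        simpa using this
      simp only [Finset.sum_empty, Finset.card_empty]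
      refine ⟨by rw [h0]; simp, C1c.zero⟩
    | insert a s ha ih =>
      rw [Finset.sum_insert ha, Finset.card_insert_of_notMem ha]
      have ca : C1c (trl (t a • y a) (ρ a * φ) - ρ a * φ) := ((hc1 a).trl _).sub (hc1 a)
      refine ⟨(sqrt_Dir_add ca ih.2).trans ?_, ca.add ih.2⟩
      have := hterm a
      have := ih.1
      push_cast
      linarith
  have hE : √(Dir (φ' - φ)) ≤ e η := by
    rw [hdiff]; exact (hsq Finset.univ).1
  -- conclusion
  have hc' : C1c (φ' - φ) := hφ'D.c1c.sub hφ.c1c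
  have hRφ : ∀ z, φ z ≠ 0 → |z.1| ≤ R := hφK.radius hR
  have hDK : D ⊆ K := (Metric.self_subset_thickening hδ₁ D).trans (hthK _ le_rfl)
  have hRφ' : ∀ z, (φ' - φ) z ≠ 0 → |z.1| ≤ R := ((hφ'D.mono hDK).sub hφK).radius hR
  have h1 := lin_le hfc hφ.c1c hR0 hRφ
  have h2 := lin_le hfc hc' hR0 hRφ'
  have h3 := Real.sq_sqrt (Dir_nonneg φ)
  have h4 := Real.sq_sqrt (Dir_nonneg φ')
  have h5 := Real.sq_sqrt hη.le
  have hs0 := Real.sqrt_nonneg (Dir φ)
  have he0 : 0 ≤ e η := by simp only [e]; positivity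
  have hη0 := Real.sqrt_nonneg η
  -- bound on √Dir φ
  have h6 : √(Dir φ) ≤ 4 * R * G + √η := by
    have h7 : Dir φ ≤ 4 * R * G * √(Dir φ) + η := by
      have := (le_abs_self _).trans h1
      unfold JF at hJφ
      nlinarith
    by_contra hcon
    rw [not_le] at hcon
    have hRG : 0 ≤ 4 * R * G := by positivity
    nlinarith
  have h7 : √(Dir φ') ≤ √(Dir φ) + e η := by
    have : φ' = φ + (φ' - φ) := by ring
    rw [this]
    exact (sqrt_Dir_add hφ.c1c hc').trans (by linarith)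
  have h8 : ∫ z, f z * φ' z = (∫ z, f z * φ z) + ∫ z, f z * (φ' - φ) z := by
    rw [← integral_add (int_tst hfc hφ.c1c) (int_tst hfc hc')]
    refine integral_congr_ae (Eventually.of_forall fun z => ?_)
    simp; ring
  have h9 := (neg_abs_le _).trans' (neg_le_neg h2)
  have h10 := JF_le_vD hb hfc hφ'D
  have h11 : Dir φ' ≤ (√(Dir φ) + e η) ^ 2 := by
    rw [← h4]
    exact pow_le_pow_left₀ (Real.sqrt_nonneg _) h7 2
  have h12 : G * (2 * R * √(Dir (φ' - φ))) ≤ G * (2 * R * e η) := by gcongr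
  have h13 : e η * √(Dir φ) ≤ e η * (4 * R * G + √η) := mul_le_mul_of_nonneg_left h6 he0
  have hEη' : η + 4 * R * G * e η + 2 * e η * (4 * R * G + √η) + (e η) ^ 2 < ε' := hEη
  unfold JF at h10 hJφ
  nlinarith

/-- **Section 9.** -/
theorem stable_of_segment {D : Set P} (hD : IsOpen D) (hb : Bornology.IsBounded D)
    (h : SegmentProperty D) : Stable D := by
  classical
  have hfr : IsCompact (frontier D) := by
    refine Metric.isCompact_of_isClosed_isBounded isClosed_frontier ?_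
    exact hb.closure.subset frontier_subset_closure
  choose! U hUo hzU y hy using h
  obtain ⟨s, hs, hcov⟩ := hfr.elim_nhds_subcover U (fun z hz => (hUo z hz).mem_nhds (hzU z hz))
  let W : Option s → Set P := fun o => match o with
    | none => D
    | some z => U z.1
  let v : Option s → P := fun o => match o with
    | none => 0
    | some z => y z.1
  refine stable_of_cover hD hb W ?_ ?_ v ?_
  · rintro (_ | z)
    · exact hD
    · exact hUo _ (hs _ z.2)
  · intro w hw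
    by_cases hwD : w ∈ D
    · exact Set.mem_iUnion.2 ⟨none, hwD⟩
    · have : w ∈ frontier D := by rw [hD.frontier_eq]; exact ⟨hw, hwD⟩
      obtain ⟨z, hz, hwz⟩ := Set.mem_iUnion₂.1 (hcov this)
      exact Set.mem_iUnion.2 ⟨some ⟨z, hz⟩, hwz⟩
  · rintro (_ | z) w hw t ht0 ht1
    · simpa [v] using hw.2
    · exact hy _ (hs _ z.2) w hw t ht0 ht1

end Pool.Agent.LR
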