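import Pool.Agent.LR.B8.Model
import Pool.Agent.LR.B8.Seg

/-!
# LR-F-GREEN: `v_D(f) = ∫ f u` for the classical solution `u` of `-Δu = f` in `D`, `u = 0` off `D`

PLAN (Pool.Agent.LR, file B8/Green.lean).
(1) `exists_cut`: put `g t = Real.smoothTransition ((t^2 - ε^2) / ε^2)`: smooth, in `[0,1]`, `= 0` for
`|t| ≤ ε`, `= 1` for `t^2 ≥ 2 ε^2`; `h t = ∫ s in (0:ℝ)..t, g s`, `deriv h = g` (FTC), so `h` is smooth
(`contDiff_infty_iff_deriv`), and `t - h t = ∫ (1 - g)`, integrand in `[0,1]` and `0` off `[-2ε, 2ε]`.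
(2) `test_cut`: `h ∘ (u - φ)` is a test function: at points of `D`, `u - φ` is smooth; at points off `D`,
`u - φ = 0` there and `u - φ` is continuous, so `|u - φ| < ε` and `h ∘ (u - φ) = 0` in a neighbourhood.
Support in `{ε ≤ |u - φ|}`, which is closed, contained in `D`, hence (D bounded) compact.
(3) `weak_form`: integration by parts, `∫ u' * φ' = - ∫ φ * u''` for each coordinate:
`integral_mul_fderiv_eq_neg_fderiv_mul_of_integrable` needs differentiability of each factor only on the
`tsupport` of the other factor. With `tsupport φ` compact in the open `D` where `u` is smooth; products with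
`φ` (or its derivatives) are continuous with compact support (continuous at points of `D` because `u` is
smooth there, and locally `0` off `tsupport φ`).
`weak_u`: the same with `∫ ∇u ∇φ = - ∫ u Δφ`.
(4) lower bound: `φ_ε = h ∘ u`: `∫ f φ_ε = ∫ h'(u) |∇u|² ≥ ∫ h'(u)² |∇u|² = Dir φ_ε`; so
`JF f φ_ε ≥ ∫ f φ_ε ≥ ∫ f u - 2 ε ∫ |f|`; use `JF_le_vD`.
(5) upper bound: for `φ` a test function put `ψ = h ∘ (u - φ)`. `∫ f ψ = ∫ ∇u ∇ψ =
∫ h'(u-φ) |∇(u-φ)|² + DB φ ψ ≥ DB φ ψ = - ∫ ψ Δφ`, and as `ε → 0` (`|ψ - (u - φ)| ≤ 2 ε`):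
`∫ f (u - φ) ≥ - ∫ (u - φ) Δφ = ∫ f φ - Dir φ`. Hence `JF f φ ≤ ∫ f u`. (No statement on `∇u` on `{u = 0}`.)
Keep the three statements below; more lemmas and splitting are welcome.
-/

set_option autoImplicit false

noncomputable section

open scoped BigOperators Topology Manifold
open MeasureTheory Filter Set

namespace Pool.Agent.LR

private lemma cut_gcont {ε : ℝ} :
    Continuous (fun t : ℝ => Real.smoothTransition ((t ^ 2 - ε ^ 2) / ε ^ 2)) :=
  Real.smoothTransition.continuous.comp (by fun_prop)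

/-- a smooth cut-off of small values -/
theorem exists_cut {ε : ℝ} (hε : 0 < ε) : ∃ h : ℝ → ℝ,
    ContDiff ℝ ((⊤ : ℕ∞) : WithTop ℕ∞) h ∧ (∀ t, |t| ≤ ε → h t = 0) ∧
    (∀ t, 0 ≤ deriv h t ∧ deriv h t ≤ 1) ∧ ∀ t, |h t - t| ≤ 2 * ε := by
  set g : ℝ → ℝ := fun t => Real.smoothTransition ((t ^ 2 - ε ^ 2) / ε ^ 2) with hg
  have gc : Continuous g := cut_gcont
  have gs : ContDiff ℝ ((⊤ : ℕ∞) : WithTop ℕ∞) g := by
    refine Real.smoothTransition.contDiff.comp ?_
    fun_prop
  have g0 : ∀ t, |t| ≤ ε → g t = 0 := by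
    intro t ht
    refine Real.smoothTransition.zero_of_nonpos ?_
    have h1 : t ^ 2 ≤ ε ^ 2 := sq_le_sq' (abs_le.1 ht).1 (abs_le.1 ht).2
    exact div_nonpos_of_nonpos_of_nonneg (by linarith) (by positivity)
  have g1 : ∀ t, 2 * ε ≤ |t| → g t = 1 := by
    intro t ht
    refine Real.smoothTransition.one_of_one_le ?_
    have h1 : (2 * ε) ^ 2 ≤ t ^ 2 := by
      rw [← sq_abs t]; exact pow_le_pow_left₀ (by positivity) ht 2
    rw [le_div_iff₀ (by positivity)]
    nlinarith
  have hd : deriv (fun t => ∫ s in (0 : ℝ)..t, g s) = g := by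
    ext t
    exact gc.deriv_integral g 0 t
  have hdiff : Differentiable ℝ (fun t => ∫ s in (0 : ℝ)..t, g s) := fun t =>
    (intervalIntegral.integral_hasDerivAt_right (gc.intervalIntegrable _ _)
      (gc.stronglyMeasurableAtFilter _ _) gc.continuousAt).differentiableAt
  refine ⟨fun t => ∫ s in (0 : ℝ)..t, g s, ?_, ?_, ?_, ?_⟩
  · rw [contDiff_infty_iff_deriv, hd]
    exact ⟨hdiff, gs⟩
  · intro t ht
    have : ∀ s ∈ Set.uIcc (0 : ℝ) t, g s = 0 := by
      intro s hs
      refine g0 s (le_trans ?_ ht)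
      have h1 := Set.abs_sub_left_of_mem_uIcc hs
      simpa using h1
    simp only
    rw [intervalIntegral.integral_congr (g := fun _ => (0 : ℝ)) this]
    simp
  · intro t
    rw [hd]
    exact ⟨Real.smoothTransition.nonneg _, Real.smoothTransition.le_one _⟩
  · intro t
    have hb : ∀ s, |g s - 1| ≤ 1 := by
      intro s
      have h1 : 0 ≤ g s := Real.smoothTransition.nonneg _
      have h2 : g s ≤ 1 := Real.smoothTransition.le_one _
      rw [abs_le]; constructor <;> linarith
    have e1 : ∀ a b : ℝ, (∫ s in a..b, g s) - (b - a) = ∫ s in a..b, (g s - 1) := by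
      intro a b
      rw [intervalIntegral.integral_sub (gc.intervalIntegrable _ _) (by simp)]
      simp
    have hs : ∀ b : ℝ, |b| ≤ 2 * ε → |∫ s in (0 : ℝ)..b, (g s - 1)| ≤ 2 * ε := by
      intro b hb'
      have h1 := intervalIntegral.norm_integral_le_of_norm_le_const (a := 0) (b := b)
        (f := fun s => g s - 1) (C := 1) (fun s _ => by rw [Real.norm_eq_abs]; exact hb s)
      rw [Real.norm_eq_abs] at h1
      simpa using h1.trans (by simpa using hb')
    have e2 := e1 0 t
    simp only [sub_zero] at e2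
    simp only
    rw [e2]
    by_cases ht : |t| ≤ 2 * ε
    · exact hs t ht
    · push Not at ht
      have key : ∀ c : ℝ, |c| ≤ 2 * ε → (∀ s ∈ Set.uIcc c t, 2 * ε ≤ |s|) →
          |∫ s in (0 : ℝ)..t, (g s - 1)| ≤ 2 * ε := by
        intro c hc hct
        have c1 : Continuous (fun s => g s - 1) := gc.sub continuous_const
        rw [← intervalIntegral.integral_add_adjacent_intervals (c1.intervalIntegrable 0 c)
          (c1.intervalIntegrable c t)]
        have z : ∫ s in c..t, (g s - 1) = 0 := by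
          rw [intervalIntegral.integral_congr (g := fun _ => (0 : ℝ))
            (fun s hs' => by simp only [g1 s (hct s hs'), sub_self])]
          simp
        rw [z, add_zero]
        exact hs c hc
      rcases le_or_gt 0 t with h0 | h0
      · rw [abs_of_nonneg h0] at ht
        refine key (2 * ε) (by rw [abs_of_pos (by positivity)]) ?_
        intro s hs'
        rw [Set.uIcc_of_le ht.le] at hs'
        exact hs'.1.trans (le_abs_self s)
      · rw [abs_of_neg h0] at ht
        refine key (-(2 * ε)) (by rw [abs_neg, abs_of_pos (by positivity)]) ?_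
        intro s hs'
        rw [Set.uIcc_of_ge (by linarith)] at hs'
        have := hs'.2
        rw [le_abs]; right; linarith

private lemma test_zero_off {D : Set P} {φ : P → ℝ} (hφ : Test D φ) {z : P} (hz : z ∉ D) :
    φ z = 0 := image_eq_zero_of_notMem_tsupport (fun h => hz (hφ.supp h))

theorem test_cut {D : Set P} (hD : IsOpen D) (hb : Bornology.IsBounded D) {f u φ : P → ℝ}
    (hu : ClassSol D f u) (hφ : Test D φ) {ε : ℝ} (hε : 0 < ε) {h : ℝ → ℝ}
    (hs : ContDiff ℝ ((⊤ : ℕ∞) : WithTop ℕ∞) h) (h0 : ∀ t, |t| ≤ ε → h t = 0) :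
    Test D (fun z => h (u z - φ z)) := by
  have hc : Continuous (fun z => u z - φ z) := hu.cont.sub hφ.smooth.continuous
  have hoff : ∀ z, z ∉ D → u z - φ z = 0 := by
    intro z hz
    rw [hu.zero z hz, test_zero_off hφ hz, sub_zero]
  have hcl : IsClosed {z : P | ε ≤ |u z - φ z|} := isClosed_le continuous_const hc.abs
  have hsub : tsupport (fun z => h (u z - φ z)) ⊆ {z : P | ε ≤ |u z - φ z|} := by
    refine closure_minimal (fun z hz => ?_) hcl
    by_contra hne
    simp only [Set.mem_ofPred_eq, not_le] at hne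
    exact hz (h0 _ hne.le)
  have hsD : {z : P | ε ≤ |u z - φ z|} ⊆ D := by
    intro z hz
    by_contra hne
    simp only [Set.mem_ofPred_eq, hoff z hne, abs_zero] at hz
    linarith
  refine ⟨?_, ?_, hsub.trans hsD⟩
  · rw [contDiff_iff_contDiffAt]
    intro z
    by_cases hz : z ∈ D
    · have h1 : ContDiffAt ℝ ((⊤ : ℕ∞) : WithTop ℕ∞) u z := hu.smooth.contDiffAt (hD.mem_nhds hz)
      have h2 : ContDiffAt ℝ ((⊤ : ℕ∞) : WithTop ℕ∞) (fun z => u z - φ z) z :=
        h1.sub hφ.smooth.contDiffAt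
      exact hs.contDiffAt.comp z h2
    · have h1 : (fun z => h (u z - φ z)) =ᶠ[𝓝 z] fun _ => (0 : ℝ) := by
        have : ∀ᶠ w in 𝓝 z, |u w - φ w| < ε := by
          refine hc.abs.continuousAt.eventually_lt continuousAt_const ?_
          simp only [hoff z hz, abs_zero]
          exact hε
        filter_upwards [this] with w hw
        exact h0 _ hw.le
      exact contDiffAt_const.congr_of_eventuallyEq h1
  · exact HasCompactSupport.of_support_subset_isCompact
      (Metric.isCompact_of_isClosed_isBounded hcl (hb.subset hsD))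
      ((subset_tsupport _).trans hsub)

private lemma exists_ext {D : Set P} (hD : IsOpen D) {f u φ : P → ℝ} (hu : ClassSol D f u)
    (hφ : Test D φ) : ∃ v : P → ℝ, Test D v ∧ ∀ z ∈ tsupport φ, v =ᶠ[𝓝 z] u := by
  obtain ⟨K, hK, h1, h2⟩ := exists_compact_between hφ.comp.isCompact hD hφ.supp
  obtain ⟨χ, hχ0, hχ1, -⟩ := exists_contMDiffMap_zero_one_nhds_of_isClosed (n := (⊤ : ℕ∞))
    𝓘(ℝ, P) (isOpen_interior (s := K)).isClosed_compl (isClosed_tsupport φ)
    (by rwa [← subset_compl_iff_disjoint_left, compl_compl])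
  have hχs : ContDiff ℝ ((⊤ : ℕ∞) : WithTop ℕ∞) χ := χ.contMDiff.contDiff
  have hts : tsupport (fun z => χ z * u z) ⊆ K := by
    refine closure_minimal (fun z hz => ?_) hK.isClosed
    by_contra hne
    apply hz
    have : χ z = 0 := hχ0.self_of_nhdsSet z (fun h => hne (interior_subset h))
    simp [this]
  refine ⟨fun z => χ z * u z, ⟨?_, ?_, hts.trans h2⟩, ?_⟩
  · rw [contDiff_iff_contDiffAt]
    intro z
    by_cases hz : z ∈ D
    · exact hχs.contDiffAt.mul (hu.smooth.contDiffAt (hD.mem_nhds hz))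
    · have h3 : z ∈ (interior K)ᶜ := fun h => hz (h2 (interior_subset h))
      have h4 : ∀ᶠ w in 𝓝 z, χ w = 0 := by
        rw [eventually_nhdsSet_iff_forall] at hχ0
        exact hχ0 z h3
      have h5 : (fun z => χ z * u z) =ᶠ[𝓝 z] fun _ => (0 : ℝ) := by
        filter_upwards [h4] with w hw
        rw [hw, zero_mul]
      exact contDiffAt_const.congr_of_eventuallyEq h5
  · exact HasCompactSupport.of_support_subset_isCompact hK ((subset_tsupport _).trans hts)
  · intro z hz
    rw [eventually_nhdsSet_iff_forall] at hχ1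
    filter_upwards [hχ1 z hz] with w hw
    rw [hw, one_mul]

private lemma dx_congr {u v : P → ℝ} {z : P} (h : v =ᶠ[𝓝 z] u) : dx v z = dx u z := by
  unfold dx; rw [h.fderiv_eq]

private lemma dy_congr {u v : P → ℝ} {z : P} (h : v =ᶠ[𝓝 z] u) : dy v z = dy u z := by
  unfold dy; rw [h.fderiv_eq]

private lemma lapl_congr {u v : P → ℝ} {z : P} (h : v =ᶠ[𝓝 z] u) : lapl v z = lapl u z := by
  have h1 : (fun w => fderiv ℝ v w (1, 0)) =ᶠ[𝓝 z] fun w => fderiv ℝ u w (1, 0) := by
    filter_upwards [h.fderiv (𝕜 := ℝ)] with w hw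
    rw [hw]
  have h2 : (fun w => fderiv ℝ v w (0, 1)) =ᶠ[𝓝 z] fun w => fderiv ℝ u w (0, 1) := by
    filter_upwards [h.fderiv (𝕜 := ℝ)] with w hw
    rw [hw]
  unfold lapl
  rw [h1.fderiv_eq, h2.fderiv_eq]

private lemma dx_zero_off {φ : P → ℝ} {z : P} (h : z ∉ tsupport φ) : dx φ z = 0 := by
  unfold dx; rw [fderiv_of_notMem_tsupport (𝕜 := ℝ) h]; rfl

private lemma dy_zero_off {φ : P → ℝ} {z : P} (h : z ∉ tsupport φ) : dy φ z = 0 := by
  unfold dy; rw [fderiv_of_notMem_tsupport (𝕜 := ℝ) h]; rfl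

private lemma c1c_dx {U : Set P} {φ : P → ℝ} (h : Test U φ) : C1c (dx φ) := by
  refine ⟨?_, h.c1c.cs_dx⟩
  unfold dx
  have h2 : ContDiff ℝ 2 φ := by exact_mod_cast (contDiff_infty.1 h.smooth) 2
  have h1 : ContDiff ℝ 1 (fderiv ℝ φ) := h2.fderiv_right (m := 1) one_add_one_eq_two.le
  exact h1.clm_apply contDiff_const

private lemma c1c_dy {U : Set P} {φ : P → ℝ} (h : Test U φ) : C1c (dy φ) := by
  refine ⟨?_, h.c1c.cs_dy⟩
  unfold dy
  have h2 : ContDiff ℝ 2 φ := by exact_mod_cast (contDiff_infty.1 h.smooth) 2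
  have h1 : ContDiff ℝ 1 (fderiv ℝ φ) := h2.fderiv_right (m := 1) one_add_one_eq_two.le
  exact h1.clm_apply contDiff_const

private lemma lapl_eq (φ : P → ℝ) (z : P) : lapl φ z = dx (dx φ) z + dy (dy φ) z := rfl

private lemma int_mul_lapl {U : Set P} {a b : P → ℝ} (ha : C1c a) (hb : Test U b) :
    Integrable (fun z => a z * lapl b z) := by
  have h1 := int_cc (ha.cont.mul (c1c_dx hb).cont_dx) (ha.cs.mul_right)
  have h2 := int_cc (ha.cont.mul (c1c_dy hb).cont_dy) (ha.cs.mul_right)
  refine (h1.add h2).congr (Eventually.of_forall fun z => ?_)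
  simp only [Pi.add_apply, Pi.mul_apply, lapl_eq]
  ring

private lemma DB_lapl {U : Set P} {a b : P → ℝ} (ha : C1c a) (hb : Test U b) :
    DB a b = - ∫ z, a z * lapl b z := by
  have h1 := int_mul_dx ha (c1c_dx hb)
  have h2 := int_mul_dy ha (c1c_dy hb)
  have i1 : Integrable (fun z => a z * dx (dx b) z) :=
    int_cc (ha.cont.mul (c1c_dx hb).cont_dx) (ha.cs.mul_right)
  have i2 : Integrable (fun z => a z * dy (dy b) z) :=
    int_cc (ha.cont.mul (c1c_dy hb).cont_dy) (ha.cs.mul_right)
  have j1 : Integrable (fun z => dx a z * dx b z) :=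
    int_cc (ha.cont_dx.mul (c1c_dx hb).cont) (ha.cs_dx.mul_right)
  have j2 : Integrable (fun z => dy a z * dy b z) :=
    int_cc (ha.cont_dy.mul (c1c_dy hb).cont) (ha.cs_dy.mul_right)
  have e1 : ∫ z, a z * lapl b z = (∫ z, a z * dx (dx b) z) + ∫ z, a z * dy (dy b) z := by
    rw [← integral_add i1 i2]
    refine integral_congr_ae (Eventually.of_forall fun z => ?_)
    simp only [lapl_eq]
    ring
  have e2 : DB a b = (∫ z, dx a z * dx b z) + ∫ z, dy a z * dy b z := by
    unfold DB
    rw [← integral_add j1 j2]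
  rw [e1, e2, h1, h2]
  ring

theorem weak_form {D : Set P} (hD : IsOpen D) {f u φ : P → ℝ} (hu : ClassSol D f u)
    (hφ : Test D φ) :
    Integrable (fun z => dx u z * dx φ z + dy u z * dy φ z) ∧
    ∫ z, (dx u z * dx φ z + dy u z * dy φ z) = ∫ z, f z * φ z := by
  obtain ⟨v, hv, hvu⟩ := exists_ext hD hu hφ
  have e : ∀ z, dx u z * dx φ z + dy u z * dy φ z = dx v z * dx φ z + dy v z * dy φ z := by
    intro z
    by_cases hz : z ∈ tsupport φ
    · rw [dx_congr (hvu z hz), dy_congr (hvu z hz)]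
    · rw [dx_zero_off hz, dy_zero_off hz]; ring
  have i1 := DB_integrable hv.c1c hφ.c1c
  simp only [e]
  refine ⟨i1, ?_⟩
  change DB v φ = _
  rw [DB_comm, DB_lapl hφ.c1c hv, ← integral_neg]
  refine integral_congr_ae (Eventually.of_forall fun z => ?_)
  simp only
  by_cases hz : z ∈ tsupport φ
  · rw [lapl_congr (hvu z hz), ← hu.eqn z (hφ.supp hz)]; ring
  · rw [image_eq_zero_of_notMem_tsupport hz]; ring

theorem weak_u {D : Set P} (hD : IsOpen D) {f u φ : P → ℝ} (hu : ClassSol D f u)
    (hφ : Test D φ) :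
    ∫ z, (dx u z * dx φ z + dy u z * dy φ z) = - ∫ z, u z * lapl φ z := by
  obtain ⟨v, hv, hvu⟩ := exists_ext hD hu hφ
  have e : ∀ z, dx u z * dx φ z + dy u z * dy φ z = dx v z * dx φ z + dy v z * dy φ z := by
    intro z
    by_cases hz : z ∈ tsupport φ
    · rw [dx_congr (hvu z hz), dy_congr (hvu z hz)]
    · rw [dx_zero_off hz, dy_zero_off hz]; ring
  simp only [e]
  change DB v φ = _
  rw [DB_lapl hv.c1c hφ]
  congr 1
  refine integral_congr_ae (Eventually.of_forall fun z => ?_)
  simp only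
  by_cases hz : z ∈ tsupport φ
  · rw [(hvu z hz).self_of_nhds]
  · have h0 : lapl φ z = 0 := by
      have h1 : φ =ᶠ[𝓝 z] fun _ => (0 : ℝ) := notMem_tsupport_iff_eventuallyEq.1 hz
      rw [lapl_congr h1]
      simp [lapl]
    rw [h0]; ring

private lemma cut_grad {D : Set P} (hD : IsOpen D) {f u φ : P → ℝ} (hu : ClassSol D f u)
    (hφ : Test D φ) {h : ℝ → ℝ} (hs : ContDiff ℝ ((⊤ : ℕ∞) : WithTop ℕ∞) h) {z : P} (hz : z ∈ D) :
    dx (fun z => h (u z - φ z)) z = deriv h (u z - φ z) * (dx u z - dx φ z) ∧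
    dy (fun z => h (u z - φ z)) z = deriv h (u z - φ z) * (dy u z - dy φ z) := by
  have h1 : DifferentiableAt ℝ u z :=
    (hu.smooth.contDiffAt (hD.mem_nhds hz)).differentiableAt (by simp)
  have h2 : DifferentiableAt ℝ φ z := hφ.c1c.diff z
  have h3 : HasFDerivAt (fun z => u z - φ z) (fderiv ℝ u z - fderiv ℝ φ z) z :=
    h1.hasFDerivAt.sub h2.hasFDerivAt
  have h4 : HasDerivAt h (deriv h (u z - φ z)) (u z - φ z) :=
    (hs.differentiable (by simp) _).hasDerivAt
  have h5 := h4.comp_hasFDerivAt z h3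
  have h6 : fderiv ℝ (fun z => h (u z - φ z)) z =
      deriv h (u z - φ z) • (fderiv ℝ u z - fderiv ℝ φ z) := h5.fderiv
  unfold dx dy
  rw [h6]
  constructor <;> rfl

theorem vD_eq_of_classSol {D : Set P} (hD : IsOpen D) (hb : Bornology.IsBounded D) {f u : P → ℝ}
    (hf : Test D f) (hu : ClassSol D f u) : vD D f = ∫ z, f z * u z := by
  have hfc : C1c f := hf.c1c
  have iu : Integrable (fun z => f z * u z) := int_cc (hfc.cont.mul hu.cont) hfc.cs.mul_right
  have iabs : Integrable (fun z => |f z|) := hfc.integrable.abs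
  refine le_antisymm ?_ ?_
  · -- upper bound
    have hne : {r : ℝ | ∃ φ, Test D φ ∧ r = 2 * (∫ z, f z * φ z) - Dir φ}.Nonempty :=
      ⟨_, 0, Test.zero D, rfl⟩
    refine csSup_le hne ?_
    rintro r ⟨φ, hφ, rfl⟩
    have il : Integrable (fun z => |lapl φ z|) := by
      have h1 := int_cc (c1c_dx hφ).cont_dx (c1c_dx hφ).cs_dx
      have h2 := int_cc (c1c_dy hφ).cont_dy (c1c_dy hφ).cs_dy
      exact (h1.add h2).abs
    set C : ℝ := (∫ z, |f z|) + ∫ z, |lapl φ z| with hC
    have hC0 : 0 ≤ C := add_nonneg (integral_nonneg fun z => abs_nonneg _)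
      (integral_nonneg fun z => abs_nonneg _)
    have iphi : Integrable (fun z => f z * φ z) := int_tst hfc hφ.c1c
    have iul : Integrable (fun z => u z * lapl φ z) := by
      have h1 := int_cc (hu.cont.mul (c1c_dx hφ).cont_dx) ((c1c_dx hφ).cs_dx.mul_left)
      have h2 := int_cc (hu.cont.mul (c1c_dy hφ).cont_dy) ((c1c_dy hφ).cs_dy.mul_left)
      refine (h1.add h2).congr (Eventually.of_forall fun z => ?_)
      simp only [Pi.add_apply, Pi.mul_apply, lapl_eq]
      ring
    have ipl : Integrable (fun z => φ z * lapl φ z) := int_mul_lapl hφ.c1c hφ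
    have key : ∀ ε : ℝ, 0 < ε → 2 * (∫ z, f z * φ z) - Dir φ ≤ (∫ z, f z * u z) + 2 * ε * C := by
      intro ε hε
      obtain ⟨h, hs, h0, h1, h2⟩ := exists_cut hε
      set ψ : P → ℝ := fun z => h (u z - φ z) with hψ
      have hψt : Test D ψ := test_cut hD hb hu hφ hε hs h0
      obtain ⟨w1, w2⟩ := weak_form hD hu hψt
      obtain ⟨-, w3⟩ := weak_form hD hu hφ
      have w4 := weak_u hD hu hφ
      have d1 : DB φ ψ = - ∫ z, ψ z * lapl φ z := by rw [DB_comm, DB_lapl hψt.c1c hφ]
      have d2 : Dir φ = - ∫ z, φ z * lapl φ z := by rw [← DB_self, DB_lapl hφ.c1c hφ]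
      -- comparison
      have m1 : DB φ ψ ≤ ∫ z, f z * ψ z := by
        rw [← w2]
        unfold DB
        refine integral_mono (DB_integrable hφ.c1c hψt.c1c) w1 fun z => ?_
        simp only
        by_cases hz : z ∈ D
        · obtain ⟨g1, g2⟩ := cut_grad hD hu hφ hs hz
          have g1' : dx ψ z = deriv h (u z - φ z) * (dx u z - dx φ z) := g1
          have g2' : dy ψ z = deriv h (u z - φ z) * (dy u z - dy φ z) := g2
          rw [g1', g2']
          have := (h1 (u z - φ z)).1
          nlinarith [mul_nonneg this (sq_nonneg (dx u z - dx φ z)),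
            mul_nonneg this (sq_nonneg (dy u z - dy φ z))]
        · have hz' : z ∉ tsupport ψ := fun h => hz (hψt.supp h)
          rw [dx_zero_off hz', dy_zero_off hz']
          simp
      -- approximations
      have ifψ : Integrable (fun z => f z * ψ z) := int_tst hfc hψt.c1c
      have a1 : (∫ z, f z * ψ z) ≤ (∫ z, f z * u z) - (∫ z, f z * φ z) + 2 * ε * ∫ z, |f z| := by
        have k1 : Integrable (fun z => f z * u z - f z * φ z) := iu.sub iphi
        have k2 : Integrable (fun z => 2 * ε * |f z|) := iabs.const_mul _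
        rw [← integral_sub iu iphi, ← integral_const_mul, ← integral_add k1 k2]
        refine integral_mono ifψ (k1.add k2) fun z => ?_
        have b := h2 (u z - φ z)
        have b2 : f z * (ψ z - (u z - φ z)) ≤ |f z| * (2 * ε) := by
          refine (le_abs_self _).trans ?_
          rw [abs_mul]
          exact mul_le_mul_of_nonneg_left b (abs_nonneg _)
        simp only
        linarith
      have iψl : Integrable (fun z => ψ z * lapl φ z) := int_mul_lapl hψt.c1c hφ
      have a2 : (∫ z, ψ z * lapl φ z) ≤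
          (∫ z, u z * lapl φ z) - (∫ z, φ z * lapl φ z) + 2 * ε * ∫ z, |lapl φ z| := by
        have k1 : Integrable (fun z => u z * lapl φ z - φ z * lapl φ z) := iul.sub ipl
        have k2 : Integrable (fun z => 2 * ε * |lapl φ z|) := il.const_mul _
        rw [← integral_sub iul ipl, ← integral_const_mul, ← integral_add k1 k2]
        refine integral_mono iψl (k1.add k2) fun z => ?_
        have b := h2 (u z - φ z)
        have b2 : lapl φ z * (ψ z - (u z - φ z)) ≤ |lapl φ z| * (2 * ε) := by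
          refine (le_abs_self _).trans ?_
          rw [abs_mul]
          exact mul_le_mul_of_nonneg_left b (abs_nonneg _)
        simp only
        linarith
      rw [w3] at w4
      rw [hC, mul_add]
      linarith
    by_contra hne
    push Not at hne
    have hpos : 0 < 2 * (∫ z, f z * φ z) - Dir φ - ∫ z, f z * u z := by linarith
    set d : ℝ := 2 * (∫ z, f z * φ z) - Dir φ - ∫ z, f z * u z with hd
    have := key (d / (4 * (C + 1))) (by positivity)
    have h3 : 2 * (d / (4 * (C + 1))) * C ≤ d / 2 := by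
      rw [show 2 * (d / (4 * (C + 1))) * C = d / 2 * (C / (C + 1)) by field_simp; ring]
      have : C / (C + 1) ≤ 1 := by rw [div_le_one (by linarith)]; linarith
      nlinarith
    linarith
  · -- lower bound
    set C : ℝ := ∫ z, |f z| with hC
    have hC0 : 0 ≤ C := integral_nonneg fun z => abs_nonneg _
    have key : ∀ ε : ℝ, 0 < ε → (∫ z, f z * u z) - 2 * ε * C ≤ vD D f := by
      intro ε hε
      obtain ⟨h, hs, h0, h1, h2⟩ := exists_cut hε
      set ψ : P → ℝ := fun z => h (u z - (0 : P → ℝ) z) with hψ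
      have hψt : Test D ψ := test_cut hD hb hu (Test.zero D) hε hs h0
      obtain ⟨w1, w2⟩ := weak_form hD hu hψt
      have z1 : ∀ z, dx (0 : P → ℝ) z = 0 := fun z => by simp [dx]
      have z2 : ∀ z, dy (0 : P → ℝ) z = 0 := fun z => by simp [dy]
      have m1 : Dir ψ ≤ ∫ z, f z * ψ z := by
        rw [← w2, ← DB_self]
        unfold DB
        refine integral_mono (DB_integrable hψt.c1c hψt.c1c) w1 fun z => ?_
        simp only
        by_cases hz : z ∈ D
        · obtain ⟨g1, g2⟩ := cut_grad hD hu (Test.zero D) hs hz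
          have g1' : dx ψ z = deriv h (u z - (0 : P → ℝ) z) * (dx u z - dx (0 : P → ℝ) z) := g1
          have g2' : dy ψ z = deriv h (u z - (0 : P → ℝ) z) * (dy u z - dy (0 : P → ℝ) z) := g2
          rw [g1', g2', z1, z2, sub_zero, sub_zero]
          have q0 := (h1 (u z - (0 : P → ℝ) z)).1
          have q1 := (h1 (u z - (0 : P → ℝ) z)).2
          set q := deriv h (u z - (0 : P → ℝ) z) with hq
          have q2 : q * q ≤ q := by nlinarith
          nlinarith [mul_le_mul_of_nonneg_right q2 (sq_nonneg (dx u z)),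
            mul_le_mul_of_nonneg_right q2 (sq_nonneg (dy u z))]
        · have hz' : z ∉ tsupport ψ := fun h => hz (hψt.supp h)
          rw [dx_zero_off hz', dy_zero_off hz']
          simp
      have ifψ : Integrable (fun z => f z * ψ z) := int_tst hfc hψt.c1c
      have a1 : (∫ z, f z * u z) - 2 * ε * C ≤ ∫ z, f z * ψ z := by
        have k2 : Integrable (fun z => 2 * ε * |f z|) := iabs.const_mul _
        rw [hC, ← integral_const_mul, ← integral_sub iu k2]
        refine integral_mono (iu.sub k2) ifψ fun z => ?_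
        have b := h2 (u z - (0 : P → ℝ) z)
        have b2 : -(f z * (ψ z - (u z - (0 : P → ℝ) z))) ≤ |f z| * (2 * ε) := by
          refine (neg_le_abs _).trans ?_
          rw [abs_mul]
          exact mul_le_mul_of_nonneg_left b (abs_nonneg _)
        simp only [Pi.zero_apply, sub_zero] at b2 ⊢
        linarith
      have := JF_le_vD hb hfc hψt
      unfold JF at this
      linarith
    by_contra hne
    push Not at hne
    have hpos : 0 < (∫ z, f z * u z) - vD D f := by linarith
    set d : ℝ := (∫ z, f z * u z) - vD D f with hd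
    have := key (d / (4 * (C + 1))) (by positivity)
    have h3 : 2 * (d / (4 * (C + 1))) * C ≤ d / 2 := by
      rw [show 2 * (d / (4 * (C + 1))) * C = d / 2 * (C / (C + 1)) by field_simp; ring]
      have : C / (C + 1) ≤ 1 := by rw [div_le_one (by linarith)]; linarith
      nlinarith
    linarith

end Pool.Agent.LR
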