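import Pool.Agent.LR.B8.Decay

/-! # LR-B8-Split: decomposition of a test function into pieces with small support -/

set_option autoImplicit false

noncomputable section

open scoped BigOperators Topology ContDiff
open MeasureTheory Filter Set

namespace Pool.Agent.LR.B8

theorem lenP_le_norm (a : P) : lenP a ≤ 2 * ‖a‖ := by
  unfold lenP
  rw [Real.sqrt_le_left (by positivity)]
  have h1 : |a.1| ≤ ‖a‖ := norm_fst_le a
  have h2 : |a.2| ≤ ‖a‖ := norm_snd_le a
  have h3 := sq_abs a.1
  have h4 := sq_abs a.2
  have h5 := abs_nonneg a.1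
  have h6 := abs_nonneg a.2
  nlinarith [norm_nonneg a]

theorem norm_le_lenP (a : P) : ‖a‖ ≤ lenP a := by
  rw [Prod.norm_def]
  exact max_le (abs_fst_le_lenP a) (abs_snd_le_lenP a)

theorem Test.mul_smooth {U : Set P} {H χ : P → ℝ} (hH : Test U H)
    (hχ : ContDiff ℝ ((⊤ : ℕ∞) : WithTop ℕ∞) χ) : Test U (fun z => χ z * H z) where
  smooth := hχ.mul hH.smooth
  comp := hH.comp.mul_left
  supp := (tsupport_mul_subset_right).trans hH.supp

theorem split_induct {D : Set P} (hD : IsOpen D) (Good : (P → ℝ) → Prop) (hzero : Good 0)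
    (hadd : ∀ F G, Test D F → Test D G → Good F → Good G → Good (F + G))
    (hloc : ∀ (z₀ : P) (ρ : ℝ), 0 < ρ → {w | lenP (w - z₀) ≤ 6 * ρ} ⊆ D → ∀ H, Test D H →
      (∀ z ∈ tsupport H, lenP (z - z₀) < ρ) → Good H)
    {H : P → ℝ} (hH : Test D H) : Good H := by
  classical
  -- radii
  have hrad : ∀ z : P, z ∈ tsupport H → ∃ ρ : ℝ, 0 < ρ ∧ {w | lenP (w - z) ≤ 6 * ρ} ⊆ D := by
    intro z hz
    obtain ⟨ε, hε, hball⟩ := Metric.isOpen_iff.1 hD z (hH.supp hz)
    refine ⟨ε / 12, by positivity, fun w hw => hball ?_⟩
    rw [Metric.mem_ball, dist_eq_norm]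
    have h1 := norm_le_lenP (w - z)
    have h2 : lenP (w - z) ≤ 6 * (ε / 12) := hw
    linarith
  choose! r hr0 hrD using hrad
  -- finite cover
  obtain ⟨t, htK, hcov⟩ := hH.comp.isCompact.elim_nhds_subcover
    (fun z => Metric.ball z (r z / 8)) (fun z hz => Metric.ball_mem_nhds z (by
      have := hr0 z hz; positivity))
  -- induction over the set of centres
  have main : ∀ s : Finset P, (∀ z ∈ s, z ∈ tsupport H) → ∀ G : P → ℝ, Test D G →
      tsupport G ⊆ ⋃ z ∈ s, Metric.ball z (r z / 8) → Good G := by
    intro s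
    induction s using Finset.induction_on with
    | empty =>
      intro _ G _ hG
      have hG' : tsupport G ⊆ (∅ : Set P) := by simpa using hG
      have : G = 0 := by
        rw [← tsupport_eq_empty_iff]
        exact Set.subset_empty_iff.1 hG'
      rw [this]; exact hzero
    | insert a s ha ih =>
      intro hs G hGT hG
      have haK := hs a (Finset.mem_insert_self a s)
      have hra := hr0 a haK
      let χ : ContDiffBump a := ⟨r a / 8, r a / 4, by positivity, by linarith⟩
      have hχ : ContDiff ℝ ((⊤ : ℕ∞) : WithTop ℕ∞) (χ : P → ℝ) := χ.contDiff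
      have e : G = (fun z => χ z * G z) + (fun z => (1 - χ z) * G z) := by
        funext z; simp only [Pi.add_apply]; ring
      have hT1 : Test D (fun z => χ z * G z) := Test.mul_smooth hGT hχ
      have hT2 : Test D (fun z => (1 - χ z) * G z) :=
        Test.mul_smooth (χ := fun z => 1 - χ z) hGT (contDiff_const.sub hχ)
      rw [e]
      refine hadd _ _ hT1 hT2 ?_ ?_
      · refine hloc a (r a) hra (hrD a haK) _ hT1 fun z hz => ?_
        have h1 : z ∈ tsupport (χ : P → ℝ) := tsupport_mul_subset_left hz
        rw [χ.tsupport_eq, Metric.mem_closedBall, dist_eq_norm] at h1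
        have h2 := lenP_le_norm (z - a)
        have h3 : χ.rOut = r a / 4 := rfl
        rw [h3] at h1
        linarith
      · refine ih (fun z hz => hs z (Finset.mem_insert_of_mem hz)) _ hT2 fun z hz => ?_
        have h1 : z ∈ tsupport G := tsupport_mul_subset_right hz
        have h2 := hG h1
        rw [Finset.set_biUnion_insert] at h2
        rcases h2 with h2 | h2
        · exfalso
          -- near z the function vanishes
          have hnhds : Metric.ball a (r a / 8) ∈ 𝓝 z := Metric.isOpen_ball.mem_nhds h2
          refine (notMem_tsupport_iff_eventuallyEq.2 ?_) hz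
          filter_upwards [hnhds] with w hw
          have h3 : χ w = 1 := χ.one_of_mem_closedBall (Metric.ball_subset_closedBall hw)
          simp [h3]
        · exact h2
  exact main t htK H hH hcov

end Pool.Agent.LR.B8
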