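import Pool.Agent.LR.B1.Rest
import Pool.Agent.LR.Forms
import Pool.Agent.LR.B8.Split
import Pool.Agent.LR.B8.Calc
import Pool.Agent.LR.IDefs

/-! # LR-B8-Main82: the Dirichlet limit (8.2), from locality (8.1) and the lower bound (2.4) -/

set_option autoImplicit false

noncomputable section

open scoped BigOperators Topology
open MeasureTheory Filter Set

namespace Pool.Agent.LR.B8



theorem finite_sites {D : Set P} (hb : Bornology.IsBounded D) {n : ℕ} (hn : 0 < n) :
    {x : V | sc n x ∈ D}.Finite := by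
  obtain ⟨R, hR⟩ := hb.exists_norm_le
  have hn' : (0 : ℝ) < n := Nat.cast_pos.2 hn
  refine (Finset.finite_toSet (Finset.Icc (-⌈R * n⌉) ⌈R * n⌉ ×ˢ
    Finset.Icc (-⌈R * n⌉) ⌈R * n⌉)).subset fun x hx => ?_
  have h1 := hR _ hx
  have h2 : |(x.1 : ℝ) / n| ≤ R := (norm_fst_le (sc n x)).trans h1
  have h3 : |(x.2 : ℝ) / n| ≤ R := (norm_snd_le (sc n x)).trans h1
  rw [abs_div, abs_of_pos hn', div_le_iff₀ hn'] at h2 h3
  rw [Finset.mem_coe, Finset.mem_product, Finset.mem_Icc, Finset.mem_Icc]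
  have h4 := Int.le_ceil (R * n)
  rw [abs_le] at h2 h3
  refine ⟨⟨?_, ?_⟩, ⟨?_, ?_⟩⟩
  · have : -((⌈R * n⌉ : ℤ) : ℝ) ≤ x.1 := by linarith
    exact_mod_cast this
  · have : (x.1 : ℝ) ≤ ((⌈R * n⌉ : ℤ) : ℝ) := by linarith
    exact_mod_cast this
  · have : -((⌈R * n⌉ : ℤ) : ℝ) ≤ x.2 := by linarith
    exact_mod_cast this
  · have : (x.2 : ℝ) ≤ ((⌈R * n⌉ : ℤ) : ℝ) := by linarith
    exact_mod_cast this

theorem mem_Lam' {D : Set P} (hb : Bornology.IsBounded D) {n : ℕ} (hn : 0 < n) {x : V} :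
    x ∈ Lam D n ↔ sc n x ∈ D := by
  unfold Lam
  rw [dif_pos (finite_sites hb hn)]
  simp

theorem supp_smp {D : Set P} (hb : Bornology.IsBounded D) {H : P → ℝ} (hH : Test D H) {n : ℕ}
    (hn : 0 < n) : Supp (Lam D n) (smp H n) := by
  intro x hx
  by_contra hne
  exact hx ((mem_Lam' hb hn).2 (hH.supp (subset_tsupport _ hne)))

theorem Test.add {U : Set P} {F G : P → ℝ} (hF : Test U F) (hG : Test U G) : Test U (F + G) where
  smooth := hF.smooth.add hG.smooth
  comp := hF.comp.add hG.comp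
  supp := (tsupport_add F G).trans (union_subset hF.supp hG.supp)

theorem Test.sub {U : Set P} {F G : P → ℝ} (hF : Test U F) (hG : Test U G) : Test U (F - G) where
  smooth := hF.smooth.sub hG.smooth
  comp := by
    rw [sub_eq_add_neg]
    exact hF.comp.add hG.comp.neg
  supp := (tsupport_sub F G).trans (union_subset hF.supp hG.supp)

theorem Test.c1c {U : Set P} {F : P → ℝ} (hF : Test U F) : C1c F :=
  ⟨hF.smooth.of_le (by exact_mod_cast le_top), hF.comp⟩

theorem two_le_smooth : (2 : WithTop ℕ∞) ≤ ((⊤ : ℕ∞) : WithTop ℕ∞) := by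
  have h : ((2 : ℕ∞) : WithTop ℕ∞) ≤ ((⊤ : ℕ∞) : WithTop ℕ∞) := WithTop.coe_le_coe.2 le_top
  exact h

theorem dir_lim_of {α β κ : ℝ} (hα : 4 < α) (hβ : 0 < β) (hκ : KapSpec α β κ)
    (hloc : ∀ (z₀ : P) (ρ K : ℝ), 0 < ρ → ∀ H : P → ℝ, ContDiff ℝ 2 H → HasCompactSupport H →
      (∀ z ∈ tsupport H, lenP (z - z₀) < ρ) → ∀ Λ : ℕ → Finset V,
      (∀ᶠ n : ℕ in atTop, ∀ x, lenP (sc n x - z₀) ≤ 6 * ρ → x ∈ Λ n) →
      (∀ᶠ n : ℕ in atTop, ∀ x ∈ Λ n, lenP (sc n x) ≤ K) → ∀ ε > 0, ∀ᶠ n in atTop,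
        En (QD α β (Λ n)) (Λ n) (smp H n) ≤ κ / 2 * Dir H + ε)
    {D : Set P} (hD : IsOpen D) (hb : Bornology.IsBounded D) {H : P → ℝ} (hH : Test D H) :
    Tendsto (fun n => En (QD α β (Lam D n)) (Lam D n) (smp H n)) atTop (𝓝 (κ / 2 * Dir H)) := by
  have hα2 : 2 < α := by linarith
  have hlow : ∀ G : P → ℝ, Test D G → ∀ ε > 0, ∀ᶠ n in atTop,
      κ / 2 * Dir G - ε ≤ En (QD α β (Lam D n)) (Lam D n) (smp G n) := by
    intro G hG
    refine hκ.lowD G (Test.c1c hG).c1 hG.comp (Lam D) ?_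
    filter_upwards [eventually_gt_atTop 0] with n hn
    exact supp_smp hb hG hn
  set Good : (P → ℝ) → Prop := fun G => ∀ ε > 0, ∀ᶠ n in atTop,
    En (QD α β (Lam D n)) (Lam D n) (smp G n) ≤ κ / 2 * Dir G + ε with hGood
  have hgood : Good H := by
    refine split_induct hD Good ?_ ?_ ?_ hH
    · intro ε hε
      refine Eventually.of_forall fun n => ?_
      have h0 : smp (0 : P → ℝ) n = 0 := rfl
      rw [h0, En_zero (isForm_QD hβ.le _) (pdef_QD hα2 hβ _)]
      have := Dir_nonneg (0 : P → ℝ)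
      have := hκ.nonneg
      positivity
    · intro F G hF hG gF gG ε hε
      have l := hlow (F - G) (Test.sub hF hG) (ε / 5) (by positivity)
      filter_upwards [gF (ε / 5) (by positivity), gG (ε / 5) (by positivity), l] with n h1 h2 h3
      have hr := En_rsd (isForm_QD (α := α) hβ.le (Lam D n)) (pdef_QD hα2 hβ (Lam D n))
        (smp F n) (smp G n)
      have e1 : smp F n + smp G n = smp (F + G) n := rfl
      have e2 : smp F n - smp G n = smp (F - G) n := rfl
      rw [e1, e2] at hr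
      have hp := Dir_parallelogram (Test.c1c hF) (Test.c1c hG)
      have : κ / 2 * Dir (F + G) = κ * Dir F + κ * Dir G - κ / 2 * Dir (F - G) := by
        have : Dir (F + G) = 2 * Dir F + 2 * Dir G - Dir (F - G) := by linarith
        rw [this]; ring
      rw [this]
      linarith
    · intro z₀ ρ hρ hsub G hG hs
      obtain ⟨R, hR⟩ := hb.exists_norm_le
      refine hloc z₀ ρ (2 * R) hρ G (hG.smooth.of_le two_le_smooth)
        hG.comp hs
        (Lam D) ?_ ?_
      · filter_upwards [eventually_gt_atTop 0] with n hn x hx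
        exact (mem_Lam' hb hn).2 (hsub hx)
      · filter_upwards [eventually_gt_atTop 0] with n hn x hx
        have := hR _ ((mem_Lam' hb hn).1 hx)
        have := lenP_le_norm (sc n x)
        linarith
  rw [Metric.tendsto_atTop]
  intro ε hε
  have h1 := hgood (ε / 2) (by positivity)
  have h2 := hlow H hH (ε / 2) (by positivity)
  obtain ⟨N, hN⟩ := eventually_atTop.1 (h1.and h2)
  refine ⟨N, fun n hn => ?_⟩
  obtain ⟨h3, h4⟩ := hN n hn
  rw [Real.dist_eq, abs_lt]
  constructor <;> linarith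

end Pool.Agent.LR.B8
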