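import Pool.Agent.LR.B8.Seg
import Pool.Agent.LR.B8.Main82
import Pool.Agent.LR.B3.QdSmp

/-! # The effective stiffness is smaller than the macroscopic one (from T3) -/

set_option autoImplicit false

noncomputable section

open scoped BigOperators Topology
open MeasureTheory Filter Set

namespace Pool.Agent.LR

/-- a nonzero `C¹` function with compact support has positive Dirichlet energy -/
theorem Dir_pos {φ : P → ℝ} (h : C1c φ) (h0 : φ ≠ 0) : 0 < Dir φ := by
  obtain ⟨R, hR⟩ := h.cs.isCompact.isBounded.exists_norm_le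
  have hp := poincare h (R := R) (fun z hz => (norm_fst_le z).trans (hR z (subset_tsupport _ hz)))
  have hi : 0 < ∫ z, φ z ^ 2 := by
    have hc : Continuous fun z => φ z ^ 2 := h.cont.pow 2
    obtain ⟨z, hz⟩ := Function.ne_iff.1 h0
    have hcs : HasCompactSupport fun z => φ z ^ 2 := by
      have := h.cs.comp_left (g := fun x : ℝ => x ^ 2) (by simp)
      exact this
    refine hc.integral_pos_of_hasCompactSupport_nonneg_nonzero hcs (fun z => sq_nonneg _)
      (x := z) ?_
    have : φ z ≠ 0 := hz
    positivity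
  by_contra hle
  have h1 : Dir φ ≤ 0 := not_lt.1 hle
  have h2 : 4 * R ^ 2 * Dir φ ≤ 0 := mul_nonpos_of_nonneg_of_nonpos (by positivity) h1
  linarith

/-- the variance `v_D(f)` of a nonzero test function is positive -/
theorem vD_pos {D : Set P} (hb : Bornology.IsBounded D) {f : P → ℝ} (hf : Test D f)
    (h0 : f ≠ 0) : 0 < vD D f := by
  have hd := Dir_pos hf.c1c h0
  have hi : 0 < ∫ z, f z * f z := by
    have hc : Continuous fun z => f z * f z := hf.c1c.cont.mul hf.c1c.cont
    obtain ⟨z, hz⟩ := Function.ne_iff.1 h0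
    refine hc.integral_pos_of_hasCompactSupport_nonneg_nonzero (hf.comp.mul_right)
      (fun z => mul_self_nonneg _) (x := z) ?_
    have : f z ≠ 0 := hz
    exact mul_ne_zero this this
  set a := ∫ z, f z * f z with ha
  set s : ℝ := a / Dir f with hs
  have hs0 : 0 < s := div_pos hi hd
  have h1 := JF_le_vD hb hf.c1c (hf.smul s)
  unfold JF at h1
  rw [Dir_smul hf.c1c] at h1
  have h2 : ∫ z, f z * (s • f) z = s * a := by
    rw [ha, ← integral_const_mul]
    refine integral_congr_ae (Eventually.of_forall fun z => ?_)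
    simp only [Pi.smul_apply, smul_eq_mul]; ring
  rw [h2] at h1
  have h3 : s ^ 2 * Dir f = s * a := by
    rw [hs]; field_simp
  rw [h3] at h1
  have : 0 < s * a := mul_pos hs0 hi
  linarith

/-- a test function of the plane with positive energy -/
theorem exists_test : ∃ H : P → ℝ, Test univ H ∧ 0 < Dir H := by
  let b : ContDiffBump (0 : P) := ⟨1, 2, one_pos, by norm_num⟩
  have hb : Test univ (b : P → ℝ) := ⟨b.contDiff, b.hasCompactSupport, subset_univ _⟩
  refine ⟨b, hb, Dir_pos hb.c1c fun h => ?_⟩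
  have h1 : b (0 : P) = 1 := b.one_of_mem_closedBall (by simp [b.rIn_pos.le])
  rw [h] at h1
  simp at h1

theorem kap_le_of_t3 {α β κ ε : ℝ} (hα : 4 < α) (hβ : 0 < β) (hκ : KapSpec α β κ)
    (ht : ∀ (Λ : Finset V) (h : V → ℝ), Supp Λ h → En (QD α β Λ) Λ h ≤ ε / 2 * QD α β Λ h h) :
    κ ≤ ε * cc α β := by
  obtain ⟨H, hH, hpos⟩ := exists_test
  obtain ⟨R, hR⟩ := hH.comp.isCompact.isBounded.exists_norm_le
  set D : Set P := Metric.ball (0 : P) (R + 1) with hD
  have hb : Bornology.IsBounded D := Metric.isBounded_ball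
  have hHD : Test D H := ⟨hH.smooth, hH.comp, fun z hz => by
    rw [hD, mem_ball_zero_iff]
    have := hR z hz
    linarith⟩
  have hsup : ∀ᶠ n in atTop, Supp (Lam D n) (smp H n) := by
    filter_upwards [eventually_gt_atTop 0] with n hn
    exact B8.supp_smp hb hHD hn
  have hq := (qd_smp hα hβ H (hH.smooth.of_le B8.two_le_smooth) hH.comp (fun n => Lam D n)
    hsup).const_mul (ε / 2)
  have key : ∀ η > 0, κ / 2 * Dir H - η ≤ ε / 2 * (cc α β * Dir H) := by
    intro η hη
    have hl := hκ.lowD H hHD.c1c.c1 hH.comp (fun n => Lam D n) hsup η hη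
    refine ge_of_tendsto hq ?_
    filter_upwards [hl, hsup] with n h1 h2
    exact h1.trans (ht _ _ h2)
  have key2 : κ / 2 * Dir H ≤ ε / 2 * (cc α β * Dir H) :=
    le_of_forall_pos_le_add fun η hη => by linarith [key η hη]
  have key3 : κ * Dir H ≤ (ε * cc α β) * Dir H := by linarith
  exact le_of_mul_le_mul_right key3 hpos

end Pool.Agent.LR
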