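import Pool.Agent.LR.B8.Model
import Pool.Agent.LR.B8.Seg

/-!
# LR-F-SLITC: identification of the limit law (one test function)

PLAN (namespace Pool.Agent.LR, file B8/SlitC.lean).
(1) `vD_smul`: for `c ≠ 0` substitute `φ = c φ'` in the supremum (`Test.smul`, `Dir_smul`; a bijection of
the index set, so the set of values is `c²` times the set, `Real.sSup_smul_of_nonneg`-type lemma or antisymmetry
with `csSup`); `c = 0`: `vD D 0 = sup (- Dir φ) = 0`. `covD_self` follows.
(2) `law_unique`: `k = 1`, `f` constant vector. Eventually `Lam D₁ n = Lam D₂ n`, so `gibbs` and `obs` agree and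
the two sequences agree eventually; hence `∫ g d multivariateGaussian 0 (σ₁² • covM D₁ f)
= ∫ g d multivariateGaussian 0 (σ₂² • covM D₂ f)` for all bounded continuous `g` (`tendsto_nhds_unique`), so the
two measures agree (`ext_of_forall_integral_eq_of_IsFiniteMeasure`), so their characteristic functions agree:
`charFun_multivariateGaussian` (needs `PosSemidef`, which `InvPrinciple` gives, times `σ² ≥ 0`), evaluated at the
vector with entry `1`: `exp (- σ₁² v₁ / 2) = exp (- σ₂² v₂ / 2)`.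
Keep the statements below; more lemmas and splitting are welcome.
-/

set_option autoImplicit false

noncomputable section

open scoped BigOperators Topology Pointwise
open MeasureTheory Filter Set ProbabilityTheory

namespace Pool.Agent.LR

theorem vD_smul {D : Set P} (c : ℝ) (f : P → ℝ) : vD D (c • f) = c ^ 2 * vD D f := by
  have hD0 : Dir (0 : P → ℝ) = 0 := by
    have := Dir_smul (φ := (0 : P → ℝ)) C1c.zero 0
    simpa using this
  rcases eq_or_ne c 0 with rfl | hc
  · have hz : vD D ((0 : ℝ) • f) = 0 := by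
      unfold vD
      apply le_antisymm
      · refine csSup_le ⟨2 * (∫ z, ((0 : ℝ) • f) z * (0 : P → ℝ) z) - Dir (0 : P → ℝ),
          (0 : P → ℝ), Test.zero D, rfl⟩ ?_
        rintro r ⟨φ, -, rfl⟩
        have h0 := Dir_nonneg φ
        simp only [zero_smul, Pi.zero_apply, zero_mul, integral_zero, mul_zero]
        linarith
      · apply le_csSup
        · refine ⟨0, ?_⟩
          rintro r ⟨φ, -, rfl⟩
          have h0 := Dir_nonneg φ
          simp only [zero_smul, Pi.zero_apply, zero_mul, integral_zero, mul_zero]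
          linarith
        · exact ⟨0, Test.zero D, by simp [hD0]⟩
    rw [hz]; ring
  · have key : {r : ℝ | ∃ φ, Test D φ ∧ r = 2 * (∫ z, (c • f) z * φ z) - Dir φ}
        = (c ^ 2) • {r : ℝ | ∃ φ, Test D φ ∧ r = 2 * (∫ z, f z * φ z) - Dir φ} := by
      have hval : ∀ φ : P → ℝ, Test D φ →
          2 * (∫ z, (c • f) z * (c • φ) z) - Dir (c • φ)
            = c ^ 2 * (2 * (∫ z, f z * φ z) - Dir φ) := by
        intro φ hφ
        rw [Dir_smul hφ.c1c]
        have : (∫ z, (c • f) z * (c • φ) z) = c ^ 2 * ∫ z, f z * φ z := by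
          rw [← integral_const_mul]
          congr 1
          funext z
          simp only [Pi.smul_apply, smul_eq_mul]
          ring
        rw [this]; ring
      ext r
      constructor
      · rintro ⟨φ, hφ, rfl⟩
        refine ⟨2 * (∫ z, f z * (c⁻¹ • φ) z) - Dir (c⁻¹ • φ), ⟨c⁻¹ • φ, hφ.smul _, rfl⟩, ?_⟩
        have h1 := hval (c⁻¹ • φ) (hφ.smul _)
        have h2 : c • c⁻¹ • φ = φ := smul_inv_smul₀ hc φ
        rw [h2] at h1
        exact h1.symm
      · rintro ⟨r', ⟨φ, hφ, rfl⟩, rfl⟩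
        exact ⟨c • φ, hφ.smul _, (hval φ hφ).symm⟩
    unfold vD
    rw [key, Real.sSup_smul_of_nonneg (sq_nonneg c), smul_eq_mul]

theorem covD_self {D : Set P} (f : P → ℝ) : covD D f f = vD D f := by
  unfold covD
  have h1 : f + f = (2 : ℝ) • f := by rw [two_smul]
  have h2 : f - f = (0 : ℝ) • f := by rw [sub_self, zero_smul]
  rw [h1, h2, vD_smul, vD_smul]
  ring

theorem law_unique {α β σ₁ σ₂ : ℝ} {D₁ D₂ : Set P} (hL : ∀ᶠ n in atTop, Lam D₁ n = Lam D₂ n)
    (h₁ : InvPrinciple α β σ₁ D₁) (h₂ : InvPrinciple α β σ₂ D₂) {f : P → ℝ} (hf₁ : Test D₁ f)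
    (hf₂ : Test D₂ f) : σ₁ ^ 2 * vD D₁ f = σ₂ ^ 2 * vD D₂ f := by
  obtain ⟨hp₁, ht₁⟩ := h₁ 1 (fun _ => f) (fun _ => hf₁)
  obtain ⟨hp₂, ht₂⟩ := h₂ 1 (fun _ => f) (fun _ => hf₂)
  have hmeas : multivariateGaussian (0 : EuclideanSpace ℝ (Fin 1)) (σ₁ ^ 2 • covM D₁ (fun _ => f))
      = multivariateGaussian 0 (σ₂ ^ 2 • covM D₂ (fun _ => f)) := by
    apply ext_of_forall_integral_eq_of_IsFiniteMeasure
    intro g
    refine tendsto_nhds_unique (ht₁ g) ((ht₂ g).congr' ?_)
    filter_upwards [hL] with n hn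
    have ho : obs D₂ (fun _ : Fin 1 => f) n = obs D₁ (fun _ : Fin 1 => f) n := by
      funext ψ
      unfold obs ob
      rw [hn]
    rw [ho, hn]
  have hs₁ : (σ₁ ^ 2 • covM D₁ (fun _ : Fin 1 => f)).PosSemidef := hp₁.smul (sq_nonneg _)
  have hs₂ : (σ₂ ^ 2 • covM D₂ (fun _ : Fin 1 => f)).PosSemidef := hp₂.smul (sq_nonneg _)
  have v₁ := variance_eval_multivariateGaussian (μ := (0 : EuclideanSpace ℝ (Fin 1))) hs₁ 0
  have v₂ := variance_eval_multivariateGaussian (μ := (0 : EuclideanSpace ℝ (Fin 1))) hs₂ 0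
  rw [hmeas, v₂] at v₁
  simpa [covM, covD_self] using v₁.symm

end Pool.Agent.LR
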