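import Pool.Agent.LR.B8.RealA
import Pool.Agent.LR.B8.SlitC
import Pool.Agent.LR.B1.Pot

/-!
# LR-F-LAWB: `v_D` is a quadratic form and the covariance matrix is positive semidefinite

PLAN. Hypothesis `GConv α β D` (RealA.lean): `nsq_n (chg f n) → (cc)⁻¹ * vD D f` for all test functions.
`chg (∑ j, t j • f j) n = ∑ j, t j • chg (f j) n` (funext, `Finset.sum_div`). By `exists_pot` choose the
potentials `u_j`; `∑ t_j u_j` is the potential of `∑ t_j chg f_j` (`IsPot.add`, `IsPot.smul`, `isPot_zero`,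
induction over the finite sum), hence `nsq (∑ t_j a_j) = M(∑ t_j u_j, ∑ t_j u_j) = ∑ i, ∑ j, t_i t_j M(u_i,u_j)`
(`IsPot.nsq_eq`, linearity), and `M(u_i,u_j) = (nsq (a_i + a_j) - nsq (a_i - a_j)) / 4`. This is
`nsq_quad`. Take limits (`tendsto_nhds_unique`, `tendsto_finsetSum`): `vD_quad`. `test_lin`: finite linear
combinations of test functions are test functions (`Test.sum`, `Test.smul` of Seg.lean).
`covM_posSemidef`: symmetric (from `covD D f g = covD D g f`: `vD D (g - f) = vD D (f - g)` by `vD_smul` with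
`c = -1`, SlitC.lean) and `0 ≤ x ⬝ᵥ covM *ᵥ x = vD D (∑ x_j f_j)` (`covM_form`, `vD_nonneg` of Seg.lean).
Keep the statements; auxiliary lemmas private.
-/

set_option autoImplicit false

noncomputable section

open scoped BigOperators Topology
open MeasureTheory Filter Set Matrix

namespace Pool.Agent.LR

theorem test_lin {D : Set P} {k : ℕ} {f : Fin k → P → ℝ} (hf : ∀ j, Test D (f j))
    (t : Fin k → ℝ) : Test D (∑ j, t j • f j) := Test.sum _ fun j _ => (hf j).smul (t j)

theorem chg_lin {k : ℕ} (f : Fin k → P → ℝ) (t : Fin k → ℝ) (n : ℕ) :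
    chg (∑ j, t j • f j) n = ∑ j, t j • chg (f j) n := by
  funext x
  simp only [chg, Finset.sum_apply, Pi.smul_apply, smul_eq_mul]
  rw [Finset.sum_div]
  exact Finset.sum_congr rfl fun j _ => mul_div_assoc _ _ _

private theorem chg_add' (f g : P → ℝ) (n : ℕ) : chg (f + g) n = chg f n + chg g n := by
  funext x
  simp only [chg, Pi.add_apply]
  exact add_div _ _ _

private theorem chg_sub' (f g : P → ℝ) (n : ℕ) : chg (f - g) n = chg f n - chg g n := by
  funext x
  simp only [chg, Pi.sub_apply]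
  exact sub_div _ _ _

private theorem isPot_sum {W : Type*} [DecidableEq W] {M : BF W} {O : Finset W} {ι : Type*}
    (s : Finset ι) (a u : ι → W → ℝ) (hu : ∀ j, IsPot M O (a j) (u j)) (t : ι → ℝ) :
    IsPot M O (∑ j ∈ s, t j • a j) (∑ j ∈ s, t j • u j) := by
  classical
  induction s using Finset.induction_on with
  | empty => simpa using isPot_zero
  | insert i s his ih =>
    rw [Finset.sum_insert his, Finset.sum_insert his]
    exact ((hu i).smul (t i)).add ih

theorem nsq_quad {W : Type*} [DecidableEq W] {M : BF W} {O : Finset W} (hM : IsForm M)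
    (hP : PDef M O) {k : ℕ} (a : Fin k → W → ℝ) (t : Fin k → ℝ) :
    nsq M O (∑ j, t j • a j) =
      ∑ i, ∑ j, t i * t j * ((nsq M O (a i + a j) - nsq M O (a i - a j)) / 4) := by
  have hex : ∀ j, ∃ u, IsPot M O (a j) u := fun j => exists_pot hM hP (a j)
  choose u hu using hex
  rw [(isPot_sum Finset.univ a u hu t).nsq_eq hM, map_sum]
  refine Finset.sum_congr rfl fun i _ => ?_
  rw [map_sum, LinearMap.sum_apply]
  refine Finset.sum_congr rfl fun j _ => ?_
  rw [((hu i).add (hu j)).nsq_eq hM, ((hu i).sub (hu j)).nsq_eq hM]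
  simp only [map_smul, LinearMap.smul_apply, smul_eq_mul, map_add, map_sub,
    LinearMap.add_apply, LinearMap.sub_apply]
  rw [hM.symm (u j) (u i)]
  ring

theorem vD_quad {α β : ℝ} (hα : 4 < α) (hβ : 0 < β) {D : Set P} (hG : GConv α β D) {k : ℕ}
    {f : Fin k → P → ℝ} (hf : ∀ j, Test D (f j)) (t : Fin k → ℝ) :
    vD D (∑ j, t j • f j) = ∑ i, ∑ j, t i * t j * covD D (f i) (f j) := by
  have h1 := hG _ (test_lin hf t)
  have h2 : Tendsto (fun n => nsq (QD α β (Lam D n)) (Lam D n) (chg (∑ j, t j • f j) n)) atTop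
      (𝓝 (∑ i, ∑ j, t i * t j *
        (((cc α β)⁻¹ * vD D (f i + f j) - (cc α β)⁻¹ * vD D (f i - f j)) / 4))) := by
    have e : (fun n => nsq (QD α β (Lam D n)) (Lam D n) (chg (∑ j, t j • f j) n)) =
        fun n => ∑ i, ∑ j, t i * t j *
          ((nsq (QD α β (Lam D n)) (Lam D n) (chg (f i + f j) n) -
            nsq (QD α β (Lam D n)) (Lam D n) (chg (f i - f j) n)) / 4) := by
      funext n
      rw [chg_lin, nsq_quad (isForm_QD hβ.le _) (pdef_QD (by linarith) hβ _)]
      simp only [chg_add', chg_sub']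
    rw [e]
    refine tendsto_finsetSum _ fun i _ => tendsto_finsetSum _ fun j _ => ?_
    exact (((hG _ ((hf i).add (hf j))).sub (hG _ ((hf i).sub (hf j)))).div_const 4).const_mul _
  have h3 := tendsto_nhds_unique h1 h2
  have hc := cc_pos hα hβ
  have h4 : ∑ i, ∑ j, t i * t j *
        (((cc α β)⁻¹ * vD D (f i + f j) - (cc α β)⁻¹ * vD D (f i - f j)) / 4) =
      (cc α β)⁻¹ * ∑ i, ∑ j, t i * t j * covD D (f i) (f j) := by
    rw [Finset.mul_sum]
    refine Finset.sum_congr rfl fun i _ => ?_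
    rw [Finset.mul_sum]
    refine Finset.sum_congr rfl fun j _ => ?_
    unfold covD
    ring
  rw [h4] at h3
  exact mul_left_cancel₀ (inv_ne_zero hc.ne') h3

theorem covM_form {α β : ℝ} (hα : 4 < α) (hβ : 0 < β) {D : Set P} (hG : GConv α β D) {k : ℕ}
    {f : Fin k → P → ℝ} (hf : ∀ j, Test D (f j)) (t : Fin k → ℝ) :
    t ⬝ᵥ (covM D f) *ᵥ t = vD D (∑ j, t j • f j) := by
  rw [vD_quad hα hβ hG hf t]
  simp only [dotProduct, mulVec, covM, Matrix.of_apply]
  refine Finset.sum_congr rfl fun i _ => ?_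
  rw [Finset.mul_sum]
  exact Finset.sum_congr rfl fun j _ => by ring

theorem covM_posSemidef {α β : ℝ} (hα : 4 < α) (hβ : 0 < β) {D : Set P}
    (hb : Bornology.IsBounded D) (hG : GConv α β D) {k : ℕ}
    {f : Fin k → P → ℝ} (hf : ∀ j, Test D (f j)) : (covM D f).PosSemidef := by
  refine Matrix.PosSemidef.of_dotProduct_mulVec_nonneg ?_ fun x => ?_
  · ext i j
    simp only [conjTranspose_apply, covM, Matrix.of_apply, star_trivial]
    unfold covD
    have h1 : f j - f i = (-1 : ℝ) • (f i - f j) := by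
      rw [neg_smul, one_smul, neg_sub]
    rw [add_comm (f j) (f i), h1, vD_smul]
    ring
  · rw [star_trivial, covM_form hα hβ hG hf x]
    exact vD_nonneg hb (test_lin hf x).c1c

end Pool.Agent.LR
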