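import Pool.Agent.LR.B8.LawA
import Pool.Agent.LR.B8.LawB
import Pool.Agent.LR.B3Mgf

/-!
# LR-F-LAWC: convergence of the Laplace functional implies the invariance principle

PLAN. Fix the test functions `f_j`. `obs D f n : (V → ℤ) → EuclideanSpace ℝ (Fin k)` is measurable.
`μ_n` = push forward of `gibbs α β (Lam D n)` under `obs D f n` (probability measure, `isProb_gibbs`), limit
`μ` = `multivariateGaussian 0 (σ² • covM D f)`. Levy: `ProbabilityMeasure.tendsto_iff_tendsto_charFun`, and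
`ProbabilityMeasure.tendsto_iff_forall_integral_tendsto` to pass to integrals of bounded continuous functions
(`integral_map`).
For fixed `t`: `⟪obs D f n ψ, t⟫ = ∑ t_j ob D (f_j) n ψ = ob D (∑ t_j f_j) n ψ =: X_n ψ`; put `F = ∑ t_j f_j`, a test
function (`test_lin`). The law `ν_n` of `X_n` on `ℝ` has
`∫ exp (s x) dν_n = ∫ exp (s X_n) dgibbs = Ex (QD ..) Λ 0 (fun ψ => exp (pr Λ (s • chg F n) (emb Λ ψ)))
= exp (La (QD ..) Λ (chg (s • F) n))` (`integral_gibbs`, `ob_eq`, `fieldE_coe`, `exp_La`, `tame_exp_pr`), which tends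
to `exp (σ²/2 * vD D (s • F)) = exp (v s²/2)` with `v = σ² vD D F ≥ 0` (`vD_smul` of SlitC.lean, `vD_nonneg` of
Seg.lean). `tendsto_charFun_of_mgf` (B3Mgf.lean) at `t = 1` gives
`∫ exp (i x) dν_n → exp (-v/2)`, which is `charFun μ t` by `charFun_multivariateGaussian`
(`(σ² • covM).PosSemidef`) and `covM_form`.
Keep the statement; auxiliary lemmas private.
-/

set_option autoImplicit false

noncomputable section

open scoped BigOperators Topology
open MeasureTheory Filter Set ProbabilityTheory Matrix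

namespace Pool.Agent.LR

/-- the observable of an integer field, as a function of the field -/
private def Xo (D : Set P) (F : P → ℝ) (n : ℕ) (ψ : V → ℤ) : ℝ :=
  ob D F n (fun x => (ψ x : ℝ))

private theorem measurable_Xo (D : Set P) (F : P → ℝ) (n : ℕ) : Measurable (Xo D F n) := by
  unfold Xo ob
  refine Measurable.const_mul ?_ _
  refine Finset.measurable_sum _ fun x _ => ?_
  refine Measurable.const_mul ?_ _
  exact (measurable_from_top (f := fun m : ℤ => (m : ℝ))).comp (measurable_pi_apply x)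

private theorem measurable_obs {k : ℕ} (D : Set P) (f : Fin k → P → ℝ) (n : ℕ) :
    Measurable (obs D f n) := by
  unfold obs
  refine (WithLp.measurable_toLp 2 (Fin k → ℝ)).comp ?_
  exact measurable_pi_lambda _ fun j => measurable_Xo D (f j) n

private theorem Xo_lin {k : ℕ} (D : Set P) (f : Fin k → P → ℝ) (t : Fin k → ℝ) (n : ℕ)
    (ψ : V → ℤ) : Xo D (∑ j, t j • f j) n ψ = ∑ j, t j * Xo D (f j) n ψ := by
  unfold Xo ob
  simp only [Finset.sum_apply, Pi.smul_apply, smul_eq_mul, Finset.sum_mul, Finset.mul_sum]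
  rw [Finset.sum_comm]
  refine Finset.sum_congr rfl fun j _ => ?_
  refine Finset.sum_congr rfl fun x _ => ?_
  ring

private theorem inner_obs {k : ℕ} (D : Set P) (f : Fin k → P → ℝ)
    (t : EuclideanSpace ℝ (Fin k)) (n : ℕ) (ψ : V → ℤ) :
    inner ℝ (obs D f n ψ) t = Xo D (∑ j, t j • f j) n ψ := by
  rw [Xo_lin, PiLp.inner_apply]
  refine Finset.sum_congr rfl fun j _ => ?_
  simp only [obs, Xo, RCLike.inner_apply, conj_trivial]

private theorem Xo_field (D : Set P) (F : P → ℝ) (n : ℕ) (s : ℝ) (ψ : Lam D n → ℤ) :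
    Real.exp (s * Xo D F n (fieldE (Lam D n) ψ).1)
      = Real.exp (pr (Lam D n) (chg (s • F) n) (emb (Lam D n) ψ)) := by
  congr 1
  unfold Xo
  rw [ob_eq]
  unfold pr chg
  rw [Finset.mul_sum]
  refine Finset.sum_congr rfl fun x _ => ?_
  have h : (fun x => (((fieldE (Lam D n) ψ).1 x : ℤ) : ℝ)) x = emb (Lam D n) ψ x :=
    fieldE_coe (Lam D n) ψ x
  rw [h]
  simp only [Pi.smul_apply, smul_eq_mul]
  ring

private theorem tame_Xo (D : Set P) (F : P → ℝ) (n : ℕ) (s : ℝ) :
    Tame (fun ψ : Lam D n → ℤ => Real.exp (s * Xo D F n (fieldE (Lam D n) ψ).1)) := by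
  have h : (fun ψ : Lam D n → ℤ => Real.exp (s * Xo D F n (fieldE (Lam D n) ψ).1))
      = fun ψ => Real.exp (pr (Lam D n) (chg (s • F) n) (emb (Lam D n) ψ)) := by
    funext ψ
    exact Xo_field D F n s ψ
  rw [h]
  exact tame_exp_pr _

private theorem integral_Xo {α β : ℝ} (hα : 2 < α) (hβ : 0 < β) (D : Set P) (F : P → ℝ) (n : ℕ)
    (s : ℝ) : ∫ ψ, Real.exp (s * Xo D F n ψ) ∂(gibbs α β (Lam D n))
      = Real.exp (La (QD α β (Lam D n)) (Lam D n) (chg (s • F) n)) := by
  rw [exp_La (isForm_QD hβ.le _) (pdef_QD hα hβ _),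
    integral_gibbs (G := fun ψ => Real.exp (s * Xo D F n ψ)) hα hβ (Lam D n) (tame_Xo D F n s)]
  congr 1
  funext ψ
  exact Xo_field D F n s ψ

theorem inv_of_laplace {α β σ : ℝ} (hα : 4 < α) (hβ : 0 < β) (hσ : 0 < σ) {D : Set P}
    (hD : IsOpen D) (hb : Bornology.IsBounded D) (hG : GConv α β D)
    (hL : ∀ f : P → ℝ, Test D f →
      Tendsto (fun n => La (QD α β (Lam D n)) (Lam D n) (chg f n)) atTop
        (𝓝 (σ ^ 2 / 2 * vD D f))) : InvPrinciple α β σ D := by
  intro k f hf
  have hα2 : 2 < α := by linarith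
  have hpsd := covM_posSemidef hα hβ hb hG hf
  refine ⟨hpsd, fun g => ?_⟩
  have hpr : ∀ n, IsProbabilityMeasure (gibbs α β (Lam D n)) := fun n => isProb_gibbs hα2 hβ _
  have hpo : ∀ n, IsProbabilityMeasure ((gibbs α β (Lam D n)).map (obs D f n)) := fun n =>
    Measure.isProbabilityMeasure_map (measurable_obs D f n).aemeasurable
  set ν : ℕ → ProbabilityMeasure (EuclideanSpace ℝ (Fin k)) := fun n =>
    ⟨(gibbs α β (Lam D n)).map (obs D f n), hpo n⟩ with hν
  set μ : ProbabilityMeasure (EuclideanSpace ℝ (Fin k)) :=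
    ⟨multivariateGaussian 0 (σ ^ 2 • covM D f), inferInstance⟩ with hμ
  have hmain : Tendsto ν atTop (𝓝 μ) := by
    rw [ProbabilityMeasure.tendsto_iff_tendsto_charFun]
    intro t
    set F : P → ℝ := ∑ j, t j • f j with hF
    have hTF : Test D F := test_lin hf (fun j => t j)
    have hv0 : 0 ≤ σ ^ 2 * vD D F := mul_nonneg (sq_nonneg _) (vD_nonneg hb hTF.c1c)
    have hpx : ∀ n, IsProbabilityMeasure ((gibbs α β (Lam D n)).map (Xo D F n)) := fun n =>
      Measure.isProbabilityMeasure_map (measurable_Xo D F n).aemeasurable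
    set ρ : ℕ → ProbabilityMeasure ℝ := fun n =>
      ⟨(gibbs α β (Lam D n)).map (Xo D F n), hpx n⟩ with hρ
    have hexp : ∀ s : ℝ, Measurable fun x : ℝ => Real.exp (s * x) := fun s => by fun_prop
    have hint : ∀ n (s : ℝ), Integrable (fun x => Real.exp (s * x)) (ρ n : Measure ℝ) := by
      intro n s
      refine (integrable_map_measure (hexp s).aestronglyMeasurable
        (measurable_Xo D F n).aemeasurable).2 ?_
      exact integrable_gibbs (G := fun ψ => Real.exp (s * Xo D F n ψ)) hα2 hβ (Lam D n)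
        (tame_Xo D F n s)
    have hval : ∀ n (s : ℝ), ∫ x, Real.exp (s * x) ∂(ρ n : Measure ℝ)
        = Real.exp (La (QD α β (Lam D n)) (Lam D n) (chg (s • F) n)) := by
      intro n s
      rw [← integral_Xo hα2 hβ D F n s]
      exact integral_map (measurable_Xo D F n).aemeasurable (hexp s).aestronglyMeasurable
    have hlim : ∀ s : ℝ, Tendsto (fun n => ∫ x, Real.exp (s * x) ∂(ρ n : Measure ℝ)) atTop
        (𝓝 (Real.exp (((⟨σ ^ 2 * vD D F, hv0⟩ : NNReal) : ℝ) * s ^ 2 / 2))) := by
      intro s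
      have h1 : Tendsto (fun n => Real.exp (La (QD α β (Lam D n)) (Lam D n) (chg (s • F) n)))
          atTop (𝓝 (Real.exp (σ ^ 2 / 2 * vD D (s • F)))) :=
        (Real.continuous_exp.tendsto _).comp (hL _ (hTF.smul s))
      have h2 : σ ^ 2 / 2 * vD D (s • F)
          = ((⟨σ ^ 2 * vD D F, hv0⟩ : NNReal) : ℝ) * s ^ 2 / 2 := by
        rw [vD_smul]
        show σ ^ 2 / 2 * (s ^ 2 * vD D F) = σ ^ 2 * vD D F * s ^ 2 / 2
        ring
      rw [h2] at h1
      refine h1.congr fun n => ?_
      exact (hval n s).symm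
    have h3 := tendsto_charFun_of_mgf ρ ⟨σ ^ 2 * vD D F, hv0⟩ hint hlim 1
    have h4 : charFun (μ : Measure (EuclideanSpace ℝ (Fin k))) t
        = Complex.exp (-((((⟨σ ^ 2 * vD D F, hv0⟩ : NNReal) : ℝ) : ℂ) * (1 : ℝ) ^ 2 / 2)) := by
      show charFun (multivariateGaussian 0 (σ ^ 2 • covM D f)) t = _
      rw [charFun_multivariateGaussian (hpsd.smul (sq_nonneg σ)) t]
      have h5 : (t : Fin k → ℝ) ⬝ᵥ (σ ^ 2 • covM D f) *ᵥ t = σ ^ 2 * vD D F := by
        rw [Matrix.smul_mulVec, dotProduct_smul, smul_eq_mul]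
        congr 1
        exact covM_form hα hβ hG hf (fun j => t j)
      rw [h5]
      congr 1
      simp
    have h6 : ∀ n, charFun (ν n : Measure (EuclideanSpace ℝ (Fin k))) t
        = ∫ x, Complex.exp (((1 : ℝ) : ℂ) * x * Complex.I) ∂(ρ n : Measure ℝ) := by
      intro n
      rw [charFun_apply]
      show ∫ x, Complex.exp (inner ℝ x t * Complex.I) ∂((gibbs α β (Lam D n)).map (obs D f n))
        = ∫ x, Complex.exp (((1 : ℝ) : ℂ) * x * Complex.I) ∂((gibbs α β (Lam D n)).map (Xo D F n))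
      rw [integral_map (measurable_obs D f n).aemeasurable (by fun_prop),
        integral_map (measurable_Xo D F n).aemeasurable (by fun_prop)]
      congr 1
      funext ψ
      rw [inner_obs]
      simp [hF]
    rw [h4]
    exact h3.congr fun n => (h6 n).symm
  have h7 := (ProbabilityMeasure.tendsto_iff_forall_integral_tendsto.1 hmain) g
  refine h7.congr fun n => ?_
  show ∫ x, g x ∂((gibbs α β (Lam D n)).map (obs D f n)) = _
  rw [integral_map (measurable_obs D f n).aemeasurable g.continuous.aestronglyMeasurable]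

end Pool.Agent.LR
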