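import Pool.Agent.LR.B1.Pot

/-!
# LR-F-REALB: Laplace transform of the real Gaussian field with form `M`

PLAN. `M` is positive definite on `Supp O`; `ext0 O : (O → ℝ) → (W → ℝ)` (B1/Sum.lean), linear (`ext0L`).
`exists_pot` gives `u` with `M u φ = pr O a φ` for `φ` supported in `O`; completing the square
`pr O a φ - 1/2 M φ φ = 1/2 M u u - 1/2 M (φ - u) (φ - u)`, and `u = ext0 O u'` with `u' x = u x`
(`Supp.ext0_eq`), so the numerator is `exp (M u u / 2) * ∫ exp (-(1/2) M(ext0 (φ - u')))` and
`integral_sub_right_eq_self` (Lebesgue measure on `O → ℝ` is translation invariant). `IsPot.nsq_eq`.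
Positivity of the denominator (`gauss_int_pos`): the integrand is positive and continuous
(`continuous_form`), integrable (`gauss_integrable`): by `PDef.coer` it is bounded by
`∏ x, exp (-(c x²))` for some `c > 0` (`Integrable.fintype_prod`, `integrable_exp_neg_mul_sq`), then
`integral_exp_pos` (or `integral_pos_iff_support_of_nonneg`).
Keep the three statements; auxiliary lemmas private.
-/

set_option autoImplicit false

noncomputable section

open scoped BigOperators Topology
open MeasureTheory Filter Set

namespace Pool.Agent.LR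

variable {W : Type*} [DecidableEq W] {M : BF W} {O : Finset W}

theorem gauss_integrable (hM : IsForm M) (hP : PDef M O) :
    Integrable (fun φ : O → ℝ => Real.exp (-(1 / 2 * M (ext0 O φ) (ext0 O φ)))) := by
  obtain ⟨c, hc, h⟩ := hP.coer hM
  have h1 : Integrable (fun φ : O → ℝ => ∏ x, Real.exp (-(c / 2) * φ x ^ 2)) :=
    Integrable.fintype_prod (f := fun (_ : O) (t : ℝ) => Real.exp (-(c / 2) * t ^ 2))
      fun _ => integrable_exp_neg_mul_sq (by positivity)
  refine h1.mono' ?_ ?_
  · exact (Real.continuous_exp.comp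
      (continuous_const.mul (continuous_form M O)).neg).aestronglyMeasurable
  · refine Filter.Eventually.of_forall fun φ => ?_
    rw [Real.norm_eq_abs, abs_of_pos (Real.exp_pos _), ← Real.exp_sum]
    refine Real.exp_le_exp.2 ?_
    have h2 := h (ext0 O φ) (supp_ext0 φ)
    rw [← Finset.sum_coe_sort O (fun x => ext0 O φ x ^ 2)] at h2
    simp only [ext0_coe] at h2
    rw [← Finset.mul_sum]
    linarith

theorem gauss_int_pos (hM : IsForm M) (hP : PDef M O) :
    0 < ∫ φ : O → ℝ, Real.exp (-(1 / 2 * M (ext0 O φ) (ext0 O φ))) :=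
  integral_exp_pos (gauss_integrable hM hP)

theorem gauss_laplace (hM : IsForm M) (hP : PDef M O) (a : W → ℝ) :
    (∫ φ : O → ℝ, Real.exp (pr O a (ext0 O φ) - 1 / 2 * M (ext0 O φ) (ext0 O φ))) /
      (∫ φ : O → ℝ, Real.exp (-(1 / 2 * M (ext0 O φ) (ext0 O φ)))) =
    Real.exp (nsq M O a / 2) := by
  obtain ⟨u, hu⟩ := exists_pot hM hP a
  rw [hu.nsq_eq hM, div_eq_iff (gauss_int_pos hM hP).ne']
  have h1 : ∀ φ : O → ℝ, Real.exp (pr O a (ext0 O φ) - 1 / 2 * M (ext0 O φ) (ext0 O φ)) =
      Real.exp (M u u / 2) * Real.exp (-(1 / 2 * M (ext0 O (φ - fun x : O => u x))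
        (ext0 O (φ - fun x : O => u x)))) := by
    intro φ
    have e : ext0 O (φ - fun x : O => u x) = ext0 O φ - u := by
      have := map_sub (ext0L O) φ (fun x : O => u x)
      simp only [ext0L_apply] at this
      rw [this, hu.1.ext0_eq]
    rw [e, ← Real.exp_add]
    congr 1
    have := hu.square hM (supp_ext0 φ)
    linarith
  simp only [h1]
  rw [integral_const_mul]
  congr 1
  exact integral_sub_right_eq_self
    (fun φ : O → ℝ => Real.exp (-(1 / 2 * M (ext0 O φ) (ext0 O φ)))) (fun x : O => u x)

end Pool.Agent.LR
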