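import Pool.Agent.LR.B8.RealA
import Pool.Agent.LR.B8.RealB

/-! # Convergence of the real-valued field = convergence of the dual norms -/

set_option autoImplicit false

noncomputable section

open scoped BigOperators Topology
open MeasureTheory Filter Set

namespace Pool.Agent.LR

theorem zext_eq (Λ : Finset V) (φ : Λ → ℝ) : zext Λ φ = ext0 Λ φ := rfl

theorem real_laplace {α β : ℝ} (hα : 4 < α) (hβ : 0 < β) (D : Set P) (f : P → ℝ) (n : ℕ) :
    (∫ φ : (Lam D n) → ℝ, Real.exp (ob D f n (zext _ φ) - β * HE α (zext _ φ))) /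
      (∫ φ : (Lam D n) → ℝ, Real.exp (-(β * HE α (zext _ φ)))) =
    Real.exp (nsq (QD α β (Lam D n)) (Lam D n) (chg f n) / 2) := by
  rw [← gauss_laplace (isForm_QD hβ.le _) (pdef_QD (by linarith) hβ _) (chg f n)]
  have h : ∀ φ : (Lam D n) → ℝ, β * HE α (ext0 _ φ) =
      1 / 2 * QD α β (Lam D n) (ext0 _ φ) (ext0 _ φ) := fun φ => by
    rw [HE_eq_QD (by linarith) hβ.le _ (supp_ext0 φ)]
  simp only [ob_eq, zext_eq, h]

theorem realConv_iff {α β : ℝ} (hα : 4 < α) (hβ : 0 < β) (D : Set P) :
    RealConv α β D ↔ GConv α β D := by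
  have hc := cc_pos hα hβ
  have key : ∀ f : P → ℝ, vD D f / (2 * (β * ∑' v : V, len v ^ (2 - α))) =
      ((cc α β)⁻¹ * vD D f) / 2 := by
    intro f
    rw [← cc_eq hα]
    field_simp
  unfold RealConv GConv
  refine forall_congr' fun f => imp_congr_right fun _ => ?_
  simp only [real_laplace hα hβ, key]
  constructor
  · intro h
    have h1 := (Real.continuousAt_log (Real.exp_pos _).ne').tendsto.comp h
    simp only [Function.comp_def, Real.log_exp] at h1
    have h2 := h1.const_mul 2
    simpa [mul_div_cancel₀] using h2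
  · intro h
    exact (Real.continuous_exp.tendsto _).comp (h.div_const 2)

end Pool.Agent.LR
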