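import Pool.Agent.LR.B8.SlitB
import Pool.Agent.LR.B8.SlitC

/-! # The square with an irrational slit: the invariance principle fails -/

set_option autoImplicit false

noncomputable section

open scoped BigOperators Topology
open MeasureTheory Filter Set ProbabilityTheory

namespace Pool.Agent.LR

theorem slit_fail {α β σ₀ : ℝ} (hσ : 0 < σ₀) (h : InvPrinciple α β σ₀ sqD) :
    ∀ σ > 0, ¬ InvPrinciple α β σ slD := by
  intro σ hs hi
  have hL : ∀ᶠ n in atTop, Lam slD n = Lam sqD n :=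
    (eventually_ge_atTop 1).mono fun n hn => Lam_slit n hn
  have hsub : slD ⊆ sqD := sdiff_subset
  obtain ⟨f, hf, he, hpos⟩ := exists_eq
  have h1 := law_unique hL hi h hf (hf.mono hsub)
  rw [he] at h1
  have h2 : σ ^ 2 = σ₀ ^ 2 := mul_right_cancel₀ hpos.ne' h1
  obtain ⟨f', hf', hlt⟩ := exists_lt
  have h3 := law_unique hL hi h hf' (hf'.mono hsub)
  rw [h2] at h3
  have h4 : (0:ℝ) < σ₀ ^ 2 := by positivity
  have h5 : vD slD f' = vD sqD f' := mul_left_cancel₀ h4.ne' h3
  exact absurd h5 hlt.ne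

theorem slit_statement (hm : MainStatement)
    (hr : ∀ α β : ℝ, 4 < α → 0 < β → RealConv α β sqD) : SlitStatement := by
  refine ⟨slD, isOpen_slD, isBounded_slD, isConnected_slD, fun α hα => ?_⟩
  obtain ⟨β₀, h0, h⟩ := hm α hα
  refine ⟨β₀, h0, fun β hβ hlt => ?_⟩
  obtain ⟨_, σ₀, hσ₀, hi⟩ := h β hβ hlt
  exact slit_fail hσ₀ (hi sqD isOpen_sqD isBounded_sqD (hr α β hα hβ))

end Pool.Agent.LR
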