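import Pool.Agent.LR.B8.Lap
import Pool.Agent.LR.B8.Kap
import Pool.Agent.LR.B8.RealC
import Pool.Agent.LR.B8.LawC
import Pool.Agent.LR.B8.Green
import Pool.Agent.LR.B8.Slit

/-! # Assembly of the final theorem from 8.1, T3 and the existence of the effective stiffness -/

set_option autoImplicit false

noncomputable section

open scoped BigOperators Topology
open MeasureTheory Filter Set

namespace Pool.Agent.LR

/-- Statement of 8.1 (locality). -/
def LocalStatement : Prop :=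
  ∀ α : ℝ, 4 < α → ∃ ε₀ > 0, ∀ (β κ : ℝ), 0 < β → KapSpec α β κ → κ < cc α β →
    (∀ (Λ : Finset V) (h : V → ℝ), Supp Λ h → En (QD α β Λ) Λ h ≤ ε₀ / 2 * QD α β Λ h h) →
    LocUB α β κ

/-- Statement of T3. -/
def T3Statement : Prop :=
  ∀ α : ℝ, 4 < α → ∀ ε > (0 : ℝ), ∃ β₁ > 0, ∀ β : ℝ, 0 < β → β < β₁ →
    ∀ (Λ : Finset V) (h : V → ℝ), Supp Λ h → En (QD α β Λ) Λ h ≤ ε / 2 * QD α β Λ h h

/-- Statement of sections 2 and 3. -/
def KapStatement : Prop :=
  ∀ α β : ℝ, 4 < α → 0 < β → ∃ κ, KapSpec α β κ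

theorem main_of (hT : T3Statement) (hK : KapStatement) (hL : LocalStatement) : MainStatement := by
  intro α hα
  obtain ⟨ε₀, hε₀, hloc⟩ := hL α hα
  set ε : ℝ := min ε₀ (1 / 2) with hε
  have hε0 : 0 < ε := lt_min hε₀ (by norm_num)
  obtain ⟨β₁, hβ₁, ht⟩ := hT α hα ε hε0
  refine ⟨β₁, hβ₁, fun β hβ hlt => ⟨fun Λ => isProb_gibbs (by linarith) hβ Λ, ?_⟩⟩
  obtain ⟨κ, hκ⟩ := hK α β hα hβ
  have hc := cc_pos hα hβ
  have ht' := ht β hβ hlt
  have hκc : κ < cc α β := by
    have h1 := kap_le_of_t3 hα hβ hκ ht'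
    have h2 : ε * cc α β ≤ 1 / 2 * cc α β :=
      mul_le_mul_of_nonneg_right (min_le_right _ _) hc.le
    linarith
  have hq : ∀ (Λ : Finset V) (h : V → ℝ), Supp Λ h →
      En (QD α β Λ) Λ h ≤ ε₀ / 2 * QD α β Λ h h := by
    intro Λ h hs
    refine (ht' Λ h hs).trans (mul_le_mul_of_nonneg_right ?_ ((isForm_QD hβ.le Λ).nonneg h))
    have : ε ≤ ε₀ := min_le_left _ _
    linarith
  have hlo : LocUB α β κ := hloc β κ hβ hκ hκc hq
  have hpos : 0 < (cc α β)⁻¹ * (1 - κ / cc α β) := by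
    have : κ / cc α β < 1 := (div_lt_one hc).2 hκc
    exact mul_pos (inv_pos.2 hc) (by linarith)
  refine ⟨√((cc α β)⁻¹ * (1 - κ / cc α β)), Real.sqrt_pos.2 hpos, fun D hD hb hR => ?_⟩
  have hG := (realConv_iff hα hβ D).1 hR
  refine inv_of_laplace hα hβ (Real.sqrt_pos.2 hpos) hD hb hG fun f hf => ?_
  rw [Real.sq_sqrt hpos.le]
  exact laplace_of hα hβ hκ hlo hD hb hG hf

theorem domain_statement : DomainStatement := by
  intro D hD hb
  refine ⟨fun h => stable_of_segment hD hb h, fun hs α β hα hβ => ?_, fun f hf h0 => ?_,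
    fun f u hf hu => ?_⟩
  · exact (realConv_iff hα hβ D).2 fun f hf => gamD hα hβ hD hb hs f hf
  · exact vD_pos hb hf h0
  · exact vD_eq_of_classSol hD hb hf hu

theorem final_of (hT : T3Statement) (hK : KapStatement) (hL : LocalStatement) :
    MainStatement ∧ DomainStatement ∧ SlitStatement := by
  have hm := main_of hT hK hL
  refine ⟨hm, domain_statement, slit_statement hm fun α β hα hβ => ?_⟩
  have h := domain_statement sqD isOpen_sqD isBounded_sqD
  exact h.2.1 (h.1 segment_sqD) α β hα hβ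

end Pool.Agent.LR
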