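import Pool.Agent.LR.B8.Loc

/-! # LR-B8-Good: the good event of 8.1 from 7.4, 7.6 and 7.9 -/

set_option autoImplicit false

noncomputable section

open scoped BigOperators Topology
open MeasureTheory Filter Set

namespace Pool.Agent.LR.B8

open Classical in
theorem good_fin {α β : ℝ} (hβ : 0 < β) (z₀ : P) {ρ M δ : ℝ} (hM : 0 ≤ M)
    {n : ℕ} (hp : PDef (MP α β z₀ ρ M δ n) (SS z₀ ρ n)) {I : Finset V} {η' a b c : ℝ}
    (Ch : Finset V → Prop)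
    (h1 : EtA (JJ α β) (MP α β z₀ ρ M δ n) (SS z₀ ρ n) (outR z₀ ρ n) 0 0 (fun A _ =>
      if (A ∩ I).Nonempty then 1 else 0) ≤ a)
    (h2 : EtA (JJ α β) (MP α β z₀ ρ M δ n) (SS z₀ ρ n) (outR z₀ ρ n) 0 0 (fun A _ =>
      if Ch A then 0 else 1) ≤ b)
    (h3 : EtA (JJ α β) (MP α β z₀ ρ M δ n) (SS z₀ ρ n) (outR z₀ ρ n) 0 0 (fun A φ =>
      if Ch A ∧ η' < nsq (MP α β z₀ ρ M δ n) (SS z₀ ρ n \ A)
        (fb (pinF z₀ ρ M δ n) (restr A φ)) then 1 else 0) ≤ c) :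
    EtA (JJ α β) (MP α β z₀ ρ M δ n) (SS z₀ ρ n) (outR z₀ ρ n) 0 0 (fun A φ =>
        if Disjoint A I ∧ nsq (MP α β z₀ ρ M δ n) (SS z₀ ρ n \ A)
          (fb (pinF z₀ ρ M δ n) (restr A φ)) ≤ η' then 0 else 1) ≤ a + (b + c) := by
  have hmod : Mod (JJ α β) (pinF z₀ ρ M δ n) (SS z₀ ρ n) :=
    ⟨JJ_symm α β, fun x y => JJ_nonneg hβ.le x y, isForm_pinF z₀ ρ hM δ n, hp⟩
  have z0 : ∀ x ∈ SS z₀ ρ n, 0 ≤ (0 : V → ℝ) x := fun _ _ => le_rfl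
  have e1 := EtA_add (R := outR z₀ ρ n) (f := 0) (h := 0) hmod z0
    (Ξ := fun A _ => if (A ∩ I).Nonempty then (1 : ℝ) else 0)
    (Υ := fun A φ => (if Ch A then (0 : ℝ) else 1) +
      (if Ch A ∧ η' < nsq (MP α β z₀ ρ M δ n) (SS z₀ ρ n \ A)
        (fb (pinF z₀ ρ M δ n) (restr A φ)) then (1 : ℝ) else 0))
    (fun A _ => (Adm.of_bdd (C := 1) fun φ => by split_ifs <;> simp))
    (fun A _ => Adm.add (Adm.of_bdd (C := 1) fun φ => by split_ifs <;> simp)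
      (Adm.of_bdd (C := 1) fun φ => by split_ifs <;> simp))
  have e2 := EtA_add (R := outR z₀ ρ n) (f := 0) (h := 0) hmod z0
    (Ξ := fun A _ => if Ch A then (0 : ℝ) else 1)
    (Υ := fun A φ => if Ch A ∧ η' < nsq (MP α β z₀ ρ M δ n) (SS z₀ ρ n \ A)
        (fb (pinF z₀ ρ M δ n) (restr A φ)) then (1 : ℝ) else 0)
    (fun A _ => (Adm.of_bdd (C := 1) fun φ => by split_ifs <;> simp))
    (fun A _ => (Adm.of_bdd (C := 1) fun φ => by split_ifs <;> simp))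
  have e3 := EtA_mono (R := outR z₀ ρ n) (f := 0) (h := 0) hmod z0
    (Ξ := fun A φ => if Disjoint A I ∧ nsq (MP α β z₀ ρ M δ n) (SS z₀ ρ n \ A)
          (fb (pinF z₀ ρ M δ n) (restr A φ)) ≤ η' then (0 : ℝ) else 1)
    (Υ := fun A φ => (if (A ∩ I).Nonempty then (1 : ℝ) else 0) +
      ((if Ch A then (0 : ℝ) else 1) +
      (if Ch A ∧ η' < nsq (MP α β z₀ ρ M δ n) (SS z₀ ρ n \ A)
        (fb (pinF z₀ ρ M δ n) (restr A φ)) then (1 : ℝ) else 0)))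
    (fun A _ => (Adm.of_bdd (C := 1) fun φ => by split_ifs <;> simp))
    (fun A _ => Adm.add (Adm.of_bdd (C := 1) fun φ => by split_ifs <;> simp)
      (Adm.add (Adm.of_bdd (C := 1) fun φ => by split_ifs <;> simp)
        (Adm.of_bdd (C := 1) fun φ => by split_ifs <;> simp)))
    (fun A _ ψ _ => by
      by_cases c1 : Disjoint A I
      · have c1' : ¬ (A ∩ I).Nonempty := by
          rw [Finset.not_nonempty_iff_eq_empty, ← Finset.disjoint_iff_inter_eq_empty]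
          exact c1
        by_cases c2 : nsq (MP α β z₀ ρ M δ n) (SS z₀ ρ n \ A)
          (fb (pinF z₀ ρ M δ n) (restr A (emb (SS z₀ ρ n) ψ))) ≤ η'
        · rw [if_pos ⟨c1, c2⟩, if_neg c1']
          have : (0 : ℝ) ≤ (if Ch A then (0 : ℝ) else 1) := by split_ifs <;> norm_num
          have : (0 : ℝ) ≤ (if Ch A ∧ η' < nsq (MP α β z₀ ρ M δ n) (SS z₀ ρ n \ A)
            (fb (pinF z₀ ρ M δ n) (restr A (emb (SS z₀ ρ n) ψ))) then (1 : ℝ) else 0) := by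
            split_ifs <;> norm_num
          linarith
        · rw [if_neg (fun h => c2 h.2), if_neg c1']
          by_cases c3 : Ch A
          · rw [if_pos c3, if_pos ⟨c3, not_le.1 c2⟩]
            norm_num
          · rw [if_neg c3, if_neg (fun h => c3 h.1)]
            norm_num
      · have c1' : (A ∩ I).Nonempty := by
          by_contra hc
          rw [Finset.not_nonempty_iff_eq_empty, ← Finset.disjoint_iff_inter_eq_empty] at hc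
          exact c1 hc
        rw [if_neg (fun h => c1 h.1), if_pos c1']
        have : (0 : ℝ) ≤ (if Ch A then (0 : ℝ) else 1) := by split_ifs <;> norm_num
        have : (0 : ℝ) ≤ (if Ch A ∧ η' < nsq (MP α β z₀ ρ M δ n) (SS z₀ ρ n \ A)
            (fb (pinF z₀ ρ M δ n) (restr A (emb (SS z₀ ρ n) ψ))) then (1 : ℝ) else 0) := by
            split_ifs <;> norm_num
        linarith)
  rw [e1, e2] at e3
  exact e3.trans (add_le_add h1 (add_le_add h2 h3))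

open Classical in
theorem good_of {α β : ℝ} (hα : 4 < α) (hβ : 0 < β) (z₀ : P) {ρ : ℝ} (hρ : 0 < ρ)
    (Ch : ℕ → Finset V → Prop)
    (hcross : ∀ η > 0, ∃ M₀ ≥ 1, ∀ M ≥ M₀, ∃ δ₀ > 0, ∀ δ : ℝ, 0 < δ → δ ≤ δ₀ →
      ∀ᶠ n : ℕ in atTop, EtA (JJ α β) (MP α β z₀ ρ M δ n) (SS z₀ ρ n) (outR z₀ ρ n) 0 0
        (fun A _ => if (A ∩ inR z₀ ρ n).Nonempty then 1 else 0) ≤ η)
    (hlong : ∀ M δ : ℝ, 1 ≤ M → 0 < δ → δ ≤ ρ / 32 → ∀ η > 0,
      ∀ᶠ n : ℕ in atTop, EtA (JJ α β) (MP α β z₀ ρ M δ n) (SS z₀ ρ n) (outR z₀ ρ n) 0 0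
        (fun A _ => if Ch n A then 0 else 1) ≤ η)
    (hfb : ∀ M : ℝ, 1 ≤ M → ∀ η > 0, ∀ η' > 0, ∃ δ₀ > 0, ∀ δ : ℝ, 0 < δ → δ ≤ δ₀ →
      ∀ᶠ n : ℕ in atTop, EtA (JJ α β) (MP α β z₀ ρ M δ n) (SS z₀ ρ n) (outR z₀ ρ n) 0 0
        (fun A φ => if Ch n A ∧ η' < nsq (MP α β z₀ ρ M δ n) (SS z₀ ρ n \ A)
          (fb (pinF z₀ ρ M δ n) (restr A φ)) then 1 else 0) ≤ η) :
    ∀ η > 0, ∀ η' > 0, ∃ M ≥ 1, ∃ δ > 0, δ ≤ ρ / 8 ∧ ∀ᶠ n : ℕ in atTop,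
      EtA (JJ α β) (MP α β z₀ ρ M δ n) (SS z₀ ρ n) (outR z₀ ρ n) 0 0 (fun A φ =>
        if Disjoint A (inR z₀ ρ n) ∧ nsq (MP α β z₀ ρ M δ n) (SS z₀ ρ n \ A)
          (fb (pinF z₀ ρ M δ n) (restr A φ)) ≤ η' then 0 else 1) ≤ η := by
  intro η hη η' hη'
  obtain ⟨M, hM1, hM⟩ := hcross (η / 3) (by positivity)
  obtain ⟨δ₁, hδ₁, h1⟩ := hM M le_rfl
  obtain ⟨δ₂, hδ₂, h2⟩ := hfb M hM1 (η / 3) (by positivity) η' hη'
  set δ : ℝ := min (min δ₁ δ₂) (ρ / 32) with hδ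
  have hδ0 : 0 < δ := lt_min (lt_min hδ₁ hδ₂) (by positivity)
  have d1 : δ ≤ δ₁ := (min_le_left _ _).trans (min_le_left _ _)
  have d2 : δ ≤ δ₂ := (min_le_left _ _).trans (min_le_right _ _)
  have d3 : δ ≤ ρ / 32 := min_le_right _ _
  obtain ⟨Cp, hCp, hpoinc⟩ := B5.poinc hα hβ z₀ hρ
  refine ⟨M, hM1, δ, hδ0, by linarith, ?_⟩
  filter_upwards [h1 δ hδ0 d1, h2 δ hδ0 d2, hlong M δ hM1 hδ0 d3 (η / 3) (by positivity),
    hpoinc M δ hM1 hδ0 (by linarith), eventually_gt_atTop 0] with n a1 a2 a3 npo hn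
  have hp : PDef (MP α β z₀ ρ M δ n) (SS z₀ ρ n) := pdef_of_poinc hn hCp npo
  have := good_fin hβ z₀ (by linarith : 0 ≤ M) hp (Ch n) a1 a3 a2
  refine this.trans (le_of_eq ?_)
  ring

end Pool.Agent.LR.B8
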