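import Pool.Agent.LR.Forms
import Pool.Agent.LR.B8.Model

/-! # The energy of the problem file is the Dirichlet form -/

set_option autoImplicit false

noncomputable section

open scoped BigOperators Topology
open MeasureTheory Filter Set

namespace Pool.Agent.LR

/-- Convergence of the variances of the real-valued field. -/
def GConv (α β : ℝ) (D : Set P) : Prop :=
  ∀ f, Test D f → Tendsto (fun n => nsq (QD α β (Lam D n)) (Lam D n) (chg f n)) atTop
    (𝓝 ((cc α β)⁻¹ * vD D f))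

private theorem hasSum_fiber (x : V) {h : V → ℝ} {s : ℝ} (hs : HasSum h s) :
    HasSum (fun p : V × V => if p.1 = x then h p.2 else 0) s := by
  have hi : Function.Injective (fun y : V => ((x, y) : V × V)) := fun a b hab => by
    simpa using hab
  have h0 : ∀ p : V × V, p ∉ Set.range (fun y : V => ((x, y) : V × V)) →
      (fun p : V × V => if p.1 = x then h p.2 else 0) p = 0 := by
    rintro ⟨a, b⟩ hp
    have : a ≠ x := fun e => hp ⟨b, by simp [e]⟩
    simp [this]
  rw [← hi.hasSum_iff h0]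
  have e : ((fun p : V × V => if p.1 = x then h p.2 else 0) ∘ fun y : V => ((x, y) : V × V)) = h := by
    funext y
    simp
  rw [e]
  exact hs

private theorem hasSum_fiber' (x : V) {h : V → ℝ} {s : ℝ} (hs : HasSum h s) :
    HasSum (fun p : V × V => if p.2 = x then h p.1 else 0) s := by
  have := (Equiv.prodComm V V).hasSum_iff.2 (hasSum_fiber x hs)
  exact this

theorem HE_eq_QD {α β : ℝ} (hα : 2 < α) (hβ : 0 ≤ β) (Λ : Finset V) {φ : V → ℝ}
    (hφ : Supp Λ φ) : β * HE α φ = 1 / 2 * QD α β Λ φ φ := by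
  classical
  -- the three families
  have hin : ∀ x : V, HasSum (fun y : V => if y ∈ Λ then JJ α β x y / 4 * (φ x - φ y) ^ 2 else 0)
      (∑ y ∈ Λ, JJ α β x y / 4 * (φ x - φ y) ^ 2) := by
    intro x
    have h : HasSum (fun y : V => if y ∈ Λ then JJ α β x y / 4 * (φ x - φ y) ^ 2 else 0)
        (∑ y ∈ Λ, (if y ∈ Λ then JJ α β x y / 4 * (φ x - φ y) ^ 2 else 0)) :=
      hasSum_sum_of_ne_finset_zero (fun y hy => by simp [hy])
    have e : ∑ y ∈ Λ, (if y ∈ Λ then JJ α β x y / 4 * (φ x - φ y) ^ 2 else 0) =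
        ∑ y ∈ Λ, JJ α β x y / 4 * (φ x - φ y) ^ 2 :=
      Finset.sum_congr rfl fun y hy => by rw [if_pos hy]
    rw [e] at h
    exact h
  have hout : ∀ x : V, HasSum (fun y : V => (if y ∈ Λ then 0 else JJ α β x y) * (φ x ^ 2 / 4))
      (kil α β Λ x * (φ x ^ 2 / 4)) := fun x => (summable_kil hα hβ Λ x).hasSum.mul_right _
  have s1 := hasSum_sum (s := Λ) (fun x _ => hasSum_fiber x (hin x))
  have s2 := hasSum_sum (s := Λ) (fun x _ => hasSum_fiber x (hout x))
  have s3 := hasSum_sum (s := Λ) (fun x _ => hasSum_fiber' x (hout x))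
  have s := (s1.add s2).add s3
  have e : ∀ p : V × V, β * (len (p.1 - p.2) ^ (-α) * (φ p.1 - φ p.2) ^ 2) =
      (∑ x ∈ Λ, (if p.1 = x then (if p.2 ∈ Λ then JJ α β x p.2 / 4 * (φ x - φ p.2) ^ 2 else 0)
        else 0)) +
      (∑ x ∈ Λ, (if p.1 = x then (if p.2 ∈ Λ then 0 else JJ α β x p.2) * (φ x ^ 2 / 4) else 0)) +
      (∑ x ∈ Λ, (if p.2 = x then (if p.1 ∈ Λ then 0 else JJ α β x p.1) * (φ x ^ 2 / 4) else 0)) := by
    intro p
    have hJ : β * len (p.1 - p.2) ^ (-α) = JJ α β p.1 p.2 / 4 := by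
      unfold JJ
      rw [Jc_eq_rpow (by linarith)]; ring
    rw [← mul_assoc, hJ]
    simp only [Finset.sum_ite_eq]
    by_cases h1 : p.1 ∈ Λ <;> by_cases h2 : p.2 ∈ Λ
    · simp [h1, h2]
    · simp only [h1, h2, if_true, if_false, hφ _ h2]; ring
    · simp only [h1, h2, if_true, if_false, hφ _ h1, JJ_symm α β p.1 p.2]; ring
    · simp only [h1, h2, if_false, hφ _ h1, hφ _ h2]; ring
  have s' : HasSum (fun p : V × V => β * (len (p.1 - p.2) ^ (-α) * (φ p.1 - φ p.2) ^ 2))
      (∑ x ∈ Λ, ∑ y ∈ Λ, JJ α β x y / 4 * (φ x - φ y) ^ 2 +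
        ∑ x ∈ Λ, kil α β Λ x * (φ x ^ 2 / 4) + ∑ x ∈ Λ, kil α β Λ x * (φ x ^ 2 / 4)) := by
    rw [show (fun p : V × V => β * (len (p.1 - p.2) ^ (-α) * (φ p.1 - φ p.2) ^ 2)) = _ from
      funext e]
    exact s
  unfold HE
  rw [← tsum_mul_left, s'.tsum_eq, QD_self, mul_add, add_assoc]
  congr 1
  · rw [Finset.mul_sum]
    refine Finset.sum_congr rfl fun x _ => ?_
    rw [Finset.mul_sum]
    refine Finset.sum_congr rfl fun y _ => by ring
  · rw [Finset.mul_sum, ← Finset.sum_add_distrib]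
    refine Finset.sum_congr rfl fun x _ => by ring

theorem cc_eq {α β : ℝ} (hα : 4 < α) : cc α β = β * ∑' v : V, len v ^ (2 - α) := by
  unfold cc
  have h : ∀ v : V, Jc α β v * len v ^ 2 = (4 * β) * len v ^ (2 - α) := fun v => by
    rw [Jc_mul_len_sq hα, neg_sub]
  simp only [h]
  rw [tsum_mul_left]; ring

/-- the observable is the pairing with the macroscopic charge -/
theorem ob_eq (D : Set P) (f : P → ℝ) (n : ℕ) (φ : V → ℝ) :
    ob D f n φ = pr (Lam D n) (chg f n) φ := by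
  unfold ob pr chg
  rw [Finset.mul_sum]
  refine Finset.sum_congr rfl fun x _ => ?_
  rw [div_eq_mul_inv]; ring

end Pool.Agent.LR
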