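import Pool.Agent.LR.B8.Main82
import Pool.Agent.LR.B8.Seg
import Pool.Agent.LR.B8.RealA
import Pool.Agent.LR.B3.GamD2
import Pool.Agent.LR.B1.Mom

/-!
# 8.3: the limit of the Laplace functional

`Λ_n(f) = ‖f_n‖²/2 - E(u_n)`, `u_n` the potential of `f_n`; `W = φ/c`, `φ` a near-maximiser of
`2∫fφ - D(φ)`; `Q(u_n - W_n) → (v - J(φ))/c`, small; `E(W_n) → κ/2 D(W)`.
-/

set_option autoImplicit false

noncomputable section

open scoped BigOperators Topology
open MeasureTheory Filter Set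

namespace Pool.Agent.LR

/-- Conclusion of 8.1 for given parameters. -/
def LocUB (α β κ : ℝ) : Prop :=
  ∀ (z₀ : P) (ρ K : ℝ), 0 < ρ → ∀ H : P → ℝ, ContDiff ℝ 2 H → HasCompactSupport H →
    (∀ z ∈ tsupport H, lenP (z - z₀) < ρ) → ∀ Λ : ℕ → Finset V,
    (∀ᶠ n : ℕ in atTop, ∀ x, lenP (sc n x - z₀) ≤ 6 * ρ → x ∈ Λ n) →
    (∀ᶠ n : ℕ in atTop, ∀ x ∈ Λ n, lenP (sc n x) ≤ K) → ∀ ε > 0, ∀ᶠ n in atTop,
      En (QD α β (Λ n)) (Λ n) (smp H n) ≤ κ / 2 * Dir H + ε

/-- the supremum over multiples: `(∫ f φ)² ≤ v_D(f) D(φ)` -/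
theorem int_sq_le {D : Set P} (hb : Bornology.IsBounded D) {f φ : P → ℝ} (hf : Test D f)
    (hφ : Test D φ) : (∫ z, f z * φ z) ^ 2 ≤ vD D f * Dir φ := by
  set a := ∫ z, f z * φ z with ha
  have key : ∀ s : ℝ, 0 ≤ Dir φ * (s * s) + (-(2 * a)) * s + vD D f := by
    intro s
    have h1 := JF_le_vD hb hf.c1c (hφ.smul s)
    unfold JF at h1
    rw [Dir_smul hφ.c1c] at h1
    have h2 : ∫ z, f z * (s • φ) z = s * a := by
      rw [ha, ← integral_const_mul]
      refine integral_congr_ae (Eventually.of_forall fun z => ?_)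
      simp only [Pi.smul_apply, smul_eq_mul]; ring
    rw [h2] at h1
    nlinarith
  have := discrim_le_zero key
  unfold discrim at this
  nlinarith

/-- near-maximisers have nearly the maximal energy -/
theorem near_sqrt {D : Set P} (hb : Bornology.IsBounded D) {f φ : P → ℝ} (hf : Test D f)
    (hφ : Test D φ) {δ : ℝ} (hδ : vD D f - δ < JF f φ) :
    |√(Dir φ) - √(vD D f)| ≤ √δ := by
  have hv := vD_nonneg hb hf.c1c
  have hd := Dir_nonneg φ
  have h1 := int_sq_le hb hf hφ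
  set a := ∫ z, f z * φ z with ha
  have h2 : a ≤ √(vD D f) * √(Dir φ) := by
    rw [← Real.sqrt_mul hv]
    exact Real.le_sqrt_of_sq_le h1
  have h3 : JF f φ = 2 * a - Dir φ := rfl
  have s1 := Real.sq_sqrt hv
  have s2 := Real.sq_sqrt hd
  have h4 : (√(Dir φ) - √(vD D f)) ^ 2 ≤ δ := by nlinarith
  exact Real.abs_le_sqrt h4

/-- The limit of `Q(u_n - W_n)`. -/
theorem tendsto_dist {α β : ℝ} (hα : 4 < α) (hβ : 0 < β) {D : Set P}
    (hb : Bornology.IsBounded D) (hG : GConv α β D) {f φ : P → ℝ} (hf : Test D f)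
    (hφ : Test D φ) (u : ℕ → V → ℝ)
    (hu : ∀ n, IsPot (QD α β (Lam D n)) (Lam D n) (chg f n) (u n)) :
    Tendsto (fun n => QD α β (Lam D n) (u n - smp ((cc α β)⁻¹ • φ) n)
        (u n - smp ((cc α β)⁻¹ • φ) n)) atTop
      (𝓝 ((cc α β)⁻¹ * (vD D f - JF f φ))) := by
  have hc := cc_pos hα hβ
  set W : P → ℝ := (cc α β)⁻¹ • φ with hW
  have hWT : Test D W := hφ.smul _
  have hsup : ∀ᶠ n in atTop, Supp (Lam D n) (smp W n) := by
    filter_upwards [eventually_gt_atTop 0] with n hn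
    exact B8.supp_smp hb hWT hn
  have h1 := hG f hf
  have h2 := qd_smp hα hβ W (hWT.smooth.of_le B8.two_le_smooth) hWT.comp (fun n => Lam D n) hsup
  have h3 := chg_smp hf.smooth.continuous hf.comp hWT.smooth.continuous (fun n => Lam D n) (by
    filter_upwards [hsup] with n hn x hx
    rw [hn x hx, mul_zero])
  have h4 := (h1.sub (h3.const_mul 2)).add h2
  have e : (cc α β)⁻¹ * vD D f - 2 * (∫ z, f z * W z) + cc α β * Dir W =
      (cc α β)⁻¹ * (vD D f - JF f φ) := by
    have e1 : ∫ z, f z * W z = (cc α β)⁻¹ * ∫ z, f z * φ z := by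
      rw [← integral_const_mul]
      refine integral_congr_ae (Eventually.of_forall fun z => ?_)
      simp only [hW, Pi.smul_apply, smul_eq_mul]; ring
    rw [e1, hW, Dir_smul hφ.c1c]
    unfold JF
    field_simp
    ring
  rw [e] at h4
  refine h4.congr' ?_
  filter_upwards [hsup] with n hn
  have hF := isForm_QD (α := α) hβ.le (Lam D n)
  rw [(hu n).nsq_eq hF, hF.sub_sq, (hu n).2 _ hn]

theorem laplace_of {α β κ : ℝ} (hα : 4 < α) (hβ : 0 < β) (hκ : KapSpec α β κ)
    (hloc : LocUB α β κ) {D : Set P} (hD : IsOpen D) (hb : Bornology.IsBounded D)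
    (hG : GConv α β D) {f : P → ℝ} (hf : Test D f) :
    Tendsto (fun n => La (QD α β (Lam D n)) (Lam D n) (chg f n)) atTop
      (𝓝 ((cc α β)⁻¹ * (1 - κ / cc α β) / 2 * vD D f)) := by
  classical
  have hα2 : 2 < α := by linarith
  have hc := cc_pos hα hβ
  have hκ0 := hκ.nonneg
  have hv := vD_nonneg hb hf.c1c
  have hF := fun n => isForm_QD (α := α) hβ.le (Lam D n)
  have hP := fun n => pdef_QD hα2 hβ (Lam D n)
  choose u hu using fun n => exists_pot (hF n) (hP n) (chg f n)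
  -- the energies of the potentials
  set E := fun n => En (QD α β (Lam D n)) (Lam D n) (u n) with hE
  have hE0 : ∀ n, 0 ≤ E n := fun n => En_nonneg (hF n) (hP n) _
  set L : ℝ := √κ / cc α β * √(vD D f) with hL
  have hL0 : 0 ≤ L := by positivity
  have main : Tendsto (fun n => √(2 * E n)) atTop (𝓝 L) := by
    rw [Metric.tendsto_atTop]
    intro ε hε
    -- choose δ
    set A : ℝ := √((cc α β)⁻¹) + √κ / cc α β with hA
    have hA0 : 0 < A := by
      have : 0 < √((cc α β)⁻¹) := Real.sqrt_pos.2 (inv_pos.2 hc)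
      positivity
    set δ : ℝ := (ε / (4 * A)) ^ 2 with hδ
    have hδ0 : 0 < δ := by positivity
    have hsδ : √δ = ε / (4 * A) := Real.sqrt_sq (by positivity)
    obtain ⟨φ, hφ, hJ⟩ := exists_near (f := f) (r := vD D f - δ) (U := D) (by linarith)
    have hJle := JF_le_vD hb hf.c1c hφ
    set W : P → ℝ := (cc α β)⁻¹ • φ with hW
    have hWT : Test D W := hφ.smul _
    have t1 := tendsto_dist hα hβ hb hG hf hφ u hu
    have t2 := B8.dir_lim_of hα hβ hκ hloc hD hb hWT
    have t1' := (Real.continuous_sqrt.tendsto _).comp t1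
    have t2' := (Real.continuous_sqrt.tendsto _).comp (t2.const_mul 2)
    have b1 : √((cc α β)⁻¹ * (vD D f - JF f φ)) ≤ √((cc α β)⁻¹) * √δ := by
      rw [← Real.sqrt_mul (inv_pos.2 hc).le]
      exact Real.sqrt_le_sqrt (mul_le_mul_of_nonneg_left (by linarith) (inv_pos.2 hc).le)
    have b2 : √(2 * (κ / 2 * Dir W)) = √κ / cc α β * √(Dir φ) := by
      rw [hW, Dir_smul hφ.c1c]
      have : 2 * (κ / 2 * ((cc α β)⁻¹ ^ 2 * Dir φ)) = κ * ((cc α β)⁻¹ ^ 2 * Dir φ) := by ring
      rw [this, Real.sqrt_mul hκ0, Real.sqrt_mul (by positivity), Real.sqrt_sq (inv_pos.2 hc).le]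
      field_simp
    have b3 := near_sqrt hb hf hφ hJ
    have b4 : |√κ / cc α β * √(Dir φ) - L| ≤ √κ / cc α β * √δ := by
      rw [hL, ← mul_sub, abs_mul, abs_of_nonneg (by positivity)]
      exact mul_le_mul_of_nonneg_left b3 (by positivity)
    rw [Metric.tendsto_atTop] at t1' t2'
    obtain ⟨N1, hN1⟩ := t1' (ε / 4) (by positivity)
    obtain ⟨N2, hN2⟩ := t2' (ε / 4) (by positivity)
    refine ⟨max N1 N2, fun n hn => ?_⟩
    have k1 := hN1 n ((le_max_left _ _).trans hn)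
    have k2 := hN2 n ((le_max_right _ _).trans hn)
    simp only [Function.comp_apply] at k1 k2
    rw [b2] at k2
    rw [Real.dist_eq] at k1 k2 ⊢
    have k3 := En_sqrt_lip (hF n) (hP n) (u n) (smp W n)
    have k4 : √δ * A = ε / 4 := by
      rw [hsδ]; field_simp
    have k5 : √(QD α β (Lam D n) (u n - smp W n) (u n - smp W n)) ≤
        √((cc α β)⁻¹) * √δ + ε / 4 := by
      have := abs_lt.1 k1
      linarith [this.2]
    have k6 := abs_le.1 k3
    have k7 := abs_lt.1 k2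
    have k8 := abs_le.1 b4
    have k9 : √((cc α β)⁻¹) * √δ + √κ / cc α β * √δ = ε / 4 := by
      rw [← k4, hA]; ring
    rw [abs_lt]
    constructor
    · linarith [k6.1, k7.1, k8.1]
    · linarith [k6.2, k7.2, k8.2]
  have main2 : Tendsto E atTop (𝓝 (L ^ 2 / 2)) := by
    have h := (main.pow 2).div_const 2
    refine h.congr fun n => ?_
    rw [Real.sq_sqrt (by have := hE0 n; positivity)]; ring
  have h5 := ((hG f hf).div_const 2).sub main2
  have e : (cc α β)⁻¹ * vD D f / 2 - L ^ 2 / 2 =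
      (cc α β)⁻¹ * (1 - κ / cc α β) / 2 * vD D f := by
    rw [hL, mul_pow, div_pow, Real.sq_sqrt hκ0, Real.sq_sqrt hv]
    field_simp
  rw [e] at h5
  refine h5.congr fun n => ?_
  exact (La_eq (hF n) (hP n) (hu n)).symm

end Pool.Agent.LR
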