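import Pool.Agent.LR.B8.RealA
import Pool.Agent.LR.B1.Pot

/-!
# LR-F-LAWA: the Gibbs measure of the problem file and the expectations `Ex`

PLAN. `fieldE Λ : (Λ → ℤ) ≃ Field Λ` = extension by zero / restriction; `((fieldE Λ ψ).1 x : ℝ) = emb Λ ψ x`.
(1) `exp_HH`: by `HE_eq_QD` (RealA.lean) and `supp_emb`, `β * HH α (fieldE Λ ψ).1 = 1/2 * QD (emb Λ ψ) (emb Λ ψ)`
and `wt M Λ 0 ψ = exp (-(1/2) M (emb ψ - 0) (emb ψ - 0))`.
(2) the normalising constant in `gibbs` is `∑' ψ : Λ → ℤ, ENNReal.ofReal (wt ..)` (`Equiv.tsum_eq`)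
`= ENNReal.ofReal (Th ..)` (`ENNReal.ofReal_tsum_of_nonneg`, `summable_wt`), neither `0` (`Th_pos`) nor `⊤`.
(3) `isProb_gibbs`: total mass `= c⁻¹ * ∑' weight = 1` (`Measure.smul_apply`, `Measure.sum_apply`, dirac of
`univ` is `1`, `ENNReal.inv_mul_cancel`).
(4) `integral_gibbs`: `V → ℤ` has measurable singletons and `Field Λ` is countable. Rewrite the measure as
`Measure.sum` of the scaled Dirac masses; `integral_smul_measure`, `integral_sum_measure`, `integral_dirac`;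
integrability from `summable_wt_mul` applied to `|G|` (`HasFiniteIntegral` by `lintegral_sum_measure` or
`integrable_of_summable_norm_...`; any route). Division by `Th`.
Keep the statements; auxiliary lemmas private.
-/

set_option autoImplicit false

noncomputable section

open scoped BigOperators Topology
open MeasureTheory Filter Set

namespace Pool.Agent.LR

/-- Extension by zero, as an equivalence. -/
def fieldE (Λ : Finset V) : (Λ → ℤ) ≃ Field Λ where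
  toFun ψ := ⟨fun x => if h : x ∈ Λ then ψ ⟨x, h⟩ else 0, fun x hx => by simp [hx]⟩
  invFun ψ := fun x => ψ.1 x
  left_inv ψ := by ext x; simp
  right_inv ψ := by
    apply Subtype.ext
    funext x
    by_cases h : x ∈ Λ
    · simp [h]
    · simp [h, ψ.2 x h]

theorem fieldE_coe (Λ : Finset V) (ψ : Λ → ℤ) (x : V) :
    ((((fieldE Λ ψ).1 x : ℤ)) : ℝ) = emb Λ ψ x := by
  by_cases h : x ∈ Λ
  · simp [fieldE, emb, h]
  · simp [fieldE, emb, h]

theorem exp_HH {α β : ℝ} (hα : 2 < α) (hβ : 0 ≤ β) (Λ : Finset V) (ψ : Λ → ℤ) :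
    Real.exp (-(β * HH α (fieldE Λ ψ).1)) = wt (QD α β Λ) Λ 0 ψ := by
  have h1 : HH α (fieldE Λ ψ).1 = HE α (emb Λ ψ) := by
    unfold HH
    congr 1
    funext x
    exact fieldE_coe Λ ψ x
  have h2 := HE_eq_QD hα hβ Λ (supp_emb ψ)
  unfold wt
  rw [h1, h2, sub_zero]
  congr 1
  ring

private theorem lawA_countable (Λ : Finset V) : Countable (Field Λ) :=
  (fieldE Λ).symm.injective.countable

private theorem lawA_tsum {α β : ℝ} (hα : 2 < α) (hβ : 0 < β) (Λ : Finset V)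
    {F : (V → ℤ) → ℝ} (hF0 : ∀ ψ, 0 ≤ F ψ) (hF : Tame (fun ψ : Λ → ℤ => F (fieldE Λ ψ).1)) :
    ∑' ψ : Field Λ, ENNReal.ofReal (Real.exp (-(β * HH α ψ.1))) * ENNReal.ofReal (F ψ.1) =
      ENNReal.ofReal (∑' ψ : Λ → ℤ, wt (QD α β Λ) Λ 0 ψ * F (fieldE Λ ψ).1) := by
  rw [← (fieldE Λ).tsum_eq]
  rw [ENNReal.ofReal_tsum_of_nonneg]
  · refine tsum_congr fun ψ => ?_
    rw [exp_HH hα hβ.le, ENNReal.ofReal_mul (wt_pos _ _ _ _).le]
  · exact fun ψ => mul_nonneg (wt_pos _ _ _ _).le (hF0 _)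
  · exact summable_wt_mul (isForm_QD hβ.le Λ) (pdef_QD hα hβ Λ) 0 hF

private theorem lawA_Z {α β : ℝ} (hα : 2 < α) (hβ : 0 < β) (Λ : Finset V) :
    ∑' ψ : Field Λ, ENNReal.ofReal (Real.exp (-(β * HH α ψ.1))) =
      ENNReal.ofReal (Th (QD α β Λ) Λ 0) := by
  have h := lawA_tsum hα hβ Λ (F := fun _ => 1) (fun _ => zero_le_one) (tame_const 1)
  simp only [ENNReal.ofReal_one, mul_one] at h
  exact h

private theorem lawA_Z0 {α β : ℝ} (hα : 2 < α) (hβ : 0 < β) (Λ : Finset V) :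
    ENNReal.ofReal (Th (QD α β Λ) Λ 0) ≠ 0 ∧ ENNReal.ofReal (Th (QD α β Λ) Λ 0) ≠ ⊤ :=
  ⟨(ENNReal.ofReal_pos.2 (Th_pos (isForm_QD hβ.le Λ) (pdef_QD hα hβ Λ) 0)).ne',
    ENNReal.ofReal_ne_top⟩

theorem isProb_gibbs {α β : ℝ} (hα : 2 < α) (hβ : 0 < β) (Λ : Finset V) :
    IsProbabilityMeasure (gibbs α β Λ) := by
  constructor
  unfold gibbs
  rw [Measure.smul_apply, Measure.sum_apply _ MeasurableSet.univ]
  have h1 : ∀ ψ : Field Λ, (ENNReal.ofReal (Real.exp (-(β * HH α ψ.1))) •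
      Measure.dirac ψ.1 : Measure (V → ℤ)) univ = ENNReal.ofReal (Real.exp (-(β * HH α ψ.1))) := by
    intro ψ
    rw [Measure.smul_apply, measure_univ, smul_eq_mul, mul_one]
  simp only [h1]
  rw [lawA_Z hα hβ, smul_eq_mul]
  exact ENNReal.inv_mul_cancel (lawA_Z0 hα hβ Λ).1 (lawA_Z0 hα hβ Λ).2

private theorem lawA_int {α β : ℝ} (hα : 2 < α) (hβ : 0 < β) (Λ : Finset V)
    {G : (V → ℤ) → ℝ} (hG : Tame (fun ψ : Λ → ℤ => G (fieldE Λ ψ).1)) :
    Integrable G (Measure.sum (fun ψ : Field Λ =>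
      ENNReal.ofReal (Real.exp (-(β * HH α ψ.1))) • Measure.dirac ψ.1)) := by
  have := lawA_countable Λ
  constructor
  · rw [aestronglyMeasurable_sum_measure_iff]
    intro ψ
    exact aestronglyMeasurable_dirac.smul_measure _
  · unfold HasFiniteIntegral
    rw [lintegral_sum_measure]
    have h1 : ∀ ψ : Field Λ, ∫⁻ a, ‖G a‖ₑ ∂(ENNReal.ofReal (Real.exp (-(β * HH α ψ.1))) •
        Measure.dirac ψ.1 : Measure (V → ℤ)) =
        ENNReal.ofReal (Real.exp (-(β * HH α ψ.1))) * ENNReal.ofReal |G ψ.1| := by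
      intro ψ
      rw [lintegral_smul_measure, lintegral_dirac, smul_eq_mul, ← Real.enorm_eq_ofReal_abs]
    simp only [h1]
    rw [lawA_tsum hα hβ Λ (F := fun ψ => |G ψ|) (fun ψ => abs_nonneg _) hG.abs]
    exact ENNReal.ofReal_lt_top

theorem integrable_gibbs {α β : ℝ} (hα : 2 < α) (hβ : 0 < β) (Λ : Finset V)
    {G : (V → ℤ) → ℝ} (hG : Tame (fun ψ : Λ → ℤ => G (fieldE Λ ψ).1)) :
    Integrable G (gibbs α β Λ) := by
  unfold gibbs
  refine (lawA_int hα hβ Λ hG).smul_measure ?_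
  rw [lawA_Z hα hβ]
  exact ENNReal.inv_ne_top.2 (lawA_Z0 hα hβ Λ).1

theorem integral_gibbs {α β : ℝ} (hα : 2 < α) (hβ : 0 < β) (Λ : Finset V)
    {G : (V → ℤ) → ℝ} (hG : Tame (fun ψ : Λ → ℤ => G (fieldE Λ ψ).1)) :
    ∫ ψ, G ψ ∂(gibbs α β Λ) = Ex (QD α β Λ) Λ 0 (fun ψ => G (fieldE Λ ψ).1) := by
  unfold gibbs
  rw [integral_smul_measure, integral_sum_measure (lawA_int hα hβ Λ hG), lawA_Z hα hβ]
  have h1 : ∀ ψ : Field Λ, ∫ a, G a ∂(ENNReal.ofReal (Real.exp (-(β * HH α ψ.1))) •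
      Measure.dirac ψ.1 : Measure (V → ℤ)) = Real.exp (-(β * HH α ψ.1)) * G ψ.1 := by
    intro ψ
    rw [integral_smul_measure, integral_dirac, ENNReal.toReal_ofReal (Real.exp_pos _).le,
      smul_eq_mul]
  simp only [h1]
  rw [← (fieldE Λ).tsum_eq]
  have h2 : ∀ ψ : Λ → ℤ, Real.exp (-(β * HH α (fieldE Λ ψ).1)) * G (fieldE Λ ψ).1 =
      wt (QD α β Λ) Λ 0 ψ * G (fieldE Λ ψ).1 := fun ψ => by rw [exp_HH hα hβ.le]
  simp only [h2]
  unfold Ex
  rw [ENNReal.toReal_inv, ENNReal.toReal_ofReal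
    (Th_pos (isForm_QD hβ.le Λ) (pdef_QD hα hβ Λ) 0).le, smul_eq_mul, div_eq_inv_mul]

end Pool.Agent.LR
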