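import Pool.Agent.LR.B8.Main81
import Pool.Agent.LR.B8.Calc
import Pool.Agent.LR.B5.Green
import Pool.Agent.LR.B3.QdSmp

/-! # LR-B8-Loc: locality (8.1), final form, from the good event and exactness -/

set_option autoImplicit false

noncomputable section

open scoped BigOperators Topology
open MeasureTheory Filter Set

namespace Pool.Agent.LR.B8

theorem tendsto_rpow_log {s : ℝ} (hs : 0 < s) :
    Tendsto (fun n : ℕ => (n : ℝ) ^ (-s) * Real.log n ^ 2) atTop (𝓝 0) := by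
  have h1 := Real.tendsto_pow_log_div_mul_add_atTop 1 0 2 one_ne_zero
  have h2 : Tendsto (fun x : ℝ => x ^ s) atTop atTop := tendsto_rpow_atTop hs
  have h3 := (h1.comp h2).comp (tendsto_natCast_atTop_atTop (R := ℝ))
  have h4 : Tendsto (fun n : ℕ => (1 / s ^ 2) * (Real.log ((n : ℝ) ^ s) ^ 2 /
      (1 * (n : ℝ) ^ s + 0))) atTop (𝓝 ((1 / s ^ 2) * 0)) := h3.const_mul _
  rw [mul_zero] at h4
  refine h4.congr' ?_
  filter_upwards [eventually_gt_atTop 0] with n hn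
  have hn' : (0 : ℝ) < n := Nat.cast_pos.2 hn
  rw [Real.log_rpow hn', Real.rpow_neg hn'.le, one_mul, add_zero]
  have := Real.rpow_pos_of_pos hn' s
  field_simp

theorem nsq_single_le {M : BF V} {S O : Finset V} (hM : IsForm M) (hp : PDef M S) (hO : O ⊆ S)
    {B : ℝ} (hB : 0 ≤ B) (h : ∀ φ : V → ℝ, ∀ x ∈ S, φ x ^ 2 ≤ B * M φ φ) {x : V} (hx : x ∈ O) :
    nsq M O (Pi.single x 1) ≤ B := by
  refine (nsq_mono hM hp hO _).trans ?_
  refine nsq_le_of_sq hM hp _ hB fun φ _ => ?_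
  rw [pr_single (hO hx)]
  exact h φ x (hO hx)

theorem nsq_sum_le {M : BF V} {S : Finset V} (hM : IsForm M) (hp : PDef M S)
    {B t : ℝ} (hB : 0 ≤ B) (ht : 0 ≤ t) (h : ∀ φ : V → ℝ, ∀ x ∈ S, φ x ^ 2 ≤ B * M φ φ)
    (g : V → ℝ) (hg : ∀ x ∈ S, |g x| ≤ t) :
    nsq M S g ≤ ((S.card : ℝ) * t) ^ 2 * B := by
  refine nsq_le_of_sq hM hp _ (by positivity) fun φ _ => ?_
  have hMφ := hM.nonneg φ
  have h1 : |pr S g φ| ≤ (S.card : ℝ) * (t * Real.sqrt (B * M φ φ)) := by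
    unfold pr
    calc |∑ x ∈ S, g x * φ x| ≤ ∑ x ∈ S, |g x * φ x| := Finset.abs_sum_le_sum_abs _ _
      _ ≤ ∑ _x ∈ S, t * Real.sqrt (B * M φ φ) := by
          refine Finset.sum_le_sum fun x hx => ?_
          rw [abs_mul]
          exact mul_le_mul (hg x hx) (Real.abs_le_sqrt (h φ x hx)) (abs_nonneg _) ht
      _ = _ := by rw [Finset.sum_const, nsmul_eq_mul]
  have h2 : 0 ≤ B * M φ φ := mul_nonneg hB hMφ
  calc (pr S g φ) ^ 2 = |pr S g φ| ^ 2 := (sq_abs _).symm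
    _ ≤ ((S.card : ℝ) * (t * Real.sqrt (B * M φ φ))) ^ 2 := pow_le_pow_left₀ (abs_nonneg _) h1 2
    _ = ((S.card : ℝ) * t) ^ 2 * Real.sqrt (B * M φ φ) ^ 2 := by ring
    _ = ((S.card : ℝ) * t) ^ 2 * (B * M φ φ) := by rw [Real.sq_sqrt h2]
    _ = _ := by ring

theorem pdef_of_poinc {M : BF V} {S : Finset V} {C : ℝ} {n : ℕ} (hn : 0 < n) (hC : 0 < C)
    (h : ∀ φ : V → ℝ, (∑ x ∈ S, φ x ^ 2) / (n : ℝ) ^ 2 ≤ C * M φ φ) : PDef M S := by
  intro φ hφ hne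
  obtain ⟨x, hx⟩ := Function.ne_iff.1 hne
  have hxS : x ∈ S := by
    by_contra hc
    exact hx (hφ x hc)
  have h1 : 0 < ∑ x ∈ S, φ x ^ 2 := by
    have h2 : φ x ^ 2 ≤ ∑ x ∈ S, φ x ^ 2 :=
      Finset.single_le_sum (f := fun x => φ x ^ 2) (fun y _ => sq_nonneg _) hxS
    have h3 : φ x ≠ 0 := hx
    have : 0 < φ x ^ 2 := by positivity
    linarith
  have hn' : (0 : ℝ) < (n : ℝ) ^ 2 := by
    have : (0 : ℝ) < n := Nat.cast_pos.2 hn
    positivity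
  have h4 := lt_of_lt_of_le (div_pos h1 hn') (h φ)
  by_contra hc
  have := not_lt.1 hc
  nlinarith

open Classical in
/-- 8.1, from exactness (6.3) and the good event (7.4, 7.6, 7.9). -/
theorem local_ub_of {α β κ : ℝ} (hα : 4 < α) (hβ : 0 < β) (z₀ : P) {ρ : ℝ} (hρ : 0 < ρ)
    (H : P → ℝ) (hH : ContDiff ℝ 2 H) (hc : HasCompactSupport H)
    (hs : ∀ z ∈ tsupport H, lenP (z - z₀) < ρ)
    (hex : ∀ M δ : ℝ, 0 < M → 0 < δ → δ ≤ ρ / 8 →
      Tendsto (fun n => En (MP α β z₀ ρ M δ n) (SS z₀ ρ n) (smp H n)) atTop (𝓝 (κ / 2 * Dir H)))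
    (hgood : ∀ η > 0, ∀ η' > 0, ∃ M ≥ 1, ∃ δ > 0, δ ≤ ρ / 8 ∧ ∀ᶠ n : ℕ in atTop,
      EtA (JJ α β) (MP α β z₀ ρ M δ n) (SS z₀ ρ n) (outR z₀ ρ n) 0 0 (fun A φ =>
        if Disjoint A (inR z₀ ρ n) ∧ nsq (MP α β z₀ ρ M δ n) (SS z₀ ρ n \ A)
          (fb (pinF z₀ ρ M δ n) (restr A φ)) ≤ η' then 0 else 1) ≤ η)
    (Λ : ℕ → Finset V)
    (hΛ : ∀ᶠ n : ℕ in atTop, ∀ x, lenP (sc n x - z₀) ≤ 6 * ρ → x ∈ Λ n) :
    ∀ ε > 0, ∀ᶠ n in atTop,
      En (QD α β (Λ n)) (Λ n) (smp H n) ≤ κ / 2 * Dir H + ε := by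
  intro ε hε
  have hz : ∀ z, H z ≠ 0 → lenP (z - z₀) < ρ := fun z h => hs z (subset_tsupport _ h)
  set τ : ℝ := (α - 4) / 2 with hτ
  have hτ0 : 0 < τ := by rw [hτ]; linarith
  have hcc := cc_pos hα hβ
  have hDir := Dir_nonneg H
  -- constants
  set K : ℝ := cc α β * Dir H + 1 with hK
  have hK1 : 1 ≤ K := by
    have := mul_nonneg hcc.le hDir
    linarith
  have hK0 : 0 ≤ K := by linarith
  set θ : ℝ := min 1 (ε / (8 * (5 * K + 4))) with hθ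
  have hθ0 : 0 < θ := lt_min one_pos (by positivity)
  have hθ1 : θ ≤ 1 := min_le_left _ _
  set γ : ℝ := min 1 (min (ε / 16) (θ * ε / 32)) with hγ
  have hγ0 : 0 < γ := lt_min one_pos (lt_min (by positivity) (by positivity))
  have hγ1 : γ ≤ 1 := min_le_left _ _
  have hγ2 : γ ≤ ε / 16 := (min_le_right _ _).trans (min_le_left _ _)
  have hγ3 : γ ≤ θ * ε / 32 := (min_le_right _ _).trans (min_le_right _ _)
  set η' : ℝ := θ * ε / 16 with hη'
  have hη'0 : 0 < η' := by positivity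
  set η : ℝ := (ε / (16 * Real.exp (3 * K + 2))) ^ 2 with hη
  have hη0 : 0 < η := by positivity
  obtain ⟨M, hM1, δ, hδ0, hδρ, hbad⟩ := hgood η hη0 η' hη'0
  have hM0 : 0 ≤ M := by linarith
  -- inputs
  obtain ⟨Cp, hCp, hpoinc⟩ := B5.poinc hα hβ z₀ hρ
  obtain ⟨Cg, hCg, hgreen⟩ := B5.green hα hβ z₀ hρ
  obtain ⟨Ck, hCk, hkil⟩ := kil_le hα hβ z₀ hρ
  obtain ⟨Cf, hCf, hfar⟩ := far_le hα hβ z₀ hρ H hH.continuous hc hs
  obtain ⟨Cc, hCc, hcard⟩ := card_SS_le z₀ hρ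
  have hqS := qd_smp hα hβ H hH hc (fun n => SS z₀ ρ n) (by
    filter_upwards [eventually_gt_atTop 0] with n hn x hx
    by_contra hne
    exact hx (mem_SS hρ hn (by have := hz _ hne; linarith)))
  have hqΛ := qd_smp hα hβ H hH hc Λ (by
    filter_upwards [hΛ] with n hn x hx
    by_contra hne
    exact hx (hn x (by have := hz _ hne; linarith)))
  have hqS' : ∀ᶠ n : ℕ in atTop, QD α β (SS z₀ ρ n) (smp H n) (smp H n) < K :=
    hqS.eventually_lt_const (by linarith)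
  have hqΛ' : ∀ᶠ n : ℕ in atTop, QD α β (Λ n) (smp H n) (smp H n) < K :=
    hqΛ.eventually_lt_const (by linarith)
  -- small sequences
  have hseq1 : ∀ᶠ n : ℕ in atTop, (Cc * Cf) ^ 2 * Cg * ((n : ℝ) ^ (-(2 * τ)) * Real.log n ^ 2) < γ := by
    have := (tendsto_rpow_log (s := 2 * τ) (by linarith)).const_mul ((Cc * Cf) ^ 2 * Cg)
    rw [mul_zero] at this
    exact this.eventually_lt_const hγ0
  have hseq2 : ∀ᶠ n : ℕ in atTop, 2 * Cc * Ck * Real.exp K * Cg *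
      ((n : ℝ) ^ (-τ) * Real.log n ^ 2) < ε / 16 := by
    have := (tendsto_rpow_log (s := τ) hτ0).const_mul (2 * Cc * Ck * Real.exp K * Cg)
    rw [mul_zero] at this
    exact this.eventually_lt_const (by positivity)
  have hexact : ∀ᶠ n : ℕ in atTop, En (MP α β z₀ ρ M δ n) (SS z₀ ρ n) (smp H n) <
      κ / 2 * Dir H + ε / 2 :=
    (hex M δ (by linarith) hδ0 hδρ).eventually_lt_const (by linarith)
  filter_upwards [hbad, hpoinc M δ hM1 hδ0 hδρ, hgreen M δ hM1 hδ0 hδρ, hqS', hqΛ', hseq1, hseq2,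
    hexact, hΛ, eventually_gt_atTop 0] with n nbad npo ngr nqS nqΛ ns1 ns2 nex nΛ hn
  have hn' : (0 : ℝ) < n := Nat.cast_pos.2 hn
  have hF : IsForm (MP α β z₀ ρ M δ n) := isForm_MP hβ.le z₀ ρ hM0 δ n
  have hp : PDef (MP α β z₀ ρ M δ n) (SS z₀ ρ n) := pdef_of_poinc hn hCp npo
  have hlog : 0 ≤ Cg * Real.log n ^ 2 := by positivity
  have hcardn := hcard n hn
  -- energy of the profile
  have hMK : MP α β z₀ ρ M δ n (smp H n) (smp H n) ≤ K := by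
    have e1 : MP α β z₀ ρ M δ n (smp H n) (smp H n) =
        pr (SS z₀ ρ n) (LS α β (SS z₀ ρ n) (smp H n)) (smp H n) :=
      MP_smp_eq z₀ hρ hδ0 H hz n _
    have e2 : MP α β z₀ ρ 0 δ n (smp H n) (smp H n) =
        pr (SS z₀ ρ n) (LS α β (SS z₀ ρ n) (smp H n)) (smp H n) :=
      MP_smp_eq z₀ hρ hδ0 H hz n _
    have e3 : MP α β z₀ ρ 0 δ n (smp H n) (smp H n) = QF α β (SS z₀ ρ n) (smp H n) (smp H n) := by
      unfold MP
      simp only [zero_mul, LinearMap.add_apply, LinearMap.sum_apply]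
      rw [Finset.sum_eq_zero, add_zero]
      intro i _
      rw [rk_apply]; ring
    have e4 : QD α β (SS z₀ ρ n) (smp H n) (smp H n) = QF α β (SS z₀ ρ n) (smp H n) (smp H n) +
        massF (SS z₀ ρ n) (kil α β (SS z₀ ρ n)) (smp H n) (smp H n) := rfl
    have e5 := (isForm_massF (S := SS z₀ ρ n) (t := kil α β (SS z₀ ρ n))
      fun x _ => kil_nonneg hβ.le _ x).nonneg (smp H n)
    rw [e1, ← e2, e3]
    linarith
  -- the far charge
  have hg : nsq (MP α β z₀ ρ M δ n) (SS z₀ ρ n) (fun x => if x ∈ inR z₀ ρ n then 0 else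
      LS α β (SS z₀ ρ n) (smp H n) x) ≤ γ := by
    have h1 := nsq_sum_le hF hp hlog (t := Cf * (n : ℝ) ^ (-(2 + τ))) (by positivity)
      (fun φ x hx => ngr φ x hx) (fun x => if x ∈ inR z₀ ρ n then 0 else
      LS α β (SS z₀ ρ n) (smp H n) x) (fun x hx => by
        by_cases hxI : x ∈ inR z₀ ρ n
        · rw [if_pos hxI, abs_zero]; positivity
        · rw [if_neg hxI]
          refine hfar n hn x hx ?_
          by_contra hcon
          exact hxI (Finset.mem_filter.2 ⟨hx, not_lt.1 hcon⟩))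
    refine h1.trans (le_trans ?_ ns1.le)
    have h2 : ((SS z₀ ρ n).card : ℝ) * (Cf * (n : ℝ) ^ (-(2 + τ))) ≤ Cc * Cf * (n : ℝ) ^ (-τ) := by
      have e : (n : ℝ) ^ (-(2 + τ)) * (n : ℝ) ^ 2 = (n : ℝ) ^ (-τ) := by
        rw [← Real.rpow_natCast (n : ℝ) 2, ← Real.rpow_add hn']
        congr 1; push_cast; ring
      calc ((SS z₀ ρ n).card : ℝ) * (Cf * (n : ℝ) ^ (-(2 + τ))) ≤
          (Cc * (n : ℝ) ^ 2) * (Cf * (n : ℝ) ^ (-(2 + τ))) :=
            mul_le_mul_of_nonneg_right hcardn (by positivity)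
        _ = Cc * Cf * ((n : ℝ) ^ (-(2 + τ)) * (n : ℝ) ^ 2) := by ring
        _ = _ := by rw [e]
    have h3 := pow_le_pow_left₀ (by positivity) h2 2
    have e2 : (Cc * Cf * (n : ℝ) ^ (-τ)) ^ 2 = (Cc * Cf) ^ 2 * (n : ℝ) ^ (-(2 * τ)) := by
      rw [mul_pow, ← Real.rpow_natCast ((n : ℝ) ^ (-τ)) 2, ← Real.rpow_mul hn'.le]
      congr 2; push_cast; ring
    rw [e2] at h3
    calc _ ≤ ((Cc * Cf) ^ 2 * (n : ℝ) ^ (-(2 * τ))) * (Cg * Real.log n ^ 2) :=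
          mul_le_mul_of_nonneg_right h3 hlog
      _ = _ := by ring
  -- the killing term
  have hk : ∀ O ⊆ SS z₀ ρ n, (∀ x ∈ O, lenP (sc n x - z₀) < 5 * ρ) → Supp O (smp H n) →
      (1 / 2) * ∑ x ∈ O, kil α β (SS z₀ ρ n) x *
        Ex (MP α β z₀ ρ M δ n) O (smp H n) (fun ψ => (emb O ψ x - smp H n x) ^ 2) ≤ ε / 16 := by
    intro O hO hO5 hsupp
    have hpO := hp.mono hO
    have hEn : En (MP α β z₀ ρ M δ n) O (smp H n) ≤ K := by
      have := En_le hF hpO (smp H n)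
      linarith
    have h1 : ∀ x ∈ O, kil α β (SS z₀ ρ n) x *
        Ex (MP α β z₀ ρ M δ n) O (smp H n) (fun ψ => (emb O ψ x - smp H n x) ^ 2) ≤
        (Ck * (n : ℝ) ^ (-(2 + τ))) * (4 * Real.exp K * (Cg * Real.log n ^ 2)) := by
      intro x hx
      have a1 := hkil n hn x (hO hx) (hO5 x hx)
      have a2 := Ex_sq_le hF hpO (smp H n) hsupp hx
      have a3 := nsq_single_le hF hp hO hlog (fun φ x hx => ngr φ x hx) hx
      have a4 : 4 * Real.exp (En (MP α β z₀ ρ M δ n) O (smp H n)) *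
          nsq (MP α β z₀ ρ M δ n) O (Pi.single x 1) ≤
          4 * Real.exp K * (Cg * Real.log n ^ 2) :=
        mul_le_mul (mul_le_mul_of_nonneg_left (Real.exp_le_exp.2 hEn) (by norm_num)) a3
          (nsq_nonneg hF hpO _) (by positivity)
      exact mul_le_mul a1.2 (a2.trans a4)
        (Ex_nonneg _ _ _ fun ψ => sq_nonneg _) (by positivity)
    have h2 := Finset.sum_le_sum h1
    rw [Finset.sum_const, nsmul_eq_mul] at h2
    have h3 : (O.card : ℝ) ≤ Cc * (n : ℝ) ^ 2 :=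
      (Nat.cast_le.2 (Finset.card_le_card hO)).trans hcardn
    have e : (n : ℝ) ^ 2 * (n : ℝ) ^ (-(2 + τ)) = (n : ℝ) ^ (-τ) := by
      rw [← Real.rpow_natCast (n : ℝ) 2, ← Real.rpow_add hn']
      congr 1; push_cast; ring
    have h4 : (O.card : ℝ) * ((Ck * (n : ℝ) ^ (-(2 + τ))) *
        (4 * Real.exp K * (Cg * Real.log n ^ 2))) ≤
        (Cc * (n : ℝ) ^ 2) * ((Ck * (n : ℝ) ^ (-(2 + τ))) *
        (4 * Real.exp K * (Cg * Real.log n ^ 2))) :=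
      mul_le_mul_of_nonneg_right h3 (by positivity)
    have h5 : (Cc * (n : ℝ) ^ 2) * ((Ck * (n : ℝ) ^ (-(2 + τ))) *
        (4 * Real.exp K * (Cg * Real.log n ^ 2))) =
        2 * (2 * Cc * Ck * Real.exp K * Cg * ((n : ℝ) ^ (-τ) * Real.log n ^ 2)) := by
      rw [← e]; ring
    linarith
  have hmain := one_scale hα hβ z₀ hρ hM0 hδ0 hn H hz (nΛ) hp hθ0 hθ1 hη0 hη'0.le hγ0.le
    (by positivity : (0 : ℝ) ≤ ε / 16) hMK nqΛ.le hg nbad hk
  -- bookkeeping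
  have b1 : θ * (5 * K + 4 * γ) ≤ ε / 8 := by
    have h1 : θ ≤ ε / (8 * (5 * K + 4)) := min_le_right _ _
    have h2 : θ * (5 * K + 4 * γ) ≤ (ε / (8 * (5 * K + 4))) * (5 * K + 4) :=
      mul_le_mul h1 (by linarith) (by positivity) (by positivity)
    refine h2.trans (le_of_eq ?_)
    field_simp
  have b2 : 2 * γ / θ ≤ ε / 16 := by
    rw [div_le_iff₀ hθ0]; linarith
  have b3 : η' / θ = ε / 16 := by
    rw [hη']; field_simp
  have b4 : Real.sqrt η * Real.exp (3 * K + 2 * γ) ≤ ε / 16 := by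
    have h1 : Real.sqrt η = ε / (16 * Real.exp (3 * K + 2)) := by
      rw [hη, Real.sqrt_sq (by positivity)]
    rw [h1]
    have h2 : Real.exp (3 * K + 2 * γ) ≤ Real.exp (3 * K + 2) := Real.exp_le_exp.2 (by linarith)
    calc ε / (16 * Real.exp (3 * K + 2)) * Real.exp (3 * K + 2 * γ) ≤
        ε / (16 * Real.exp (3 * K + 2)) * Real.exp (3 * K + 2) :=
          mul_le_mul_of_nonneg_left h2 (by positivity)
      _ = ε / 16 := by field_simp
  rw [b3] at hmain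
  linarith

end Pool.Agent.LR.B8
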