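import Pool.Agent.LR.B8.Local0
import Pool.Agent.LR.B7.Crossing
import Pool.Agent.LR.B4.Exact
import Pool.Agent.LR.B6F.Long
import Pool.Agent.LR.B6F.Feed

/-! # LR-B8-Local: 8.1 locality -/

set_option autoImplicit false

noncomputable section

open scoped BigOperators Topology
open MeasureTheory Filter Set

namespace Pool.Agent.LR

/-- 8.1 locality: the upper bound for the energy of a smooth bump. -/
theorem local_ub {α : ℝ} (hα : 4 < α) : ∃ ε₀ > 0, ∀ (β κ : ℝ), 0 < β → KapSpec α β κ →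
    κ < cc α β →
    (∀ (Λ : Finset V) (h : V → ℝ), Supp Λ h → En (QD α β Λ) Λ h ≤ ε₀ / 2 * QD α β Λ h h) →
    ∀ (z₀ : P) (ρ K : ℝ), 0 < ρ → ∀ H : P → ℝ, ContDiff ℝ 2 H → HasCompactSupport H →
    (∀ z ∈ tsupport H, lenP (z - z₀) < ρ) → ∀ Λ : ℕ → Finset V,
    (∀ᶠ n : ℕ in atTop, ∀ x, lenP (sc n x - z₀) ≤ 6 * ρ → x ∈ Λ n) →
    (∀ᶠ n : ℕ in atTop, ∀ x ∈ Λ n, lenP (sc n x) ≤ K) → ∀ ε > 0, ∀ᶠ n in atTop,
      En (QD α β (Λ n)) (Λ n) (smp H n) ≤ κ / 2 * Dir H + ε := by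
  obtain ⟨ε₀, hε₀, hX⟩ := crossing_of hα
  refine B8.local_ub_from hα ⟨ε₀, hε₀, ?_⟩ ?_ ?_ ?_
  · intro β κ hβ hκ hlt hT
    exact hX β κ hβ hκ hlt (fun z₀ ρ M δ hρ hM hδ hδρ H hH hc hs h0 =>
      exact hα hβ hκ hlt z₀ hρ hM hδ hδρ H hH hc hs h0) hT
  · intro β κ hβ hκ hlt z₀ ρ M δ hρ hM hδ hδρ H hH hc hs h0
    exact exact hα hβ hκ hlt z₀ hρ hM hδ hδρ H hH hc hs h0
  · intro β hβ z₀ ρ hρ t ht R f hE M δ hM hδ hδρ η hη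
    exact no_long hα hβ z₀ hρ ht hE hM hδ hδρ hη
  · intro β hβ z₀ ρ hρ t ht R f hE M hM η η' hη hη'
    exact feedback hα hβ z₀ hρ ht hE hM hη hη'

end Pool.Agent.LR
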