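import Pool.Agent.LR.B8.Good
import Pool.Agent.LR.B6F.Geo
import Pool.Agent.LR.B5.Cells

/-! # LR-B8-Local0: 8.1 locality from crossing (7.9), exactness, 7.4 and 7.6 -/

set_option autoImplicit false

noncomputable section

open scoped BigOperators Topology
open MeasureTheory Filter Set

namespace Pool.Agent.LR.B8

theorem H_pin {z₀ : P} {ρ δ : ℝ} (hρ : 0 < ρ) (hδ : 0 < δ) {H : P → ℝ}
    (hz : ∀ z, H z ≠ 0 → lenP (z - z₀) < ρ) :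
    ∀ i ∈ pin z₀ ρ δ, ∀ z ∈ cellP z₀ δ i, H z = 0 := by
  intro i hi z hzc
  by_contra hne
  have h1 := hz z hne
  have h2 := (B5.shell_of_pin hρ hδ hi hzc).1
  linarith

open Classical in
/-- 8.1 locality, the four inputs as hypotheses. -/
theorem local_ub_from {α : ℝ} (hα : 4 < α)
    (hcross : ∃ ε₀ > 0, ∀ (β κ : ℝ), 0 < β → KapSpec α β κ → κ < cc α β →
      (∀ (Λ : Finset V) (h : V → ℝ), Supp Λ h → En (QD α β Λ) Λ h ≤ ε₀ / 2 * QD α β Λ h h) →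
      ∀ (z₀ : P) (ρ : ℝ), 0 < ρ → ∀ η > 0, ∃ M₀ ≥ 1, ∀ M ≥ M₀, ∃ δ₀ > 0, ∀ δ : ℝ, 0 < δ → δ ≤ δ₀ →
        ∀ᶠ n : ℕ in atTop, EtA (JJ α β) (MP α β z₀ ρ M δ n) (SS z₀ ρ n) (outR z₀ ρ n) 0 0
          (fun A _ => if (A ∩ inR z₀ ρ n).Nonempty then 1 else 0) ≤ η)
    (hexact : ∀ {β κ : ℝ}, 0 < β → KapSpec α β κ → κ < cc α β →
      ∀ (z₀ : P) {ρ M δ : ℝ}, 0 < ρ → 0 < M → 0 < δ → δ ≤ ρ / 8 →
      ∀ H : P → ℝ, ContDiff ℝ 2 H → HasCompactSupport H →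
      (∀ z ∈ tsupport H, lenP (z - z₀) < 12 * ρ) →
      (∀ i ∈ pin z₀ ρ δ, ∀ z ∈ cellP z₀ δ i, H z = 0) →
      Tendsto (fun n => En (MP α β z₀ ρ M δ n) (SS z₀ ρ n) (smp H n)) atTop
        (𝓝 (κ / 2 * Dir H)))
    (hlong : ∀ {β : ℝ}, 0 < β → ∀ (z₀ : P) {ρ : ℝ}, 0 < ρ → ∀ {t : ℝ},
      2 / (α - 2) < t → ∀ {R : ℕ → Finset V} {f : ℕ → V → ℝ}, Expl z₀ ρ R f →
      ∀ {M δ : ℝ}, 1 ≤ M → 0 < δ → δ ≤ ρ / 32 → ∀ {η : ℝ}, 0 < η →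
      ∀ᶠ n : ℕ in atTop, EtA (JJ α β) (MP α β z₀ ρ M δ n) (SS z₀ ρ n) (R n) (f n) (f n)
        (fun A _ => if Chn (fun u v => len (u - v) ≤ (n : ℝ) ^ t) (seeds (SS z₀ ρ n) (R n) (f n)) A
          then 0 else 1) ≤ η)
    (hfeed : ∀ {β : ℝ}, 0 < β → ∀ (z₀ : P) {ρ : ℝ}, 0 < ρ → ∀ {t : ℝ},
      t < 1 → ∀ {R : ℕ → Finset V} {f : ℕ → V → ℝ}, Expl z₀ ρ R f →
      ∀ {M : ℝ}, 1 ≤ M → ∀ {η η' : ℝ}, 0 < η → 0 < η' →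
      ∃ δ₀ > 0, ∀ δ : ℝ, 0 < δ → δ ≤ δ₀ → ∀ᶠ n : ℕ in atTop,
        EtA (JJ α β) (MP α β z₀ ρ M δ n) (SS z₀ ρ n) (R n) (f n) (f n)
          (fun A φ => if Chn (fun u v => len (u - v) ≤ (n : ℝ) ^ t)
              (seeds (SS z₀ ρ n) (R n) (f n)) A ∧
              η' < nsq (MP α β z₀ ρ M δ n) (SS z₀ ρ n \ A) (fb (pinF z₀ ρ M δ n) (restr A φ))
            then 1 else 0) ≤ η) :
    ∃ ε₀ > 0, ∀ (β κ : ℝ), 0 < β → KapSpec α β κ →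
    κ < cc α β →
    (∀ (Λ : Finset V) (h : V → ℝ), Supp Λ h → En (QD α β Λ) Λ h ≤ ε₀ / 2 * QD α β Λ h h) →
    ∀ (z₀ : P) (ρ K : ℝ), 0 < ρ → ∀ H : P → ℝ, ContDiff ℝ 2 H → HasCompactSupport H →
    (∀ z ∈ tsupport H, lenP (z - z₀) < ρ) → ∀ Λ : ℕ → Finset V,
    (∀ᶠ n : ℕ in atTop, ∀ x, lenP (sc n x - z₀) ≤ 6 * ρ → x ∈ Λ n) →
    (∀ᶠ n : ℕ in atTop, ∀ x ∈ Λ n, lenP (sc n x) ≤ K) → ∀ ε > 0, ∀ᶠ n in atTop,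
      En (QD α β (Λ n)) (Λ n) (smp H n) ≤ κ / 2 * Dir H + ε := by
  obtain ⟨ε₀, hε₀, hX⟩ := hcross
  refine ⟨ε₀, hε₀, ?_⟩
  intro β κ hβ hκ hlt hT z₀ ρ K hρ H hH hc hs Λ hΛ _ ε hε
  have hα2 : 0 < α - 2 := by linarith
  have htt : 2 / (α - 2) < 1 := by
    rw [div_lt_one hα2]
    linarith
  obtain ⟨t, ht1, ht2⟩ := exists_between htt
  have hz : ∀ z, H z ≠ 0 → lenP (z - z₀) < ρ := fun z h => hs z (subset_tsupport _ h)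
  have hE := expl_out z₀ hρ
  have hgood := good_of hα hβ z₀ hρ
    (fun n A => Chn (fun u v => len (u - v) ≤ (n : ℝ) ^ t) (seeds (SS z₀ ρ n) (outR z₀ ρ n) 0) A)
    (hX β κ hβ hκ hlt hT z₀ ρ hρ)
    (fun M δ hM hδ hδρ η hη => hlong hβ z₀ hρ ht1 hE hM hδ hδρ hη)
    (fun M hM η hη η' hη' => hfeed hβ z₀ hρ ht2 hE hM hη hη')
  exact local_ub_of hα hβ z₀ hρ H hH hc hs
    (fun M δ hM hδ hδρ => hexact hβ hκ hlt z₀ hρ hM hδ hδρ H hH hc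
      (fun z h => (hs z h).trans_le (by linarith)) (H_pin hρ hδ hz)) hgood Λ hΛ ε hε

end Pool.Agent.LR.B8
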