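import Pool.Agent.LR.B1.Rest

/-! # LR-B8-Second: second moment in the shifted model -/

set_option autoImplicit false

noncomputable section

open scoped BigOperators Topology
open MeasureTheory Filter Set

namespace Pool.Agent.LR.B8



variable {W : Type*} [DecidableEq W] {M : BF W} {O : Finset W}

theorem sq_le_exp (t : ℝ) : t ^ 2 ≤ Real.exp t + Real.exp (-t) := by
  have h0 : ∀ a : ℝ, 0 ≤ a → a ^ 2 ≤ Real.exp a + Real.exp (-a) := by
    intro a ha
    have h := Real.self_le_sinh_iff.2 (by linarith : (0 : ℝ) ≤ a / 2)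
    have h2 : Real.exp a + Real.exp (-a) = 2 + 4 * Real.sinh (a / 2) ^ 2 := by
      rw [Real.sinh_eq]
      have e1 : Real.exp a = Real.exp (a / 2) * Real.exp (a / 2) := by
        rw [← Real.exp_add]; congr 1; ring
      have e2 : Real.exp (-a) = Real.exp (-(a / 2)) * Real.exp (-(a / 2)) := by
        rw [← Real.exp_add]; congr 1; ring
      have e3 : Real.exp (a / 2) * Real.exp (-(a / 2)) = 1 := by
        rw [← Real.exp_add]; simp
      rw [e1, e2]
      linear_combination 2 * e3
    rw [h2]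
    nlinarith
  rcases le_total 0 t with ht | ht
  · exact h0 t ht
  · have := h0 (-t) (by linarith)
    rw [neg_neg] at this
    nlinarith

theorem Ex_sq_le' (hM : IsForm M) (hp : PDef M O) (h : W → ℝ)
    (hh : Supp O h) (f : W → ℝ) (hf : 0 < nsq M O f) :
    Ex M O h (fun ψ => (pr O f (emb O ψ - h)) ^ 2) ≤
      4 * Real.exp (En M O h) * nsq M O f := by
  obtain ⟨u, hu⟩ := exists_pot hM hp f
  set N := nsq M O f with hN
  have hMu : M u u = N := (IsPot.nsq_eq hM hu).symm
  set s : ℝ := 1 / Real.sqrt N with hs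
  have hsN : s ^ 2 * N = 1 := by
    rw [hs, div_pow, Real.sq_sqrt hf.le]
    field_simp
  have hs2 : 0 < s ^ 2 := by
    have := Real.sqrt_pos.2 hf
    positivity
  have hpair : ∀ ψ : O → ℤ, ∀ a : ℝ, M (emb O ψ - h) (a • u) = a * pr O f (emb O ψ - h) := by
    intro ψ a
    rw [hM.symm, map_smul, LinearMap.smul_apply, smul_eq_mul,
      hu.2 _ ((supp_emb ψ).sub hh)]
  have hEx : ∀ a : ℝ, a ^ 2 = s ^ 2 → Ex M O h (fun ψ => Real.exp (a * pr O f (emb O ψ - h))) ≤
      Real.exp (1 / 2 + En M O h) := by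
    intro a ha
    have h1 := Ex_exp hM hp h (a • u)
    have h2 : (fun ψ : O → ℤ => Real.exp (M (emb O ψ - h) (a • u))) =
        fun ψ => Real.exp (a * pr O f (emb O ψ - h)) := by
      funext ψ; rw [hpair]
    rw [h2] at h1
    rw [h1]
    apply Real.exp_le_exp.2
    have h3 : M (a • u) (a • u) = 1 := by
      simp only [map_smul, LinearMap.smul_apply, smul_eq_mul, hMu]
      calc a * (a * N) = a ^ 2 * N := by ring
        _ = 1 := by rw [ha, hsN]
    rw [h3]
    have := En_nonneg hM hp (h + a • u)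
    linarith
  have tm : ∀ a : ℝ, Tame (O := O) (fun ψ => Real.exp (a * pr O f (emb O ψ - h))) := by
    intro a
    have h1 : (fun ψ : O → ℤ => Real.exp (a * pr O f (emb O ψ - h))) =
        fun ψ => Real.exp (-(a * pr O f h)) * Real.exp (pr O (a • f) (emb O ψ)) := by
      funext ψ
      rw [← Real.exp_add, pr_sub_right, pr_smul_left]
      congr 1; ring
    rw [h1]
    exact Tame.smul (tame_exp_pr _) _
  have tsq : Tame (O := O) (fun ψ => (s * pr O f (emb O ψ - h)) ^ 2) := by
    have h1 : (fun ψ : O → ℤ => s * pr O f (emb O ψ - h)) =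
        fun ψ => pr O (s • f) (emb O ψ) - s * pr O f h := by
      funext ψ
      rw [pr_sub_right, pr_smul_left]; ring
    exact Tame.pow (by rw [h1]; exact Tame.sub (tame_pr _) (tame_const _)) 2
  have hmain : Ex M O h (fun ψ => (s * pr O f (emb O ψ - h)) ^ 2) ≤
      2 * Real.exp (1 / 2 + En M O h) := by
    calc Ex M O h (fun ψ => (s * pr O f (emb O ψ - h)) ^ 2)
        ≤ Ex M O h (fun ψ => Real.exp (s * pr O f (emb O ψ - h)) +
            Real.exp (-s * pr O f (emb O ψ - h))) := by
          refine Ex_mono hM hp h tsq (Tame.add (tm s) (tm (-s))) fun ψ => ?_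
          have := sq_le_exp (s * pr O f (emb O ψ - h))
          rwa [← neg_mul] at this
      _ = Ex M O h (fun ψ => Real.exp (s * pr O f (emb O ψ - h))) +
            Ex M O h (fun ψ => Real.exp (-s * pr O f (emb O ψ - h))) :=
          Ex_add hM hp h (tm s) (tm (-s))
      _ ≤ 2 * Real.exp (1 / 2 + En M O h) := by
          have a1 := hEx s rfl
          have a2 := hEx (-s) (by ring)
          linarith
  have hsq : Ex M O h (fun ψ => (s * pr O f (emb O ψ - h)) ^ 2) =
      s ^ 2 * Ex M O h (fun ψ => (pr O f (emb O ψ - h)) ^ 2) := by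
    rw [← Ex_mul_left]
    congr 1
    funext ψ; ring
  rw [hsq] at hmain
  have he : Real.exp (1 / 2 + En M O h) ≤ 2 * Real.exp (En M O h) := by
    rw [Real.exp_add]
    have h2 : Real.exp (1 / 2) ≤ 2 := by
      have h3 : Real.exp (1 / 2) ^ 2 ≤ 2 ^ 2 := by
        rw [← Real.exp_nat_mul]
        have := Real.exp_one_lt_d9
        norm_num
        linarith
      exact (sq_le_sq₀ (Real.exp_pos _).le (by norm_num)).1 h3
    exact mul_le_mul_of_nonneg_right h2 (Real.exp_pos _).le
  have hN' : N = 1 / s ^ 2 := by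
    rw [eq_div_iff hs2.ne', mul_comm]
    exact hsN
  have hfin : s ^ 2 * Ex M O h (fun ψ => (pr O f (emb O ψ - h)) ^ 2) ≤
      4 * Real.exp (En M O h) := by linarith
  rw [hN', mul_one_div, le_div_iff₀ hs2, mul_comm]
  exact hfin

theorem nsq_single_pos (hM : IsForm M) (hp : PDef M O) {x : W} (hx : x ∈ O) :
    0 < nsq M O (Pi.single x 1) := by
  have hS : Supp O (Pi.single x (1 : ℝ)) := by
    intro y hy
    have : y ≠ x := fun h => hy (h ▸ hx)
    simp [this]
  have h1 := pr_sq_le hM hp (Pi.single x 1) hS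
  have h2 : pr O (Pi.single x (1 : ℝ)) (Pi.single x 1) = 1 := by
    unfold pr
    rw [Finset.sum_eq_single x]
    · simp
    · intro y _ hy; simp [hy]
    · intro h; exact absurd hx h
  rw [h2] at h1
  have h3 : 0 ≤ M (Pi.single x (1 : ℝ)) (Pi.single x 1) := hM.nonneg _
  by_contra hc
  push Not at hc
  nlinarith

theorem pr_single {x : W} (hx : x ∈ O) (φ : W → ℝ) : pr O (Pi.single x 1) φ = φ x := by
  unfold pr
  rw [Finset.sum_eq_single x]
  · simp
  · intro y _ hy; simp [hy]
  · intro h; exact absurd hx h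

theorem Ex_sq_le (hM : IsForm M) (hp : PDef M O) (h : W → ℝ)
    (hh : Supp O h) {x : W} (hx : x ∈ O) :
    Ex M O h (fun ψ => (emb O ψ x - h x) ^ 2) ≤
      4 * Real.exp (En M O h) * nsq M O (Pi.single x 1) := by
  have := Ex_sq_le' hM hp h hh (Pi.single x 1) (nsq_single_pos hM hp hx)
  simpa only [pr_single hx, Pi.sub_apply] using this

end Pool.Agent.LR.B8
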