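import Pool.Agent.LR.B8.OneScale
import Pool.Agent.LR.B8.Second
import Pool.Agent.LR.B8.Split
import Pool.Agent.LR.IDefs

/-! # LR-B8-Main81: locality (8.1) -/

set_option autoImplicit false

noncomputable section

open scoped BigOperators Topology
open MeasureTheory Filter Set

namespace Pool.Agent.LR.B8



theorem mem_SS {z₀ : P} {ρ : ℝ} (hρ : 0 < ρ) {n : ℕ} (hn : 0 < n) {x : V}
    (h : lenP (sc n x - z₀) ≤ 13 * ρ) : x ∈ SS z₀ ρ n := by
  have hn' : (0 : ℝ) < n := Nat.cast_pos.2 hn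
  have hx1 := (abs_fst_le_lenP (sc n x - z₀)).trans h
  have hx2 := (abs_snd_le_lenP (sc n x - z₀)).trans h
  have e1 : (sc n x - z₀).1 = (x.1 : ℝ) / n - z₀.1 := rfl
  have e2 : (sc n x - z₀).2 = (x.2 : ℝ) / n - z₀.2 := rfl
  rw [e1] at hx1
  rw [e2] at hx2
  have hx1' : |(x.1 : ℝ) - n * z₀.1| ≤ 13 * ρ * n := by
    have : (x.1 : ℝ) - n * z₀.1 = n * ((x.1 : ℝ) / n - z₀.1) := by field_simp
    rw [this, abs_mul, abs_of_pos hn']
    nlinarith
  have hx2' : |(x.2 : ℝ) - n * z₀.2| ≤ 13 * ρ * n := by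
    have : (x.2 : ℝ) - n * z₀.2 = n * ((x.2 : ℝ) / n - z₀.2) := by field_simp
    rw [this, abs_mul, abs_of_pos hn']
    nlinarith
  rw [abs_le] at hx1' hx2'
  unfold SS bx
  rw [Finset.mem_product, Finset.mem_Icc, Finset.mem_Icc]
  refine ⟨⟨Int.ceil_le.2 ?_, Int.le_floor.2 ?_⟩, ⟨Int.ceil_le.2 ?_, Int.le_floor.2 ?_⟩⟩ <;>
    nlinarith

open Classical in
/-- The locality inequality at one scale. -/
theorem one_scale {α β : ℝ} (hα : 4 < α) (hβ : 0 < β) (z₀ : P) {ρ M δ : ℝ} (hρ : 0 < ρ)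
    (hM : 0 ≤ M) (hδ : 0 < δ) {n : ℕ} (hn : 0 < n) (H : P → ℝ)
    (hs : ∀ z, H z ≠ 0 → lenP (z - z₀) < ρ) {Λ : Finset V}
    (hΛ : ∀ x, lenP (sc n x - z₀) ≤ 6 * ρ → x ∈ Λ)
    (hp : PDef (MP α β z₀ ρ M δ n) (SS z₀ ρ n)) {K γ θ η η' e : ℝ} (h0 : 0 < θ) (h1 : θ ≤ 1)
    (hη : 0 < η) (hη' : 0 ≤ η') (hγ : 0 ≤ γ) (he : 0 ≤ e)
    (hK : MP α β z₀ ρ M δ n (smp H n) (smp H n) ≤ K)
    (hK' : QD α β Λ (smp H n) (smp H n) ≤ K)
    (hg : nsq (MP α β z₀ ρ M δ n) (SS z₀ ρ n) (fun x => if x ∈ inR z₀ ρ n then 0 else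
      LS α β (SS z₀ ρ n) (smp H n) x) ≤ γ)
    (hbad : EtA (JJ α β) (MP α β z₀ ρ M δ n) (SS z₀ ρ n) (outR z₀ ρ n) 0 0 (fun A φ =>
      if Disjoint A (inR z₀ ρ n) ∧ nsq (MP α β z₀ ρ M δ n) (SS z₀ ρ n \ A)
        (fb (pinF z₀ ρ M δ n) (restr A φ)) ≤ η' then 0 else 1) ≤ η)
    (hkil : ∀ O ⊆ SS z₀ ρ n, (∀ x ∈ O, lenP (sc n x - z₀) < 5 * ρ) → Supp O (smp H n) →
      (1 / 2) * ∑ x ∈ O, kil α β (SS z₀ ρ n) x *
        Ex (MP α β z₀ ρ M δ n) O (smp H n) (fun ψ => (emb O ψ x - smp H n x) ^ 2) ≤ e) :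
    En (QD α β Λ) Λ (smp H n) ≤ En (MP α β z₀ ρ M δ n) (SS z₀ ρ n) (smp H n) +
      (θ * (5 * K + 4 * γ) + 2 * γ / θ + γ + η' / θ + e +
        Real.sqrt η * Real.exp (3 * K + 2 * γ)) := by
  have hα2 : 2 < α := by linarith
  set S := SS z₀ ρ n with hS
  set Mf := MP α β z₀ ρ M δ n with hMf
  set I := inR z₀ ρ n with hI
  set R := outR z₀ ρ n with hR
  set h := smp H n with hh
  set f := LS α β S h with hf
  have hmod : Mod (JJ α β) (pinF z₀ ρ M δ n) S :=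
    ⟨JJ_symm α β, fun x y => JJ_nonneg hβ.le x y, isForm_pinF z₀ ρ hM δ n, hp⟩
  have hF : IsForm Mf := isForm_MP hβ.le z₀ ρ hM δ n
  have hIS : I ⊆ S := Finset.filter_subset _ _
  have hRS : R ⊆ S := Finset.filter_subset _ _
  have hq0 : 0 ≤ Mf h h := hF.nonneg h
  have hK0 : 0 ≤ K := hq0.trans hK
  -- the two pieces of the charge
  set g : V → ℝ := fun x => if x ∈ I then 0 else f x with hgdef
  set f' : V → ℝ := fun x => if x ∈ I then f x else 0 with hf'def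
  have hsum : f' + g = f := by
    funext x
    simp only [Pi.add_apply, hgdef, hf'def]
    by_cases hx : x ∈ I <;> simp [hx]
  have hsub : f + (-1 : ℝ) • g = f' := by
    rw [← hsum]; funext x; simp
  -- potentials
  have hIh : ∀ x, h x ≠ 0 → x ∈ I := by
    intro x hx
    have h2 := hs _ hx
    exact Finset.mem_filter.2 ⟨mem_SS hρ hn (by linarith), by linarith⟩
  have hpot : ∀ O ⊆ S, I ⊆ O → IsPot Mf O f h := by
    intro O hO hIO
    refine ⟨fun x hx => ?_, fun φ hφ => ?_⟩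
    · by_contra hne
      exact hx (hIO (hIh x hne))
    · have e1 : Mf h φ = pr S f φ := MP_smp_eq z₀ hρ hδ H hs n φ
      rw [e1]
      unfold pr
      symm
      refine Finset.sum_subset hO fun x _ hx => ?_
      rw [hφ x hx, mul_zero]
  have hpS := hpot S (Finset.Subset.refl S) hIS
  have hnS : nsq Mf S f = Mf h h := IsPot.nsq_eq hF hpS
  have hLS : La Mf S f = Mf h h / 2 - En Mf S h := by
    rw [La_eq hF hp hpS, hnS]
  have hnf' : nsq Mf S f' ≤ 2 * K + 2 * γ := by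
    have a1 := nsq_add_smul_le hF hp f g (-1)
    rw [hsub, hnS] at a1
    nlinarith [hg]
  -- (A)
  have hA : La Mf S f ≤ La Mf S f' + θ * (2 * K + 2 * γ) + γ / θ + γ / 2 := by
    have a1 := La_add_le hF hp f' g h0 h1
    rw [hsum] at a1
    have a2 := mul_le_mul_of_nonneg_left hnf' h0.le
    have a3 : nsq Mf S g / θ ≤ γ / θ := div_le_div_of_nonneg_right hg h0.le
    linarith [hg]
  -- (C)
  set a := En (QD α β Λ) Λ h with ha
  set b := En Mf S h with hb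
  have hC : ∀ A, A ⊆ S → R ⊆ A → Disjoint A I →
      La Mf (S \ A) f' ≤ Mf h h / 2 - a + e + θ * K + γ / θ + γ / 2 := by
    intro A hAS hRA hdis
    set O := S \ A with hO
    have hOS : O ⊆ S := Finset.sdiff_subset
    have hpO : PDef Mf O := hp.mono hOS
    have hIO : I ⊆ O := fun x hx => Finset.mem_sdiff.2 ⟨hIS hx, fun hxA =>
      (Finset.disjoint_left.1 hdis) hxA hx⟩
    have hO5 : ∀ x ∈ O, lenP (sc n x - z₀) < 5 * ρ := by
      intro x hx
      obtain ⟨hxS, hxA⟩ := Finset.mem_sdiff.1 hx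
      by_contra hc
      exact hxA (hRA (Finset.mem_filter.2 ⟨hxS, not_lt.1 hc⟩))
    have hOΛ : O ⊆ Λ := fun x hx => hΛ x (by have := hO5 x hx; linarith)
    have hpotO := hpot O hOS hIO
    have hnO : nsq Mf O f = Mf h h := IsPot.nsq_eq hF hpotO
    have hLO : La Mf O f = Mf h h / 2 - En Mf O h := by
      rw [La_eq hF hpO hpotO, hnO]
    have hdir := En_dir_le hα hβ z₀ hM n hOS hOΛ hp hpotO.1
    have hk := hkil O hOS hO5 hpotO.1
    have a0 : (-1 : ℝ) • g = -g := by funext x; simp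
    have a1 := La_add_le hF hpO f ((-1 : ℝ) • g) h0 h1
    rw [hsub, a0, nsq_neg hF hpO, hnO] at a1
    have hgO : nsq Mf O g ≤ γ := (nsq_mono hF hp hOS g).trans hg
    have a2 := mul_le_mul_of_nonneg_left hK h0.le
    have a3 : nsq Mf O g / θ ≤ γ / θ := div_le_div_of_nonneg_right hgO h0.le
    have hdir' : a ≤ En Mf O h + e := hdir.trans (by linarith)
    linarith
  -- (B)
  have hB : Real.exp (La Mf S f') ≤ Real.exp (Mf h h / 2 - a + e + θ * K + γ / θ + γ / 2 +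
      θ * (2 * K + 2 * γ) + η' / θ) + Real.sqrt η * Real.exp (2 * K + 2 * γ) :=
    expl_good (I := I) hmod hRS hIS f' (fun x hx => by simp [hf'def, hx]) h0 h1 hη hη'
    (m := Mf h h / 2 - a + e + θ * K + γ / θ + γ / 2) (K := 2 * K + 2 * γ) hnf' hbad hC
  -- conclusion
  set s1 := θ * (2 * K + 2 * γ) + γ / θ + γ / 2 with hs1
  set s2 := e + θ * K + γ / θ + γ / 2 + θ * (2 * K + 2 * γ) + η' / θ with hs2
  have hs20 : 0 ≤ s2 := by positivity
  have hC1 : Real.exp (Mf h h / 2 - b - s1) ≤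
      Real.exp (Mf h h / 2 - a + s2) + Real.sqrt η * Real.exp (2 * K + 2 * γ) := by
    refine le_trans (Real.exp_le_exp.2 ?_) (hB.trans (le_of_eq ?_))
    · rw [hLS] at hA
      linarith
    · congr 2
      rw [hs2]; ring
  have hfD : IsForm (QD α β Λ) := isForm_QD hβ.le Λ
  have hapos : a ≤ K := by
    have a1 := En_le hfD (pdef_QD hα2 hβ Λ) h
    linarith
  set X := Real.sqrt η * Real.exp (3 * K + 2 * γ) with hX
  have hX0 : 0 ≤ X := by positivity
  have hC2 : Real.exp (a - b - s1) ≤ Real.exp (s2 + X) := by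
    have m1 := mul_le_mul_of_nonneg_right hC1 (Real.exp_pos (a - Mf h h / 2)).le
    rw [← Real.exp_add, add_mul, ← Real.exp_add, mul_assoc, ← Real.exp_add] at m1
    have e1 : Mf h h / 2 - b - s1 + (a - Mf h h / 2) = a - b - s1 := by ring
    have e2 : Mf h h / 2 - a + s2 + (a - Mf h h / 2) = s2 := by ring
    rw [e1, e2] at m1
    have m2 : Real.exp (2 * K + 2 * γ + (a - Mf h h / 2)) ≤ Real.exp (3 * K + 2 * γ) :=
      Real.exp_le_exp.2 (by linarith)
    have m3 : Real.sqrt η * Real.exp (2 * K + 2 * γ + (a - Mf h h / 2)) ≤ X :=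
      mul_le_mul_of_nonneg_left m2 (Real.sqrt_nonneg η)
    have m4 : Real.exp s2 + X ≤ Real.exp (s2 + X) := by
      have n1 : 1 ≤ Real.exp s2 := Real.one_le_exp hs20
      have n2 : X + 1 ≤ Real.exp X := Real.add_one_le_exp X
      calc Real.exp s2 + X ≤ Real.exp s2 + Real.exp s2 * X := by
            have := mul_le_mul_of_nonneg_right n1 hX0
            linarith
        _ = Real.exp s2 * (X + 1) := by ring
        _ ≤ Real.exp s2 * Real.exp X := mul_le_mul_of_nonneg_left n2 (Real.exp_pos _).le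
        _ = Real.exp (s2 + X) := (Real.exp_add s2 X).symm
    linarith
  have hC3 := Real.exp_le_exp.1 hC2
  have e3 : θ * (5 * K + 4 * γ) + 2 * γ / θ + γ + η' / θ + e = s1 + s2 := by
    rw [hs1, hs2]; ring
  rw [e3]
  linarith

end Pool.Agent.LR.B8
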