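import Pool.Agent.LR.B8.Rest
import Pool.Agent.LR.B8.Chain
import Pool.Agent.LR.B8.Decay
import Pool.Agent.LR.B6.Ratio

/-! # LR-B8-OneScale: the locality inequality at one scale -/

set_option autoImplicit false

noncomputable section

open scoped BigOperators Topology
open MeasureTheory Filter Set

namespace Pool.Agent.LR.B8



section Gen

variable {W : Type*} [DecidableEq W] {M : BF W} {O : Finset W}

theorem Su_one_exp (hM : IsForm M) (hp : PDef M O) (f : W → ℝ) :
    Su M O f (fun _ => 1) = Real.exp (La M O f) * Th M O 0 := by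
  rw [exp_La hM hp f]
  unfold Ex Su
  rw [div_mul_cancel₀ _ (Th_pos hM hp 0).ne']
  exact tsum_congr fun ψ => by rw [mul_one]

/-- small extra charge in the pure model -/
theorem La_add_le (hM : IsForm M) (hp : PDef M O) (f g : W → ℝ) {θ : ℝ} (h0 : 0 < θ)
    (h1 : θ ≤ 1) :
    La M O (f + g) ≤ La M O f + θ * nsq M O f + nsq M O g / θ + nsq M O g / 2 := by
  have h := rest_le hM hp (F := fun _ => 1) pd_one (fun _ => one_pos) f g h0 h1
  rw [Su_one_exp hM hp, Su_one_exp hM hp, ← mul_assoc, ← Real.exp_add] at h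
  have h2 := le_of_mul_le_mul_right h (Th_pos hM hp 0)
  have h3 := Real.exp_le_exp.1 h2
  have h4 := La_le hM hp g
  linarith

end Gen

section Expl

variable {W : Type*} [DecidableEq W] {J : W → W → ℝ} {N : BF W} {S R I : Finset W}

open Classical in
/-- Laplace functional of a charge `f` supported in `I` in the full model, in terms of the models on the
unexplored sets `O = S \ A` on a good event of large probability. -/
theorem expl_good (hM : Mod J N S) (hR : R ⊆ S) (hI : I ⊆ S) (f : W → ℝ)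
    (hf : ∀ x, x ∉ I → f x = 0) {m K θ η η' : ℝ} (h0 : 0 < θ) (h1 : θ ≤ 1) (hη : 0 < η)
    (hη' : 0 ≤ η') (hK : nsq (MM J N S) S f ≤ K)
    (hbad : EtA J (MM J N S) S R 0 0 (fun A φ =>
      if Disjoint A I ∧ nsq (MM J N S) (S \ A) (fb N (restr A φ)) ≤ η' then 0 else 1) ≤ η)
    (hm : ∀ A, A ⊆ S → R ⊆ A → Disjoint A I → La (MM J N S) (S \ A) f ≤ m) :
    Real.exp (La (MM J N S) S f) ≤
      Real.exp (m + θ * K + η' / θ) + Real.sqrt η * Real.exp K := by
  have hF : IsForm (MM J N S) := (isForm_Qfr fun x _ y _ => hM.J0 x y).add hM.Nf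
  have hp : PDef (MM J N S) S := hM.pd
  have z0 : ∀ x ∈ S, 0 ≤ (0 : W → ℝ) x := fun _ _ => le_rfl
  obtain ⟨Q, hQ⟩ : ∃ Q : Finset W → (W → ℝ) → Prop, ∀ A φ, Q A φ ↔
      (Disjoint A I ∧ nsq (MM J N S) (S \ A) (fb N φ) ≤ η') := ⟨_, fun _ _ => Iff.rfl⟩
  have hbad' : EtA J (MM J N S) S R 0 0 (fun A φ => if Q A (restr A φ) then 0 else 1) ≤ η := by
    have e : (fun (A : Finset W) (φ : W → ℝ) => if Q A (restr A φ) then (0 : ℝ) else 1) =
        fun A φ => if Disjoint A I ∧ nsq (MM J N S) (S \ A) (fb N (restr A φ)) ≤ η' then 0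
          else 1 := by
      funext A φ
      by_cases h : Q A (restr A φ)
      · rw [if_pos h, if_pos ((hQ _ _).1 h)]
      · rw [if_neg h, if_neg (fun h' => h ((hQ _ _).2 h'))]
    rw [e]
    exact hbad
  -- rest laws
  have hrest : ∀ A, A ⊆ S → R ⊆ A → ∀ ψA : A → ℤ, Q A (emb A ψA) →
      SuR J (MM J N S) N S 0 f A (emb A ψA) (fun _ => 1) ≤
        Real.exp (m + θ * K + η' / θ) * SuR J (MM J N S) N S 0 0 A (emb A ψA) (fun _ => 1) := by
    intro A hA hRA ψA hq
    have hpO : PDef (MM J N S) (S \ A) := hp.mono Finset.sdiff_subset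
    have hb : ∀ y ∈ S \ A, 0 ≤ bb J A 0 (emb A ψA) y := by
      intro y _
      unfold bb
      simp only [Pi.zero_apply, zero_add]
      exact Finset.sum_nonneg fun x _ => mul_nonneg (hM.J0 x y) (abs_nonneg _)
    have h2 := rest_le hF hpO (pd_Frest hb) (fun ψ => Frest_pos ψ) f
      (fb N (emb A ψA)) h0 h1
    unfold SuR
    simp only [mul_one, zero_add]
    refine h2.trans (mul_le_mul_of_nonneg_right (Real.exp_le_exp.2 ?_) ?_)
    · have a1 := hm A hA hRA ((hQ _ _).1 hq).1
      have a2 : nsq (MM J N S) (S \ A) f ≤ K := (nsq_mono hF hp Finset.sdiff_subset f).trans hK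
      have a3 := mul_le_mul_of_nonneg_left a2 h0.le
      have a4 : nsq (MM J N S) (S \ A) (fb N (emb A ψA)) / θ ≤ η' / θ :=
        div_le_div_of_nonneg_right ((hQ _ _).1 hq).2 h0.le
      linarith
    · exact (Su_pos hF hpO _ (pd_Frest hb) (fun ψ => Frest_pos ψ)).le
  have hlap := expl_laplace hM hR z0 Q (m + θ * K + η' / θ) hrest
  -- the right-hand side is at most one
  have adP : ∀ A, A ⊆ S → Adm S (fun φ => if Q A (restr A φ) then (1 : ℝ) else 0) := fun A _ =>
    Adm.of_bdd (C := 1) fun φ => by split_ifs <;> simp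
  have adP' : ∀ A, A ⊆ S → Adm S (fun φ => if Q A (restr A φ) then (0 : ℝ) else 1) := fun A _ =>
    Adm.of_bdd (C := 1) fun φ => by split_ifs <;> simp
  have hle1 : EtA J (MM J N S) S R 0 0
      (fun A φ => (if Q A (restr A φ) then 1 else 0) * Real.exp (pr A f φ)) ≤ 1 := by
    refine le_trans ?_ (le_of_eq (EtA_one (R := R) (f := 0) (h := 0) hM))
    refine EtA_mono hM z0 (fun A hA => (adP A hA).mul (Adm.exp_prA A f))
      (fun A _ => Adm.const 1) fun A hA ψ _ => ?_
    by_cases hq : Q A (restr A (emb S ψ))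
    · rw [if_pos hq, one_mul]
      have : pr A f (emb S ψ) = 0 := by
        unfold pr
        refine Finset.sum_eq_zero fun x hx => ?_
        rw [hf x (fun hxI => (Finset.disjoint_left.1 ((hQ _ _).1 hq).1) hx hxI), zero_mul]
      rw [this, Real.exp_zero]
    · rw [if_neg hq, zero_mul]
      exact zero_le_one
  -- expectation of functions of the field
  have hEt : ∀ g : W → ℝ, EtA J (MM J N S) S R 0 0 (fun _ φ => Real.exp (pr S g φ)) =
      Real.exp (La (MM J N S) S g) := by
    intro g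
    rw [EtA_field (R := R) (f := 0) (h := 0) (fun φ => Real.exp (pr S g φ)), exp_La hF hp g]
    unfold Et Su Ex Th
    simp only [pr_zero_left, Real.exp_zero, mul_one]
  set t : ℝ := Real.exp K / Real.sqrt η with ht
  have hsη : 0 < Real.sqrt η := Real.sqrt_pos.2 hη
  have ht0 : 0 < t := div_pos (Real.exp_pos _) hsη
  have hsplit : EtA J (MM J N S) S R 0 0 (fun _ φ => Real.exp (pr S f φ)) ≤
      EtA J (MM J N S) S R 0 0 (fun A φ =>
        (if Q A (restr A φ) then 1 else 0) * Real.exp (pr S f φ) +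
          (t / 2 * (if Q A (restr A φ) then 0 else 1) +
            1 / (2 * t) * Real.exp (pr S ((2 : ℝ) • f) φ))) := by
    refine EtA_mono hM z0 (fun A _ => Adm.exp_prA S f)
      (fun A hA => ((adP A hA).mul (Adm.exp_prA S f)).add
        (((Adm.const (t / 2)).mul (adP' A hA)).add
          ((Adm.const (1 / (2 * t))).mul (Adm.exp_prA S ((2 : ℝ) • f))))) fun A hA ψ _ => ?_
    set x := pr S f (emb S ψ) with hx
    have e2 : pr S ((2 : ℝ) • f) (emb S ψ) = 2 * x := pr_smul_left 2 f _
    rw [e2]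
    by_cases hq : Q A (restr A (emb S ψ))
    · rw [if_pos hq, if_pos hq, one_mul, mul_zero, zero_add]
      have : 0 ≤ 1 / (2 * t) * Real.exp (2 * x) := by positivity
      linarith
    · rw [if_neg hq, if_neg hq, zero_mul, zero_add, mul_one]
      have e3 : Real.exp (2 * x) = Real.exp x ^ 2 := by
        rw [← Real.exp_nat_mul]; norm_num
      rw [e3]
      have h5 : t / 2 + 1 / (2 * t) * Real.exp x ^ 2 - Real.exp x =
          (Real.exp x - t) ^ 2 / (2 * t) := by
        field_simp
        ring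
      have h6 : 0 ≤ (Real.exp x - t) ^ 2 / (2 * t) := by positivity
      linarith
  have adE : ∀ g : W → ℝ, ∀ A, A ⊆ S → Adm S (fun φ => Real.exp (pr S g φ)) :=
    fun g A _ => Adm.exp_prA S g
  have hadd1 := EtA_add (R := R) (f := 0) (h := 0) hM z0
    (Ξ := fun A φ => (if Q A (restr A φ) then 1 else 0) * Real.exp (pr S f φ))
    (Υ := fun A φ => t / 2 * (if Q A (restr A φ) then 0 else 1) +
            1 / (2 * t) * Real.exp (pr S ((2 : ℝ) • f) φ))
    (fun A hA => (adP A hA).mul (Adm.exp_prA S f))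
    (fun A hA => ((Adm.const (t / 2)).mul (adP' A hA)).add
          ((Adm.const (1 / (2 * t))).mul (Adm.exp_prA S ((2 : ℝ) • f))))
  have hadd2 := EtA_add (R := R) (f := 0) (h := 0) hM z0
    (Ξ := fun A φ => t / 2 * (if Q A (restr A φ) then 0 else 1))
    (Υ := fun A φ => 1 / (2 * t) * Real.exp (pr S ((2 : ℝ) • f) φ))
    (fun A hA => (Adm.const (t / 2)).mul (adP' A hA))
    (fun A _ => (Adm.const (1 / (2 * t))).mul (Adm.exp_prA S ((2 : ℝ) • f)))
  have hc1 := EtA_const_mul (J := J) (N := N) (S := S) (R := R) (f := 0) (h := 0) (t / 2)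
    (fun A φ => if Q A (restr A φ) then 0 else 1)
  have hc2 := EtA_const_mul (J := J) (N := N) (S := S) (R := R) (f := 0) (h := 0) (1 / (2 * t))
    (fun _ φ => Real.exp (pr S ((2 : ℝ) • f) φ))
  rw [hadd1, hadd2, hc1, hc2, hEt f, hEt ((2 : ℝ) • f)] at hsplit
  have hLa2 : La (MM J N S) S ((2 : ℝ) • f) ≤ 2 * K := by
    have a1 := La_le hF hp ((2 : ℝ) • f)
    rw [nsq_smul hF hp] at a1
    linarith
  have hexp2 : Real.exp (La (MM J N S) S ((2 : ℝ) • f)) ≤ Real.exp K ^ 2 := by
    rw [← Real.exp_nat_mul]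
    exact Real.exp_le_exp.2 (by push_cast; linarith)
  have f1 : t / 2 * EtA J (MM J N S) S R 0 0 (fun A φ => if Q A (restr A φ) then 0 else 1) ≤
      t / 2 * η := mul_le_mul_of_nonneg_left hbad' (by positivity)
  have f2 : 1 / (2 * t) * Real.exp (La (MM J N S) S ((2 : ℝ) • f)) ≤
      1 / (2 * t) * Real.exp K ^ 2 := mul_le_mul_of_nonneg_left hexp2 (by positivity)
  have f3 : Real.exp (m + θ * K + η' / θ) * EtA J (MM J N S) S R 0 0
      (fun A φ => (if Q A (restr A φ) then 1 else 0) * Real.exp (pr A f φ)) ≤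
      Real.exp (m + θ * K + η' / θ) := by
    have := mul_le_mul_of_nonneg_left hle1 (Real.exp_pos (m + θ * K + η' / θ)).le
    rwa [mul_one] at this
  have f4 : t / 2 * η + 1 / (2 * t) * Real.exp K ^ 2 = Real.sqrt η * Real.exp K := by
    have hη2 : η = Real.sqrt η ^ 2 := (Real.sq_sqrt hη.le).symm
    rw [ht]
    have hE := (Real.exp_pos K).ne'
    conv_lhs => rw [show (Real.exp K / Real.sqrt η / 2 * η : ℝ) =
      Real.exp K / Real.sqrt η / 2 * Real.sqrt η ^ 2 by rw [← hη2]]
    field_simp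
    ring
  have g1 := hlap.trans f3
  have g2 := add_le_add f1 f2
  rw [f4] at g2
  exact hsplit.trans (add_le_add g1 g2)

end Expl

end Pool.Agent.LR.B8
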