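import Pool.Agent.LR.B1.Rest

/-! # LR-B8-Rest: Laplace functionals of rest laws, with a small extra charge -/

set_option autoImplicit false

noncomputable section

open scoped BigOperators Topology
open MeasureTheory Filter Set

namespace Pool.Agent.LR.B8



variable {W : Type*} [DecidableEq W] {M : BF W} {O : Finset W}

theorem nsq_add_smul_le (hM : IsForm M) (hp : PDef M O) (f g : W → ℝ)
    (t : ℝ) : nsq M O (f + t • g) ≤ 2 * nsq M O f + 2 * t ^ 2 * nsq M O g := by
  have h := nsq_add_le hM hp f (t • g)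
  have h0 := nsq_nonneg hM hp (f + t • g)
  have h1 := nsq_nonneg hM hp f
  have h2 := nsq_nonneg hM hp (t • g)
  have h3 : nsq M O (f + t • g) ≤ (Real.sqrt (nsq M O f) + Real.sqrt (nsq M O (t • g))) ^ 2 := by
    calc nsq M O (f + t • g) = Real.sqrt (nsq M O (f + t • g)) ^ 2 := (Real.sq_sqrt h0).symm
      _ ≤ _ := by
        have := Real.sqrt_nonneg (nsq M O (f + t • g))
        nlinarith
  have h4 : (Real.sqrt (nsq M O f) + Real.sqrt (nsq M O (t • g))) ^ 2 ≤
      2 * nsq M O f + 2 * nsq M O (t • g) := by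
    have e1 := Real.sq_sqrt h1
    have e2 := Real.sq_sqrt h2
    nlinarith [sq_nonneg (Real.sqrt (nsq M O f) - Real.sqrt (nsq M O (t • g)))]
  have h5 : nsq M O (t • g) = t ^ 2 * nsq M O g := nsq_smul hM hp t g
  calc nsq M O (f + t • g) ≤ 2 * nsq M O f + 2 * nsq M O (t • g) := h3.trans h4
    _ = _ := by rw [h5]; ring

theorem tame_pd {F : (O → ℤ) → ℝ} (hF : PD F) : Tame F :=
  tame_bdd (F 0) fun ψ => hF.abs_le ψ

theorem summable_Su_pd (hM : IsForm M) (hp : PDef M O) (f : W → ℝ) {F : (O → ℤ) → ℝ} (hF : PD F) :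
    Summable (fun ψ : O → ℤ => wt M O 0 ψ * Real.exp (pr O f (emb O ψ)) * F ψ) := by
  have := summable_wt_mul hM hp 0 (Tame.mul (tame_exp_pr f) (tame_pd hF))
  exact this.congr fun ψ => by ring

theorem wt_nonneg' (M : BF W) (O : Finset W) (h : W → ℝ) (ψ : O → ℤ) : 0 ≤ wt M O h ψ :=
  (Real.exp_pos _).le

theorem rest_le (hM : IsForm M) (hp : PDef M O) {F : (O → ℤ) → ℝ}
    (hF : PD F) (hpos : ∀ ψ, 0 < F ψ) (f g : W → ℝ) {θ : ℝ} (h0 : 0 < θ) (h1 : θ ≤ 1) :
    Su M O (f + g) F ≤
      Real.exp (La M O f + θ * nsq M O f + nsq M O g / θ) * Su M O g F := by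
  set b : W → ℝ := f + (1 / θ) • g with hb
  set A := La M O f with hA
  set B := nsq M O b / 2 with hB
  set E := Real.exp ((1 - θ) * A + θ * B) with hE
  have hZ0 : 0 ≤ Su M O 0 F :=
    tsum_nonneg fun ψ => mul_nonneg (mul_nonneg (wt_nonneg' _ _ _ _) (Real.exp_pos _).le) (hpos ψ).le
  have key : Su M O (f + g) F ≤ E * ((1 - θ) * (Real.exp (-A) * Su M O f F) +
      θ * (Real.exp (-B) * Su M O b F)) := by
    have s1 := summable_Su_pd hM hp (f + g) hF
    have s2 := summable_Su_pd hM hp f hF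
    have s3 := summable_Su_pd hM hp b hF
    have e : E * ((1 - θ) * (Real.exp (-A) * Su M O f F) + θ * (Real.exp (-B) * Su M O b F)) =
        ∑' ψ : O → ℤ, (E * (1 - θ) * Real.exp (-A) * (wt M O 0 ψ * Real.exp (pr O f (emb O ψ)) * F ψ)
          + E * θ * Real.exp (-B) * (wt M O 0 ψ * Real.exp (pr O b (emb O ψ)) * F ψ)) := by
      rw [Summable.tsum_add (s2.mul_left _) (s3.mul_left _), tsum_mul_left, tsum_mul_left]
      unfold Su
      ring
    rw [e]
    refine Summable.tsum_le_tsum (fun ψ => ?_) s1 ((s2.mul_left _).add (s3.mul_left _))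
    set x := pr O f (emb O ψ) with hx
    set y := pr O b (emb O ψ) with hy
    have hxy : pr O (f + g) (emb O ψ) = (1 - θ) * x + θ * y := by
      rw [hx, hy, hb, pr_add_left, pr_add_left, pr_smul_left]
      field_simp
      ring
    rw [hxy]
    have hconv := convexOn_exp.2 (mem_univ (x - A)) (mem_univ (y - B)) (sub_nonneg.2 h1) h0.le
      (by ring : (1 - θ) + θ = 1)
    simp only [smul_eq_mul] at hconv
    have e2 : Real.exp ((1 - θ) * x + θ * y) = E * Real.exp ((1 - θ) * (x - A) + θ * (y - B)) := by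
      rw [hE, ← Real.exp_add]
      congr 1
      ring
    rw [e2]
    have hw := mul_nonneg (wt_nonneg' M O 0 ψ) (hpos ψ).le
    have hE0 : 0 ≤ E := (Real.exp_pos _).le
    have e3 : Real.exp (x - A) = Real.exp (-A) * Real.exp x := by
      rw [← Real.exp_add]; congr 1; ring
    have e4 : Real.exp (y - B) = Real.exp (-B) * Real.exp y := by
      rw [← Real.exp_add]; congr 1; ring
    rw [e3, e4] at hconv
    calc wt M O 0 ψ * (E * Real.exp ((1 - θ) * (x - A) + θ * (y - B))) * F ψ
        = E * (wt M O 0 ψ * F ψ) * Real.exp ((1 - θ) * (x - A) + θ * (y - B)) := by ring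
      _ ≤ E * (wt M O 0 ψ * F ψ) * ((1 - θ) * (Real.exp (-A) * Real.exp x) +
            θ * (Real.exp (-B) * Real.exp y)) :=
          mul_le_mul_of_nonneg_left hconv (mul_nonneg hE0 hw)
      _ = _ := by ring
  have h2 : Real.exp (-A) * Su M O f F ≤ Su M O 0 F := by
    have := Su_le_La hM hp f hF
    calc Real.exp (-A) * Su M O f F ≤ Real.exp (-A) * (Real.exp A * Su M O 0 F) :=
          mul_le_mul_of_nonneg_left this (Real.exp_pos _).le
      _ = Su M O 0 F := by rw [← mul_assoc, ← Real.exp_add]; simp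
  have h3 : Real.exp (-B) * Su M O b F ≤ Su M O 0 F := by
    have := Su_le hM hp b hF
    calc Real.exp (-B) * Su M O b F ≤ Real.exp (-B) * (Real.exp B * Su M O 0 F) :=
          mul_le_mul_of_nonneg_left this (Real.exp_pos _).le
      _ = Su M O 0 F := by rw [← mul_assoc, ← Real.exp_add]; simp
  have h4 : Su M O (f + g) F ≤ E * Su M O 0 F := by
    refine key.trans ?_
    have hE0 : 0 ≤ E := (Real.exp_pos _).le
    refine mul_le_mul_of_nonneg_left ?_ hE0
    have := mul_le_mul_of_nonneg_left h2 (sub_nonneg.2 h1)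
    have := mul_le_mul_of_nonneg_left h3 h0.le
    linarith
  have hZg := Su_zero_le hM hp g hF fun ψ => (hpos ψ).le
  have hLa := La_nonneg hM hp f
  have hnb : nsq M O b ≤ 2 * nsq M O f + 2 * (1 / θ) ^ 2 * nsq M O g :=
    nsq_add_smul_le hM hp f g (1 / θ)
  have hexp : E ≤ Real.exp (La M O f + θ * nsq M O f + nsq M O g / θ) := by
    rw [hE]
    apply Real.exp_le_exp.2
    have h5 : θ * B ≤ θ * nsq M O f + nsq M O g / θ := by
      rw [hB]
      calc θ * (nsq M O b / 2) ≤ θ * ((2 * nsq M O f + 2 * (1 / θ) ^ 2 * nsq M O g) / 2) := by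
            apply mul_le_mul_of_nonneg_left _ h0.le
            linarith
        _ = θ * nsq M O f + nsq M O g / θ := by
            field_simp
    have h6 : (1 - θ) * A ≤ A := by nlinarith
    linarith
  calc Su M O (f + g) F ≤ E * Su M O 0 F := h4
    _ ≤ Real.exp (La M O f + θ * nsq M O f + nsq M O g / θ) * Su M O 0 F :=
        mul_le_mul_of_nonneg_right hexp hZ0
    _ ≤ _ := mul_le_mul_of_nonneg_left hZg (Real.exp_pos _).le

end Pool.Agent.LR.B8
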