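import Pool.Agent.LR.B8.Model
import Pool.Agent.LR.B8.Seg

/-!
# LR-F-SLITA: the square with an irrational slit: topology and lattice points

PLAN (namespace Pool.Agent.LR, file B8/SlitA.lean). `sqD` = open square, `slD` = square minus an interior
vertical slit at the irrational abscissa `√2 / 2`.
(1) `slD` is open, bounded, connected: it is the union of the four convex sets `{x < s}`, `{x > s}`,
`{y > 1/2}`, `{y < -1/2}` of the square (`Convex.isPreconnected`, `IsPreconnected.union` with a common point).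
(2) `segment_sqD`: around `z` in the frontier take `U = {w | |w.1 - z.1| < 1/2, |w.2 - z.2| < 1/2}` (or the sup
norm ball) and `y = -z/2` (or any fixed multiple): for `w` in the closed square and in `U` the point `w + t y`,
`0 < t < 1`, has both coordinates in `(-1, 1)`: if `|z.i| ≥ 1/2` the sign of `w.i` is the sign of `z.i` or
`|w.i|` is small; check the cases. Simpler: `U = univ` is impossible; `y = -z/2`, radius `1/8` works.
(3) `Lam_slit`: `sc n x = (x.1 / n, _)`, and `x.1 / n = √2/2` is impossible for `n ≥ 1` by irrationality; so the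
two sets `{x | sc n x ∈ D}` agree.
-/

set_option autoImplicit false

noncomputable section

open scoped BigOperators Topology
open MeasureTheory Filter Set ProbabilityTheory

namespace Pool.Agent.LR

/-- the open square -/
def sqD : Set P := Ioo (-1) 1 ×ˢ Ioo (-1) 1

/-- the square minus the slit `{√2/2} × [-1/2, 1/2]` -/
def slD : Set P := sqD \ ({√2 / 2} ×ˢ Icc (-(1 / 2)) (1 / 2))

theorem isOpen_sqD : IsOpen sqD := isOpen_Ioo.prod isOpen_Ioo

theorem isOpen_slD : IsOpen slD := isOpen_sqD.sdiff (isClosed_singleton.prod isClosed_Icc)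

theorem isBounded_sqD : Bornology.IsBounded sqD :=
  (Metric.isBounded_Ioo (-1 : ℝ) 1).prod (Metric.isBounded_Ioo (-1 : ℝ) 1)

theorem isBounded_slD : Bornology.IsBounded slD := isBounded_sqD.subset diff_subset

theorem isConnected_slD : IsConnected slD := by
  have hs1 : √2 / 2 < (9 / 10 : ℝ) := by
    have h : √2 < 18 / 10 := by
      rw [Real.sqrt_lt' (by norm_num)]
      norm_num
    linarith
  have hs0 : (0 : ℝ) < √2 / 2 := by positivity
  have e : slD = (((Ioo (-1 : ℝ) (√2 / 2) ×ˢ Ioo (-1 : ℝ) 1) ∪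
      (Ioo (-1 : ℝ) 1 ×ˢ Ioo (1 / 2 : ℝ) 1)) ∪ (Ioo (√2 / 2) (1 : ℝ) ×ˢ Ioo (-1 : ℝ) 1)) ∪
      (Ioo (-1 : ℝ) 1 ×ˢ Ioo (-1 : ℝ) (-(1 / 2))) := by
    ext ⟨x, y⟩
    simp only [slD, sqD, mem_diff, mem_union, mem_prod, mem_Ioo, mem_Icc, mem_singleton_iff]
    constructor
    · rintro ⟨⟨⟨h1, h2⟩, h3, h4⟩, h5⟩
      rcases lt_trichotomy x (√2 / 2) with h | h | h
      · exact Or.inl (Or.inl (Or.inl ⟨⟨h1, h⟩, h3, h4⟩))
      · by_cases h6 : 1 / 2 < y
        · exact Or.inl (Or.inl (Or.inr ⟨⟨h1, h2⟩, h6, h4⟩))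
        · by_cases h7 : y < -(1 / 2)
          · exact Or.inr ⟨⟨h1, h2⟩, h3, h7⟩
          · exact absurd ⟨h, not_lt.1 h7, not_lt.1 h6⟩ h5
      · exact Or.inl (Or.inr ⟨⟨h, h2⟩, h3, h4⟩)
    · rintro (((⟨⟨h1, h2⟩, h3, h4⟩ | ⟨⟨h1, h2⟩, h3, h4⟩) | ⟨⟨h1, h2⟩, h3, h4⟩) |
        ⟨⟨h1, h2⟩, h3, h4⟩)
      · refine ⟨⟨⟨h1, by linarith⟩, h3, h4⟩, ?_⟩
        rintro ⟨h5, -, -⟩
        linarith
      · refine ⟨⟨⟨h1, h2⟩, by linarith, h4⟩, ?_⟩
        rintro ⟨-, -, h5⟩
        linarith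
      · refine ⟨⟨⟨by linarith, h2⟩, h3, h4⟩, ?_⟩
        rintro ⟨h5, -, -⟩
        linarith
      · refine ⟨⟨⟨h1, h2⟩, h3, by linarith⟩, ?_⟩
        rintro ⟨-, h5, -⟩
        linarith
  have c1 : IsPreconnected (Ioo (-1 : ℝ) (√2 / 2) ×ˢ Ioo (-1 : ℝ) 1) :=
    isPreconnected_Ioo.prod isPreconnected_Ioo
  have c2 : IsPreconnected (Ioo (√2 / 2) (1 : ℝ) ×ˢ Ioo (-1 : ℝ) 1) :=
    isPreconnected_Ioo.prod isPreconnected_Ioo
  have c3 : IsPreconnected (Ioo (-1 : ℝ) 1 ×ˢ Ioo (1 / 2 : ℝ) 1) :=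
    isPreconnected_Ioo.prod isPreconnected_Ioo
  have c4 : IsPreconnected (Ioo (-1 : ℝ) 1 ×ˢ Ioo (-1 : ℝ) (-(1 / 2))) :=
    isPreconnected_Ioo.prod isPreconnected_Ioo
  rw [e]
  refine ⟨⟨((0 : ℝ), (3 / 4 : ℝ)), ?_⟩, ?_⟩
  · refine Or.inl (Or.inl (Or.inl ?_))
    simp only [mem_prod, mem_Ioo]
    refine ⟨⟨by norm_num, hs0⟩, by norm_num, by norm_num⟩
  · refine IsPreconnected.union ((0 : ℝ), (-3 / 4 : ℝ)) ?_ ?_ ?_ c4
    · refine Or.inl (Or.inl ?_)
      simp only [mem_prod, mem_Ioo]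
      refine ⟨⟨by norm_num, hs0⟩, by norm_num, by norm_num⟩
    · simp only [mem_prod, mem_Ioo]
      refine ⟨⟨by norm_num, by norm_num⟩, by norm_num, by norm_num⟩
    · refine IsPreconnected.union ((9 / 10 : ℝ), (3 / 4 : ℝ)) ?_ ?_ ?_ c2
      · refine Or.inr ?_
        simp only [mem_prod, mem_Ioo]
        refine ⟨⟨by norm_num, by norm_num⟩, by norm_num, by norm_num⟩
      · simp only [mem_prod, mem_Ioo]
        refine ⟨⟨hs1, by norm_num⟩, by norm_num, by norm_num⟩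
      · refine IsPreconnected.union ((0 : ℝ), (3 / 4 : ℝ)) ?_ ?_ c1 c3
        · simp only [mem_prod, mem_Ioo]
          refine ⟨⟨by norm_num, hs0⟩, by norm_num, by norm_num⟩
        · simp only [mem_prod, mem_Ioo]
          refine ⟨⟨by norm_num, by norm_num⟩, by norm_num, by norm_num⟩

/-- one coordinate of the shifted point -/
private theorem seg_coord {z w t : ℝ} (h1 : -1 ≤ w) (h2 : w ≤ 1)
    (hw : |w - z| < 1 / 8) (ht0 : 0 < t) (ht1 : t < 1) :
    -1 < w + t * (-(1 / 2) * z) ∧ w + t * (-(1 / 2) * z) < 1 := by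
  rw [abs_lt] at hw
  obtain ⟨a1, a2⟩ := hw
  constructor
  · rcases lt_or_ge z 0 with h | h
    · have : 0 < t * (-z) := mul_pos ht0 (by linarith)
      nlinarith
    · have : 0 ≤ z * (1 - t) := mul_nonneg h (by linarith)
      nlinarith
  · rcases lt_or_ge 0 z with h | h
    · have : 0 < t * z := mul_pos ht0 h
      nlinarith
    · have : 0 ≤ (-z) * (1 - t) := mul_nonneg (by linarith) (by linarith)
      nlinarith

theorem segment_sqD : SegmentProperty sqD := by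
  intro z _
  refine ⟨Metric.ball z (1 / 8), Metric.isOpen_ball, Metric.mem_ball_self (by norm_num),
    (-(1 / 2) * z.1, -(1 / 2) * z.2), ?_⟩
  rintro w ⟨hw, hwU⟩ t ht0 ht1
  have hcl : closure sqD = Icc (-1 : ℝ) 1 ×ˢ Icc (-1 : ℝ) 1 := by
    rw [sqD, closure_prod_eq, closure_Ioo (by norm_num)]
  rw [hcl, mem_prod, mem_Icc, mem_Icc] at hw
  obtain ⟨⟨h1, h2⟩, h3, h4⟩ := hw
  rw [Metric.mem_ball, Prod.dist_eq, max_lt_iff, Real.dist_eq, Real.dist_eq] at hwU
  have k1 := seg_coord h1 h2 hwU.1 ht0 ht1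
  have k2 := seg_coord h3 h4 hwU.2 ht0 ht1
  exact ⟨k1, k2⟩

private theorem Lam_congr {D D' : Set P} {n : ℕ} (h : ∀ x : V, sc n x ∈ D ↔ sc n x ∈ D') :
    Lam D n = Lam D' n := by
  have hs : {x : V | sc n x ∈ D} = {x : V | sc n x ∈ D'} := by
    ext x
    exact h x
  unfold Lam
  split_ifs with h1 h2 h2
  · ext x
    rw [Set.Finite.mem_toFinset, Set.Finite.mem_toFinset]
    exact h x
  · exact absurd (hs ▸ h1) h2
  · exact absurd (hs ▸ h2) h1
  · rfl

theorem Lam_slit (n : ℕ) (hn : 1 ≤ n) : Lam slD n = Lam sqD n := by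
  refine Lam_congr fun x => ?_
  constructor
  · exact fun h => h.1
  · intro h
    refine ⟨h, ?_⟩
    rintro ⟨h1, -⟩
    have h2 : (x.1 : ℝ) / n = √2 / 2 := h1
    refine irrational_sqrt_two ⟨2 * (x.1 : ℚ) / n, ?_⟩
    push_cast
    rw [mul_div_assoc, h2]
    ring

end Pool.Agent.LR
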