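import Pool.Agent.LR.B8.SlitA

/-!
# LR-F-SLITB: the square with an irrational slit: the two Dirichlet problems

PLAN (namespace Pool.Agent.LR, file B8/SlitB.lean).
(3) `vD_of_neg_lapl`: for `H` smooth with compact support in `D` and `f = -ΔH`:
`2∫ f φ - Dir φ = 2 DB H φ - Dir φ = Dir H - Dir (H - φ)` (integration by parts: `int_mul_dx`, `int_mul_dy` of
Calc.lean applied to `dx H`, `dy H`), so `vD D f = Dir H` if `Test D H`, the supremum being attained at `H`.
(4) `exists_eq`: `H` a nonzero smooth bump (`ContDiffBump`) supported in a small ball of `slD`, for instance at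
`0`: `f = -ΔH` has `vD slD f = vD sqD f = Dir H > 0` (`poincare` of Calc.lean gives `Dir H > 0`).
(5) `exists_lt`: `H` smooth with compact support in the square and `H = 1` in a neighbourhood of the slit, for
instance `H z = a z.1 * b z.2`, `a, b` one variable bumps (`ContDiffBump` in `ℝ`, or `Real.smoothTransition`),
`a = 1` near `[√2/2 - 1/100, √2/2 + 1/100]`, `b = 1` near `[-1/2, 1/2]`. `f = -ΔH` is a test function of `slD`
(it vanishes near the slit, where `H` is locally constant). `vD sqD f = Dir H` and for every `φ` with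
`Test slD φ`: `JF f φ = Dir H - Dir (H - φ)` and `Dir (H - φ) ≥ 1/4`, because `w = H - φ` is `C¹` with support in
the square and `w(s,y) = 1` for `|y| ≤ 1/2`: `1 = ∫_{-1}^{s} ∂₁w(x,y) dx ≤ (2 ∫ (∂₁w)²(x,y) dx)^{1/2}`, integrate
over `|y| ≤ 1/2` (Fubini: `integral_prod`, `Measure.volume_eq_prod`; `dir_ge_dx` of Calc.lean).
-/

set_option autoImplicit false

noncomputable section

open scoped BigOperators Topology
open MeasureTheory Filter Set ProbabilityTheory

namespace Pool.Agent.LR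

private lemma sb_c1 {D : Set P} {φ : P → ℝ} (h : Test D φ) : C1c φ :=
  ⟨h.smooth.of_le (by exact_mod_cast le_top), h.comp⟩

private lemma sb_smooth_dx {H : P → ℝ} (h : ContDiff ℝ ((⊤ : ℕ∞) : WithTop ℕ∞) H) :
    ContDiff ℝ ((⊤ : ℕ∞) : WithTop ℕ∞) (dx H) := by
  have h1 : ContDiff ℝ ((⊤ : ℕ∞) : WithTop ℕ∞) (fderiv ℝ H) :=
    h.fderiv_right (by simp)
  exact h1.clm_apply contDiff_const

private lemma sb_smooth_dy {H : P → ℝ} (h : ContDiff ℝ ((⊤ : ℕ∞) : WithTop ℕ∞) H) :
    ContDiff ℝ ((⊤ : ℕ∞) : WithTop ℕ∞) (dy H) := by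
  have h1 : ContDiff ℝ ((⊤ : ℕ∞) : WithTop ℕ∞) (fderiv ℝ H) :=
    h.fderiv_right (by simp)
  exact h1.clm_apply contDiff_const

private lemma sb_supp_dx (H : P → ℝ) : tsupport (dx H) ⊆ tsupport H := by
  refine (closure_mono ?_).trans (tsupport_fderiv_subset ℝ (f := H))
  intro z hz hz'
  apply hz
  unfold dx
  rw [hz']
  rfl

private lemma sb_supp_dy (H : P → ℝ) : tsupport (dy H) ⊆ tsupport H := by
  refine (closure_mono ?_).trans (tsupport_fderiv_subset ℝ (f := H))
  intro z hz hz'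
  apply hz
  unfold dy
  rw [hz']
  rfl

private lemma sb_lapl (H : P → ℝ) (z : P) : lapl H z = dx (dx H) z + dy (dy H) z := rfl

private lemma sb_supp_lapl (H : P → ℝ) : tsupport (fun z => - lapl H z) ⊆ tsupport H := by
  refine closure_minimal ?_ (isClosed_tsupport H)
  intro z hz
  by_contra h
  apply hz
  have h1 : dx (dx H) z = 0 :=
    image_eq_zero_of_notMem_tsupport fun h' => h (sb_supp_dx H (sb_supp_dx (dx H) h'))
  have h2 : dy (dy H) z = 0 :=
    image_eq_zero_of_notMem_tsupport fun h' => h (sb_supp_dy H (sb_supp_dy (dy H) h'))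
  simp only [sb_lapl, h1, h2, add_zero, neg_zero]

private lemma sb_test_lapl {D : Set P} {H : P → ℝ} (hH : Test D H) :
    Test D (fun z => - lapl H z) := by
  refine ⟨?_, ?_, (sb_supp_lapl H).trans hH.supp⟩
  · have h1 := (sb_smooth_dx (sb_smooth_dx hH.smooth)).add (sb_smooth_dy (sb_smooth_dy hH.smooth))
    exact h1.neg
  · exact hH.comp.of_isClosed_subset (isClosed_tsupport _) (sb_supp_lapl H)

private lemma sb_key {D D' : Set P} {H φ : P → ℝ} (hH : Test D H) (hφ : Test D' φ) :
    2 * (∫ z, (- lapl H z) * φ z) - Dir φ = Dir H - Dir (H - φ) := by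
  have hc := sb_c1 hH
  have hg := sb_c1 hφ
  have hx : C1c (dx H) :=
    ⟨(sb_smooth_dx hH.smooth).of_le (by exact_mod_cast le_top), hc.cs_dx⟩
  have hy : C1c (dy H) :=
    ⟨(sb_smooth_dy hH.smooth).of_le (by exact_mod_cast le_top), hc.cs_dy⟩
  have i1 : Integrable (fun z => φ z * dx (dx H) z) :=
    int_cc (hg.cont.mul hx.cont_dx) hg.cs.mul_right
  have i2 : Integrable (fun z => φ z * dy (dy H) z) :=
    int_cc (hg.cont.mul hy.cont_dy) hg.cs.mul_right
  have i3 : Integrable (fun z => dx φ z * dx H z) :=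
    int_cc (hg.cont_dx.mul hc.cont_dx) hg.cs_dx.mul_right
  have i4 : Integrable (fun z => dy φ z * dy H z) :=
    int_cc (hg.cont_dy.mul hc.cont_dy) hg.cs_dy.mul_right
  have h1 : ∫ z, (- lapl H z) * φ z = DB H φ := by
    have e1 : ∫ z, (- lapl H z) * φ z =
        -((∫ z, φ z * dx (dx H) z) + ∫ z, φ z * dy (dy H) z) := by
      rw [← integral_add i1 i2, ← integral_neg]
      refine integral_congr_ae (Eventually.of_forall fun z => ?_)
      simp only [sb_lapl]
      ring
    rw [e1, int_mul_dx hg hx, int_mul_dy hg hy]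
    have e2 : DB H φ = (∫ z, dx φ z * dx H z) + ∫ z, dy φ z * dy H z := by
      unfold DB
      rw [← integral_add i3 i4]
      refine integral_congr_ae (Eventually.of_forall fun z => ?_)
      simp only
      ring
    rw [e2]
    ring
  rw [h1, Dir_sub hc hg]
  ring

private lemma sb_Dir_zero : Dir (0 : P → ℝ) = 0 := by
  have := Dir_smul (φ := (0 : P → ℝ)) C1c.zero 0
  simpa using this

theorem vD_of_neg_lapl {D : Set P} {H : P → ℝ} (hH : Test D H) :
    vD D (fun z => - lapl H z) = Dir H := by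
  unfold vD
  refine IsGreatest.csSup_eq ⟨⟨H, hH, ?_⟩, ?_⟩
  · rw [sb_key hH hH, sub_self, sb_Dir_zero, sub_zero]
  · rintro r ⟨φ, hφ, rfl⟩
    rw [sb_key hH hφ]
    linarith [Dir_nonneg (H - φ)]

private lemma sb_s_pos : (7 : ℝ) / 10 < √2 / 2 := by
  have : (7 : ℝ) / 5 < √2 := by
    rw [Real.lt_sqrt (by norm_num)]
    norm_num
  linarith

private lemma sb_s_lt : √2 / 2 < (71 : ℝ) / 100 := by
  have : √2 < (71 : ℝ) / 50 := by
    rw [Real.sqrt_lt' (by norm_num)]
    norm_num
  linarith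

theorem exists_eq : ∃ f, Test slD f ∧ vD slD f = vD sqD f ∧ 0 < vD sqD f := by
  let B : ContDiffBump (0 : P) := ⟨1 / 8, 1 / 4, by norm_num, by norm_num⟩
  set H : P → ℝ := fun z => B z with hHdef
  have hts : tsupport H ⊆ Metric.closedBall (0 : P) (1 / 4) := by
    rw [hHdef]
    exact (B.tsupport_eq).le
  have hball : Metric.closedBall (0 : P) (1 / 4) ⊆ slD := by
    intro z hz
    rw [mem_closedBall_zero_iff, Prod.norm_def, max_le_iff, Real.norm_eq_abs, Real.norm_eq_abs,
      abs_le, abs_le] at hz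
    obtain ⟨⟨h1, h2⟩, h3, h4⟩ := hz
    refine ⟨⟨⟨by linarith, by linarith⟩, by constructor <;> linarith⟩, ?_⟩
    rintro ⟨h5, -⟩
    have h6 : z.1 = √2 / 2 := h5
    have := sb_s_pos
    linarith
  have hsl : Test slD H := ⟨B.contDiff, B.hasCompactSupport, hts.trans hball⟩
  have hsq : Test sqD H := ⟨hsl.smooth, hsl.comp, hsl.supp.trans sdiff_subset⟩
  refine ⟨fun z => - lapl H z, sb_test_lapl hsl, ?_, ?_⟩
  · rw [vD_of_neg_lapl hsl, vD_of_neg_lapl hsq]
  · rw [vD_of_neg_lapl hsq]
    have hc := sb_c1 hsq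
    have h1 := poincare hc (R := 1) fun z hz => by
      have h2 : z ∈ sqD := hsq.supp (subset_tsupport _ hz)
      have h3 : z.1 ∈ Ioo (-1 : ℝ) 1 := h2.1
      exact abs_le.2 ⟨h3.1.le, h3.2.le⟩
    have h2 : 0 < ∫ z, H z ^ 2 := by
      have hcont : Continuous fun z => H z ^ 2 := hc.cont.pow 2
      have hcs : HasCompactSupport fun z => H z ^ 2 := by
        have e : (fun z => H z ^ 2) = H * H := by
          funext z
          simp [pow_two]
        rw [e]
        exact hc.cs.mul_right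
      refine hcont.integral_pos_of_hasCompactSupport_nonneg_nonzero hcs
        (fun z => sq_nonneg _) (x := (0 : P)) ?_
      have : H 0 = 1 := B.one_of_mem_closedBall (by simp [B])
      simp only [this]
      norm_num
    linarith

/-- a line estimate -/
private lemma sb_line {w : P → ℝ} (hw : C1c w) (y : ℝ) (h0 : w (-1, y) = 0)
    (h1 : w (√2 / 2, y) = 1) : 1 / 2 ≤ ∫ x : ℝ, dx w (x, y) ^ 2 := by
  have hder : ∀ x : ℝ, HasDerivAt (fun x : ℝ => w (x, y)) (dx w (x, y)) x := by
    intro x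
    have e1 : HasFDerivAt w (fderiv ℝ w (x, y)) (x, y) := (hw.diff (x, y)).hasFDerivAt
    have e2 : HasDerivAt (fun x : ℝ => ((x, y) : P)) (1, 0) x :=
      (hasDerivAt_id x).prodMk (hasDerivAt_const x y)
    exact e1.comp_hasDerivAt x e2
  have hcont : Continuous fun x : ℝ => dx w (x, y) :=
    hw.cont_dx.comp (continuous_id.prodMk continuous_const)
  have hint : ∫ x in (-1 : ℝ)..(√2 / 2), dx w (x, y) = 1 := by
    rw [intervalIntegral.integral_eq_sub_of_hasDerivAt (fun x _ => hder x)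
      (hcont.intervalIntegrable _ _), h0, h1, sub_zero]
  have hs1 := sb_s_pos
  have hs2 := sb_s_lt
  have hle : (-1 : ℝ) ≤ √2 / 2 := by linarith
  have h2 : ∫ x in (-1 : ℝ)..(√2 / 2), dx w (x, y) ≤
      ∫ x in (-1 : ℝ)..(√2 / 2), (dx w (x, y) ^ 2 + 1 / 4) := by
    refine intervalIntegral.integral_mono_on hle (hcont.intervalIntegrable _ _)
      (((hcont.pow 2).add continuous_const).intervalIntegrable _ _) fun x _ => ?_
    nlinarith [sq_nonneg (dx w (x, y) - 1 / 2)]
  have h3 : ∫ x in (-1 : ℝ)..(√2 / 2), (dx w (x, y) ^ 2 + 1 / 4) =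
      (∫ x in (-1 : ℝ)..(√2 / 2), dx w (x, y) ^ 2) + (√2 / 2 + 1) / 4 := by
    have hp : IntervalIntegrable (fun x : ℝ => dx w (x, y) ^ 2) volume (-1) (√2 / 2) :=
      (hcont.pow 2).intervalIntegrable _ _
    rw [intervalIntegral.integral_add hp (continuous_const.intervalIntegrable _ _),
      intervalIntegral.integral_const]
    simp only [smul_eq_mul]
    ring
  have hcs : HasCompactSupport fun x : ℝ => dx w (x, y) := by
    have hemb : Topology.IsClosedEmbedding fun x : ℝ => ((x, y) : P) :=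
      Topology.IsClosedEmbedding.of_continuous_injective_isClosedMap
        (continuous_id.prodMk continuous_const) (fun a b h => (Prod.mk.inj h).1)
        (isClosedMap_prodMk_right y)
    exact hw.cs_dx.comp_isClosedEmbedding hemb
  have hint2 : Integrable fun x : ℝ => dx w (x, y) ^ 2 := by
    have h9 : Integrable (fun x : ℝ => dx w (x, y) * dx w (x, y)) :=
      (hcont.mul hcont).integrable_of_hasCompactSupport (hcs.mul_right)
    refine h9.congr (Eventually.of_forall fun x => ?_)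
    simp [pow_two]
  have h4 : ∫ x in (-1 : ℝ)..(√2 / 2), dx w (x, y) ^ 2 ≤ ∫ x : ℝ, dx w (x, y) ^ 2 := by
    rw [intervalIntegral.integral_of_le hle]
    exact setIntegral_le_integral hint2 (Eventually.of_forall fun x => sq_nonneg _)
  linarith

private lemma sb_trace {w : P → ℝ} (hw : C1c w) (h0 : ∀ y, w (-1, y) = 0)
    (h1 : ∀ y ∈ Icc (-(1 / 2) : ℝ) (1 / 2), w (√2 / 2, y) = 1) : 1 / 2 ≤ Dir w := by
  refine le_trans ?_ (dir_ge_dx hw)
  have hint : Integrable (fun z : P => dx w z ^ 2) := by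
    have := int_cc (hw.cont_dx.mul hw.cont_dx) (hw.cs_dx.mul_right (f' := dx w))
    refine this.congr (Eventually.of_forall fun z => ?_)
    simp [pow_two]
  have hint' : Integrable (fun z : ℝ × ℝ => dx w z ^ 2)
      ((volume : Measure ℝ).prod (volume : Measure ℝ)) := hint
  have e1 : ∫ z : P, dx w z ^ 2 = ∫ y : ℝ, ∫ x : ℝ, dx w (x, y) ^ 2 :=
    integral_prod_symm _ hint'
  rw [e1]
  have hG : Integrable fun y : ℝ => ∫ x : ℝ, dx w (x, y) ^ 2 := hint'.integral_prod_right
  have h2 : ∫ y : ℝ, (Icc (-(1 / 2) : ℝ) (1 / 2)).indicator (fun _ => (1 / 2 : ℝ)) y ≤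
      ∫ y : ℝ, ∫ x : ℝ, dx w (x, y) ^ 2 := by
    refine integral_mono ?_ hG fun y => ?_
    · exact (integrable_indicator_iff measurableSet_Icc).2
        (integrableOn_const (by simp) (by simp))
    · by_cases hy : y ∈ Icc (-(1 / 2) : ℝ) (1 / 2)
      · simp only [indicator_of_mem hy]
        exact sb_line hw y (h0 y) (h1 y hy)
      · simp only [indicator_of_notMem hy]
        exact integral_nonneg fun x => sq_nonneg _
  refine le_trans ?_ h2
  rw [integral_indicator measurableSet_Icc, setIntegral_const]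
  simp [Measure.real]
  norm_num

theorem exists_lt : ∃ f, Test slD f ∧ vD slD f < vD sqD f := by
  have hs1 := sb_s_pos
  have hs2 := sb_s_lt
  let A : ContDiffBump (√2 / 2 : ℝ) := ⟨1 / 100, 1 / 10, by norm_num, by norm_num⟩
  let B : ContDiffBump (0 : ℝ) := ⟨3 / 5, 4 / 5, by norm_num, by norm_num⟩
  set H : P → ℝ := fun z => A z.1 * B z.2 with hHdef
  have hsm : ContDiff ℝ ((⊤ : ℕ∞) : WithTop ℕ∞) H :=
    (A.contDiff.comp contDiff_fst).mul (B.contDiff.comp contDiff_snd)
  set Kc : Set P := Metric.closedBall (√2 / 2 : ℝ) (1 / 10) ×ˢ Metric.closedBall (0 : ℝ) (4 / 5)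
    with hKc
  have hKcl : IsClosed Kc := Metric.isClosed_closedBall.prod Metric.isClosed_closedBall
  have hKco : IsCompact Kc := (isCompact_closedBall _ _).prod (isCompact_closedBall _ _)
  have hts : tsupport H ⊆ Kc := by
    refine closure_minimal ?_ hKcl
    intro z hz
    have h1 : A z.1 ≠ 0 := fun h => hz (by simp only [hHdef, h, zero_mul])
    have h2 : B z.2 ≠ 0 := fun h => hz (by simp only [hHdef, h, mul_zero])
    have h3 : z.1 ∈ Function.support A := h1
    have h4 : z.2 ∈ Function.support B := h2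
    rw [A.support_eq] at h3
    rw [B.support_eq] at h4
    exact ⟨Metric.ball_subset_closedBall h3, Metric.ball_subset_closedBall h4⟩
  have hKsq : Kc ⊆ sqD := by
    rintro z ⟨h1, h2⟩
    rw [Metric.mem_closedBall, Real.dist_eq, abs_le] at h1 h2
    refine ⟨⟨?_, ?_⟩, ?_, ?_⟩ <;> linarith [h1.1, h1.2, h2.1, h2.2]
  have hcs : HasCompactSupport H := hKco.of_isClosed_subset (isClosed_tsupport _) hts
  have hsq : Test sqD H := ⟨hsm, hcs, hts.trans hKsq⟩
  -- `H` is one near the slit
  set W : Set P := Metric.ball (√2 / 2 : ℝ) (1 / 100) ×ˢ Metric.ball (0 : ℝ) (3 / 5) with hW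
  have hWo : IsOpen W := Metric.isOpen_ball.prod Metric.isOpen_ball
  have hW1 : ∀ z ∈ W, H z = 1 := by
    rintro z ⟨h1, h2⟩
    have e1 : A z.1 = 1 := A.one_of_mem_closedBall (Metric.ball_subset_closedBall h1)
    have e2 : B z.2 = 1 := B.one_of_mem_closedBall (Metric.ball_subset_closedBall h2)
    simp only [hHdef, e1, e2, mul_one]
  have hWs : ({√2 / 2} ×ˢ Icc (-(1 / 2)) (1 / 2) : Set P) ⊆ W := by
    rintro z ⟨h1, h2⟩
    have h3 : z.1 = √2 / 2 := h1
    refine ⟨?_, ?_⟩
    · rw [h3]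
      exact Metric.mem_ball_self (by norm_num)
    · rw [Metric.mem_ball, Real.dist_eq, abs_lt]
      constructor <;> linarith [h2.1, h2.2]
  have hWl : ∀ z ∈ W, lapl H z = 0 := by
    intro z hz
    have e0 : ∀ w ∈ W, fderiv ℝ H w = 0 := by
      intro w hw
      have : H =ᶠ[𝓝 w] fun _ => (1 : ℝ) := by
        filter_upwards [hWo.mem_nhds hw] with v hv using hW1 v hv
      rw [this.fderiv_eq]
      simp
    have e1 : dx H =ᶠ[𝓝 z] fun _ => (0 : ℝ) := by
      filter_upwards [hWo.mem_nhds hz] with w hw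
      unfold dx
      rw [e0 w hw]
      rfl
    have e2 : dy H =ᶠ[𝓝 z] fun _ => (0 : ℝ) := by
      filter_upwards [hWo.mem_nhds hz] with w hw
      unfold dy
      rw [e0 w hw]
      rfl
    rw [sb_lapl]
    have e3 : dx (dx H) z = 0 := by
      change fderiv ℝ (dx H) z (1, 0) = 0
      rw [e1.fderiv_eq]
      simp
    have e4 : dy (dy H) z = 0 := by
      change fderiv ℝ (dy H) z (0, 1) = 0
      rw [e2.fderiv_eq]
      simp
    rw [e3, e4, add_zero]
  have hft : Test slD (fun z => - lapl H z) := by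
    have h1 := sb_test_lapl hsq
    refine ⟨h1.smooth, h1.comp, fun z hz => ⟨h1.supp hz, fun h2 => ?_⟩⟩
    have h3 : z ∈ W := hWs h2
    have h4 : tsupport (fun z => - lapl H z) ⊆ Wᶜ := by
      refine closure_minimal ?_ hWo.isClosed_compl
      intro v hv hv'
      apply hv
      simp only [hWl v hv', neg_zero]
    exact h4 hz h3
  refine ⟨fun z => - lapl H z, hft, ?_⟩
  rw [vD_of_neg_lapl hsq]
  have h5 : vD slD (fun z => - lapl H z) ≤ Dir H - 1 / 2 := by
    unfold vD
    refine csSup_le ⟨_, 0, ⟨contDiff_const, by simp [HasCompactSupport, tsupport],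
      by simp [tsupport]⟩, rfl⟩ ?_
    rintro r ⟨φ, hφ, rfl⟩
    rw [sb_key hsq hφ]
    have hw : C1c (H - φ) := (sb_c1 hsq).sub (sb_c1 hφ)
    have hφ0 : ∀ z, z ∉ slD → φ z = 0 := fun z hz =>
      image_eq_zero_of_notMem_tsupport fun h => hz (hφ.supp h)
    have hH0 : ∀ z, z ∉ sqD → H z = 0 := fun z hz =>
      image_eq_zero_of_notMem_tsupport fun h => hz (hsq.supp h)
    have h6 : 1 / 2 ≤ Dir (H - φ) := by
      refine sb_trace hw (fun y => ?_) fun y hy => ?_
      · have h7 : ((-1, y) : P) ∉ sqD := by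
          rintro ⟨⟨h8, -⟩, -⟩
          exact lt_irrefl _ h8
        rw [Pi.sub_apply, hH0 _ h7, hφ0 _ fun h => h7 h.1, sub_zero]
      · have h7 : ((√2 / 2, y) : P) ∈ ({√2 / 2} ×ˢ Icc (-(1 / 2)) (1 / 2) : Set P) := ⟨rfl, hy⟩
        rw [Pi.sub_apply, hW1 _ (hWs h7), hφ0 _ fun h => h.2 h7, sub_zero]
    linarith
  linarith

end Pool.Agent.LR
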